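import Pool.Agent.Helper454.Gam

set_option autoImplicit false
set_option linter.unusedSectionVars false
open scoped Manifold ContDiff Topology
open Set Real

namespace Pool.Agent.Helper454.Engel

/-- linear part of the action -/
noncomputable def lin (g : Gam) : E4 →L[ℝ] E4 :=
  LinearMap.toContinuousLinearMap
  { toFun := fun v => !₂[gr ^ g.m * v 0, gc ^ g.m * v 1, (-1 : ℝ) ^ g.m * v 2, v 3]
    map_add' := by
      intro v w
      apply E4_ext <;> simp [mul_add]
    map_smul' := by
      intro c v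
      apply E4_ext <;> simp <;> ring }

@[simp] lemma lin_0 (g : Gam) (v : E4) : lin g v 0 = gr ^ g.m * v 0 := by simp [lin]
@[simp] lemma lin_1 (g : Gam) (v : E4) : lin g v 1 = gc ^ g.m * v 1 := by simp [lin]
@[simp] lemma lin_2 (g : Gam) (v : E4) : lin g v 2 = (-1 : ℝ) ^ g.m * v 2 := by simp [lin]
@[simp] lemma lin_3 (g : Gam) (v : E4) : lin g v 3 = v 3 := by simp [lin]

lemma act_eq (g : Gam) (p : E4) :
    g • p = lin g p + !₂[e1 g.n, e2 g.n, 2 * π * g.k, g.m * Real.log gr] := by
  rw [smul_def]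
  apply E4_ext <;> simp

lemma hasFDerivAt_smul (g : Gam) (p : E4) : HasFDerivAt (fun p : E4 => g • p) (lin g) p := by
  have : (fun p : E4 => g • p) = fun p =>
      lin g p + !₂[e1 g.n, e2 g.n, 2 * π * g.k, g.m * Real.log gr] := by
    ext1 p; exact act_eq g p
  rw [this]
  exact (lin g).hasFDerivAt.add_const _

lemma fderiv_smul_eq (g : Gam) (p : E4) : fderiv ℝ (fun p : E4 => g • p) p = lin g :=
  (hasFDerivAt_smul g p).fderiv

lemma contDiff_smul (g : Gam) : ContDiff ℝ ∞ (fun p : E4 => g • p) := by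
  have : (fun p : E4 => g • p) = fun p =>
      lin g p + !₂[e1 g.n, e2 g.n, 2 * π * g.k, g.m * Real.log gr] := by
    ext1 p; exact act_eq g p
  rw [this]
  exact (lin g).contDiff.add contDiff_const

instance : ContinuousConstSMul Gam E4 := ⟨fun g => (contDiff_smul g).continuous⟩

lemma log_gr_pos : 0 < Real.log gr := Real.log_pos Real.one_lt_goldenRatio

lemma smul_apply_0 (g : Gam) (p : E4) : (g • p) 0 = gr ^ g.m * p 0 + e1 g.n := act_0 g p
lemma smul_apply_1 (g : Gam) (p : E4) : (g • p) 1 = gc ^ g.m * p 1 + e2 g.n := act_1 g p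
lemma smul_apply_2 (g : Gam) (p : E4) : (g • p) 2 = (-1 : ℝ) ^ g.m * p 2 + 2 * π * g.k :=
  act_2 g p
lemma smul_apply_3 (g : Gam) (p : E4) : (g • p) 3 = p 3 + g.m * Real.log gr := act_3 g p

instance : IsCancelSMul Gam E4 where
  left_cancel' g p p' h := by
    have := congrArg (fun x => g⁻¹ • x) h
    simpa using this
  right_cancel' g h p hgh := by
    have h3 := congrArg (fun x : E4 => x 3) hgh
    have h2 := congrArg (fun x : E4 => x 2) hgh
    have h0 := congrArg (fun x : E4 => x 0) hgh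
    simp only [smul_apply_3, smul_apply_2, smul_apply_0] at h3 h2 h0
    have hm : g.m = h.m := by
      have hl := log_gr_pos
      have : (g.m : ℝ) = h.m := by
        have : ((g.m : ℝ) - h.m) * Real.log gr = 0 := by linarith
        rcases mul_eq_zero.1 this with h | h
        · linarith
        · exact absurd h hl.ne'
      exact_mod_cast this
    have hk : g.k = h.k := by
      rw [hm] at h2
      have hp := Real.pi_pos
      have : (g.k : ℝ) = h.k := by
        have : ((g.k : ℝ) - h.k) * (2 * π) = 0 := by linarith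
        rcases mul_eq_zero.1 this with h | h
        · linarith
        · exact absurd h (by positivity)
      exact_mod_cast this
    have hn : g.n = h.n := by
      rw [hm] at h0
      apply e1_injective
      linarith
    ext1
    · exact hn
    · exact hk
    · exact hm

lemma finite_lattice (R : ℝ) : Set.Finite {n : ℤ × ℤ | |e1 n| ≤ R ∧ |e2 n| ≤ R} := by
  apply Set.Finite.subset (s := (Set.Icc (-⌈3 * R⌉) ⌈3 * R⌉) ×ˢ (Set.Icc (-⌈3 * R⌉) ⌈3 * R⌉))
  · exact (Set.finite_Icc _ _).prod (Set.finite_Icc _ _)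
  · rintro ⟨a, b⟩ ⟨h1, h2⟩
    simp only [e1_apply, e2_apply] at h1 h2
    have h5 : gr - gc = √5 := Real.goldenRatio_sub_goldenConj
    have h52 : (2 : ℝ) ≤ √5 := by
      rw [show (2 : ℝ) = √4 by rw [show (4 : ℝ) = 2 ^ 2 by norm_num]; simp]
      exact Real.sqrt_le_sqrt (by norm_num)
    have hR : 0 ≤ R := (abs_nonneg _).trans h1
    have hb : |(b : ℝ)| ≤ R := by
      have : |(b : ℝ)| * √5 ≤ 2 * R := by
        have h3 : (b : ℝ) * √5 = ((a : ℝ) + b * gr) - (a + b * gc) := by rw [← h5]; ring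
        rw [← abs_of_pos (show (0 : ℝ) < √5 by positivity), ← abs_mul, h3]
        calc _ ≤ |(a : ℝ) + b * gr| + |(a : ℝ) + b * gc| := abs_sub _ _
          _ ≤ _ := by linarith
      nlinarith [abs_nonneg (b : ℝ)]
    have hg2 : gr < 2 := Real.goldenRatio_lt_two
    have ha : |(a : ℝ)| ≤ 3 * R := by
      have h3 : (a : ℝ) = ((a : ℝ) + b * gr) - b * gr := by ring
      calc |(a : ℝ)| = |((a : ℝ) + b * gr) - b * gr| := by rw [← h3]
        _ ≤ |(a : ℝ) + b * gr| + |b * gr| := abs_sub _ _
        _ ≤ R + R * 2 := by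
          rw [abs_mul, abs_of_pos gr_pos]
          gcongr
        _ = 3 * R := by ring
    have ha' := abs_le.1 ha
    have hb' := abs_le.1 (hb.trans (by linarith : R ≤ 3 * R))
    have hc := Int.le_ceil (3 * R)
    simp only [Set.mem_prod, Set.mem_Icc]
    refine ⟨⟨?_, ?_⟩, ⟨?_, ?_⟩⟩
    · have : (-(⌈3 * R⌉ : ℝ)) ≤ a := by linarith
      exact_mod_cast this
    · have : (a : ℝ) ≤ ⌈3 * R⌉ := by linarith
      exact_mod_cast this
    · have : (-(⌈3 * R⌉ : ℝ)) ≤ b := by linarith
      exact_mod_cast this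
    · have : (b : ℝ) ≤ ⌈3 * R⌉ := by linarith
      exact_mod_cast this

end Pool.Agent.Helper454.Engel
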