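import Pool.Agent.Helper454.Act

set_option autoImplicit false
set_option linter.unusedSectionVars false
open Set Real

namespace Pool.Agent.Helper454.Engel

/-- translations -/
def T (n : ℤ × ℤ) : Gam := ⟨n, 0, 0⟩
/-- angular translations -/
def rho (k : ℤ) : Gam := ⟨0, k, 0⟩
/-- the suspension generator -/
def tau' : Gam := ⟨0, 0, 1⟩

lemma T_comm (n : ℤ × ℤ) : T n = tau' * T (mulPhi n) * tau'⁻¹ * (T (mulPhi n))⁻¹ := by
  ext1
  · simp [T, tau', mulPhi_apply]
    ext
    · simp
    · simp; ring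
  · simp [T, tau']
  · simp [T, tau']

lemma T_add (n n' : ℤ × ℤ) : T (n + n') = T n * T n' := by
  ext1 <;> simp [T]

lemma tau_T (n : ℤ × ℤ) : tau' * T n = T (mulPhi n) * tau' := by
  ext1 <;> simp [T, tau']

lemma tau_rho (k : ℤ) : tau' * rho k = (rho k)⁻¹ * tau' := by
  ext1 <;> simp [rho, tau']

lemma rho_T (k : ℤ) (n : ℤ × ℤ) : rho k * T n = T n * rho k := by
  ext1 <;> simp [rho, T]

lemma T_rho (n : ℤ × ℤ) (k : ℤ) : (⟨n, k, 0⟩ : Gam) = T n * rho k := by
  ext1 <;> simp [rho, T]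

lemma sgn_inj {m k : ℤ} (h : Gam.sgn m k = 0) : k = 0 := by
  rw [Gam.sgn] at h
  rcases mul_eq_zero.1 h with h | h
  · exact absurd h (Units.ne_zero _)
  · exact h

lemma sgn_sgn (m k : ℤ) : Gam.sgn m (Gam.sgn m k) = k := by
  rw [Gam.sgn, Gam.sgn, ← mul_assoc]
  have : (((-1 : ℤˣ) ^ m : ℤˣ) : ℤ) * (((-1 : ℤˣ) ^ m : ℤˣ) : ℤ) = 1 := by
    rw [← Units.val_mul, Int.units_mul_self]; rfl
  rw [this, one_mul]

/-- data extracted from an injective endomorphism of the deck group -/
theorem hom_data (χ : Gam →* Gam) (hinj : Function.Injective χ) :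
    ∃ u : ℤ × ℤ, (χ tau').m = 1 ∧
      (∀ n, (χ (T n)).m = 0 ∧ (χ (T n)).k = 0 ∧ e1 (χ (T n)).n = e1 u * e1 n ∧
        e2 (χ (T n)).n = e2 u * e2 n) ∧
      (∀ k, (χ (rho k)).m = 0 ∧ (χ (rho k)).n = 0) := by
  have hm : ∀ n, (χ (T n)).m = 0 := by
    intro n
    rw [T_comm n]
    simp only [map_mul, map_inv, Gam.mul_m, Gam.inv_m]
    ring
  set B : ℤ × ℤ → ℤ × ℤ := fun n => (χ (T n)).n with hB
  set kk : ℤ × ℤ → ℤ := fun n => (χ (T n)).k with hkk
  have hBadd : ∀ n n', B (n + n') = B n + B n' := by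
    intro n n'
    simp only [hB, T_add, map_mul, Gam.mul_n, hm]
    simp
  have hkadd : ∀ n n', kk (n + n') = kk n + kk n' := by
    intro n n'
    simp only [hkk, T_add, map_mul, Gam.mul_k, hm]
    simp
  set m0 := (χ tau').m with hm0
  have hrel : ∀ n, χ tau' * χ (T n) = χ (T (mulPhi n)) * χ tau' := by
    intro n
    rw [← map_mul, tau_T, map_mul]
  have hBrel : ∀ n, (m0 • mulPhi : AddAut (ℤ × ℤ)) (B n) = B (mulPhi n) := by
    intro n
    have := congrArg Gam.n (hrel n)
    simp only [Gam.mul_n, hm] at this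
    simp at this
    rw [add_comm] at this
    exact add_right_cancel this
  have hkrel : ∀ n, Gam.sgn m0 (kk n) = kk (mulPhi n) := by
    intro n
    have := congrArg Gam.k (hrel n)
    simp only [Gam.mul_k, hm] at this
    simp at this
    rw [add_comm] at this
    exact add_right_cancel this
  have hk0 : ∀ n, kk n = 0 := by
    intro n
    have h1 : mulPhi (mulPhi n) = mulPhi n + n := by
      ext
      · simp [mulPhi_apply]; ring
      · simp [mulPhi_apply]; ring
    have h2 : kk (mulPhi (mulPhi n)) = kk n := by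
      rw [← hkrel, ← hkrel, sgn_sgn]
    rw [h1, hkadd] at h2
    have h3 : kk (mulPhi n) = 0 := by linarith
    rw [← hkrel] at h3
    exact sgn_inj h3
  set β := e1 (B (1, 0)) with hβ
  have hβ0 : β ≠ 0 := by
    intro h
    have h1 : B (1, 0) = 0 := by
      apply e1_injective; rw [← hβ, h, map_zero]
    have h2 : χ (T (1, 0)) = 1 := by
      ext1
      · exact h1
      · exact hk0 (1, 0)
      · exact hm (1, 0)
    have h3 : T (1, 0) = 1 := hinj (by rw [h2, map_one])
    have h4 := congrArg Gam.n h3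
    simp [T] at h4
  have hF1 : mulPhi (1, 0) = (0, 1) := by simp
  have hF2 : mulPhi (0, 1) = (1, 0) + (0, 1) := by simp
  have hr1 : e1 (B (0, 1)) = gr ^ m0 * β := by
    rw [← hF1, ← hBrel, e1_zpow]
  have hr2 : β + gr ^ m0 * β = gr ^ m0 * (gr ^ m0 * β) := by
    have : e1 (B (mulPhi (0, 1))) = gr ^ m0 * (gr ^ m0 * β) := by
      rw [← hBrel, e1_zpow, hr1]
    rw [hF2, hBadd, map_add, hr1] at this
    exact this
  have hrpos : 0 < gr ^ m0 := zpow_pos gr_pos _
  have hgr1 : 1 < gr := Real.one_lt_goldenRatio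
  have hr : gr ^ m0 = gr := by
    have h1 : (gr ^ m0 - gr) * (gr ^ m0 + gr - 1) = 0 := by
      have hsq := Real.goldenRatio_sq
      have h2 : β * ((gr ^ m0) ^ 2 - gr ^ m0 - 1) = 0 := by linear_combination (-1 : ℝ) * hr2
      rcases mul_eq_zero.1 h2 with h3 | h3
      · exact absurd h3 hβ0
      · linear_combination h3 - hsq
    rcases mul_eq_zero.1 h1 with h2 | h2
    · linarith
    · exfalso; linarith
  have hm1 : m0 = 1 := by
    have : gr ^ m0 = gr ^ (1 : ℤ) := by rw [hr, zpow_one]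
    exact zpow_right_injective₀ gr_pos hgr1.ne' this
  have hlin : ∀ n : ℤ × ℤ, B n = n.1 • B (1, 0) + n.2 • B (0, 1) := by
    intro n
    let BH : (ℤ × ℤ) →+ (ℤ × ℤ) :=
      { toFun := B, map_zero' := by
          have := hBadd 0 0
          simpa using this
        map_add' := hBadd }
    have : n = n.1 • ((1, 0) : ℤ × ℤ) + n.2 • ((0, 1) : ℤ × ℤ) := by
      ext <;> simp
    conv_lhs => rw [this]
    change BH _ = _
    rw [map_add, map_zsmul, map_zsmul]
    rfl
  have hs2 : e2 (B (0, 1)) = gc * e2 (B (1, 0)) := by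
    rw [← hF1, ← hBrel, e2_zpow, hm1, zpow_one]
  refine ⟨B (1, 0), hm1, fun n => ⟨hm n, hk0 n, ?_, ?_⟩, fun k => ?_⟩
  · change e1 (B n) = _
    rw [hlin n, map_add, map_zsmul, map_zsmul, hr1, hr, ← hβ, e1_apply n]
    simp only [zsmul_eq_mul]
    ring
  · change e2 (B n) = _
    rw [hlin n, map_add, map_zsmul, map_zsmul, hs2, e2_apply n]
    simp only [zsmul_eq_mul]
    ring
  · have h1 : (χ (rho k)).m = 0 := by
      have h2 : χ (rho k) * χ (T (1, 0)) = χ (T (1, 0)) * χ (rho k) := by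
        rw [← map_mul, rho_T, map_mul]
      have h3 := congrArg Gam.n h2
      simp only [Gam.mul_n, hm] at h3
      simp at h3
      rw [add_comm] at h3
      have h4 := congrArg e1 (add_right_cancel h3)
      rw [e1_zpow] at h4
      change gr ^ (χ (rho k)).m * β = β at h4
      have h5 : gr ^ (χ (rho k)).m = gr ^ (0 : ℤ) := by
        rw [zpow_zero]
        exact mul_right_cancel₀ hβ0 (by rw [h4, one_mul])
      exact zpow_right_injective₀ gr_pos hgr1.ne' h5
    refine ⟨h1, ?_⟩
    have h2 : χ tau' * χ (rho k) = (χ (rho k))⁻¹ * χ tau' := by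
      rw [← map_mul, tau_rho, map_mul, map_inv]
    have h3 := congrArg Gam.n h2
    simp only [Gam.mul_n, Gam.inv_n, Gam.inv_m, h1, ← hm0, hm1] at h3
    simp at h3
    have h4 : mulPhi (χ (rho k)).n = -(χ (rho k)).n := by
      have := h3
      rw [add_comm] at this
      exact add_right_cancel this
    have h5 := congrArg Prod.fst h4
    have h6 := congrArg Prod.snd h4
    simp at h5 h6
    ext
    · simp; linarith
    · simp; linarith

end Pool.Agent.Helper454.Engel
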