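import Pool.Agent.Helper454.Descend

set_option autoImplicit false
set_option linter.unusedSectionVars false
open scoped Manifold ContDiff Topology
open Set VectorField

namespace Pool.Agent.Helper454.QuotMfd

variable {E : Type} [NormedAddCommGroup E] [NormedSpace ℝ E] [CompleteSpace E]
variable {G : Type} [Group G] [MulAction G E]
variable {M : Type} [TopologicalSpace M] [ChartedSpace E M] [IsManifold 𝓘(ℝ, E) ∞ M]
variable {q : E → M}

lemma exists_lift (hq : IsQuotientCoveringMap q G) (f : M → M) (hf : Continuous f) :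
    ∃ F : E → E, Continuous F ∧ ∀ p, q (F p) = f (q p) := by
  obtain ⟨e₀, he₀⟩ := hq.surjective (f (q 0))
  obtain ⟨F, ⟨_, hF⟩, _⟩ := hq.isCoveringMap.existsUnique_continuousMap_lifts
    (⟨fun p => f (q p), hf.comp hq.continuous⟩ : C(E, M)) 0 e₀ he₀
  exact ⟨F, F.continuous, fun p => congrFun hF p⟩

lemma lift_smooth (hl : IsLocalDiffeomorph 𝓘(ℝ, E) 𝓘(ℝ, E) ∞ q)
    {f : M → M} (hf : ContMDiff 𝓘(ℝ, E) 𝓘(ℝ, E) ∞ f) {F : E → E} (hFc : Continuous F)
    (hF : ∀ p, q (F p) = f (q p)) : ContDiff ℝ ∞ F := by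
  rw [contDiff_iff_contDiffAt]
  intro p
  set ℓ := (hl (F p)).localInverse with hℓ
  have h1 : ContMDiffAt 𝓘(ℝ, E) 𝓘(ℝ, E) ∞ (fun u => ℓ (f (q u))) p := by
    have hℓs : ContMDiffAt 𝓘(ℝ, E) 𝓘(ℝ, E) ∞ ℓ (q (F p)) := (hl (F p)).localInverse_contMDiffAt
    rw [hF p] at hℓs
    exact hℓs.comp p ((hf (q p)).comp p (hl.contMDiff p))
  have h2 : F =ᶠ[𝓝 p] fun u => ℓ (f (q u)) := by
    have : ∀ᶠ u in 𝓝 p, F u ∈ ℓ.target :=
      hFc.continuousAt.preimage_mem_nhds (ℓ.open_target.mem_nhds (hl (F p)).localInverse_mem_target)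
    filter_upwards [this] with u hu
    rw [← hF u]
    exact ((hl (F p)).localInverse_left_inv hu).symm
  exact (contMDiffAt_iff_contDiffAt.1 h1).congr_of_eventuallyEq h2

/-- equivariance of the lift -/
lemma lift_equivariant (hq : IsQuotientCoveringMap q G)
    {f : M → M} {F : E → E} (hFc : Continuous F)
    (hF : ∀ p, q (F p) = f (q p)) (g : G) : ∃ g' : G, ∀ p, F (g • p) = g' • F p := by
  have h0 : q (F (g • 0)) = q (F 0) := by rw [hF, hF, hq.map_smul]
  obtain ⟨g', hg'⟩ := hq.apply_eq_iff_mem_orbit.mp h0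
  have hcs := hq.toContinuousConstSMul
  refine ⟨g', fun p => ?_⟩
  have h1 : (fun p => F (g • p)) = fun p => g' • F p := by
    apply hq.isCoveringMap.eq_of_comp_eq (hFc.comp (continuous_const_smul g))
      ((continuous_const_smul g').comp hFc) _ 0 hg'.symm
    ext p
    simp only [Function.comp]
    rw [hF, hq.map_smul, hq.map_smul, hF]
  exact congrFun h1 p

lemma lift_unique (hq : IsQuotientCoveringMap q G)
    {F F' : E → E} (hFc : Continuous F) (hFc' : Continuous F')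
    (hF : ∀ p, q (F p) = q (F' p)) : ∃ g : G, ∀ p, F p = g • F' p := by
  obtain ⟨g', hg'⟩ := hq.apply_eq_iff_mem_orbit.mp (hF 0)
  have hcs := hq.toContinuousConstSMul
  refine ⟨g', fun p => ?_⟩
  have h1 : F = fun p => g' • F' p := by
    apply hq.isCoveringMap.eq_of_comp_eq hFc ((continuous_const_smul g').comp hFc') _ 0 hg'.symm
    ext p
    simp only [Function.comp]
    rw [hF, hq.map_smul]
  exact congrFun h1 p

lemma lift_fderiv (hl : IsLocalDiffeomorph 𝓘(ℝ, E) 𝓘(ℝ, E) ∞ q)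
    {f : M → M} (hf : ContMDiff 𝓘(ℝ, E) 𝓘(ℝ, E) ∞ f) {F : E → E} (hFc : Continuous F)
    (hF : ∀ p, q (F p) = f (q p)) (p v : E) :
    mfderiv 𝓘(ℝ, E) 𝓘(ℝ, E) q (F p) (fderiv ℝ F p v) =
      mfderiv 𝓘(ℝ, E) 𝓘(ℝ, E) f (q p) (mfderiv 𝓘(ℝ, E) 𝓘(ℝ, E) q p v) := by
  have hs := lift_smooth hl hf hFc hF
  have h1 : q ∘ F = f ∘ q := by ext u; exact hF u
  have hd : MDifferentiableAt 𝓘(ℝ, E) 𝓘(ℝ, E) F p :=
    (hs.differentiable (by simp) p).mdifferentiableAt
  have h2 := mfderiv_comp p (mdiffAt hl (F p)) hd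
  have h3 := mfderiv_comp p (hf.mdifferentiable (by simp) (q p)) (mdiffAt hl p)
  rw [h1, h3] at h2
  rw [mfderiv_eq_fderiv] at h2
  have := congrArg (fun L : E →L[ℝ] E => L v) h2
  exact this.symm

end Pool.Agent.Helper454.QuotMfd
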