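import Pool.Agent.Helper454.Act
import Pool.Agent.Helper454.Lift

set_option autoImplicit false
set_option linter.unusedSectionVars false
open scoped Manifold ContDiff Topology
open Set Real

namespace Pool.Agent.Helper454.Engel

lemma abs_coord_le (p : E4) (i : Fin 4) : |p i| ≤ ‖p‖ := by
  have := PiLp.norm_apply_le p i
  simpa using this

lemma int_mem_Icc {k : ℤ} {R : ℝ} (h : |(k : ℝ)| ≤ R) : k ∈ Set.Icc (-⌈R⌉) ⌈R⌉ := by
  have h' := abs_le.1 h
  have hc := Int.le_ceil R
  constructor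
  · have : (-(⌈R⌉ : ℝ)) ≤ k := by linarith
    exact_mod_cast this
  · have : (k : ℝ) ≤ ⌈R⌉ := by linarith
    exact_mod_cast this

instance : ProperlyDiscontinuousSMul Gam E4 where
  finite_disjoint_inter_image := by
    intro K L hK hL
    obtain ⟨C1, hC1⟩ := hK.isBounded.exists_norm_le
    obtain ⟨C2, hC2⟩ := hL.isBounded.exists_norm_le
    set C := max C1 C2 with hC
    have hKC : ∀ p ∈ K, ∀ i, |p i| ≤ C := fun p hp i =>
      (abs_coord_le p i).trans ((hC1 p hp).trans (le_max_left _ _))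
    have hLC : ∀ p ∈ L, ∀ i, |p i| ≤ C := fun p hp i =>
      (abs_coord_le p i).trans ((hC2 p hp).trans (le_max_right _ _))
    have hlog := log_gr_pos
    apply Set.Finite.subset (s := ⋃ m ∈ Set.Icc (-⌈2 * C / Real.log gr⌉) ⌈2 * C / Real.log gr⌉,
      (fun x : (ℤ × ℤ) × ℤ => (⟨x.1, x.2, m⟩ : Gam)) ''
        ({n : ℤ × ℤ | |e1 n| ≤ C + |gr ^ m| * C + |gc ^ m| * C ∧
          |e2 n| ≤ C + |gr ^ m| * C + |gc ^ m| * C} ×ˢ Set.Icc (-⌈C⌉) ⌈C⌉))
    · apply (Set.finite_Icc _ _).biUnion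
      intro m _
      exact ((finite_lattice _).prod (Set.finite_Icc _ _)).image _
    · rintro g ⟨p', ⟨p, hp, hgp⟩, hp'⟩
      have hgp' : g • p = p' := hgp
      have h0 := smul_apply_0 g p
      have h1 := smul_apply_1 g p
      have h2 := smul_apply_2 g p
      have h3 := smul_apply_3 g p
      rw [hgp'] at h0 h1 h2 h3
      have k0 := hKC p hp 0
      have k1 := hKC p hp 1
      have k2 := hKC p hp 2
      have k3 := hKC p hp 3
      have l0 := hLC p' hp' 0
      have l1 := hLC p' hp' 1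
      have l2 := hLC p' hp' 2
      have l3 := hLC p' hp' 3
      have hC0 : 0 ≤ C := (abs_nonneg _).trans k0
      have hm : |(g.m : ℝ)| ≤ 2 * C / Real.log gr := by
        rw [le_div_iff₀ hlog]
        calc |(g.m : ℝ)| * Real.log gr = |g.m * Real.log gr| := by
              rw [abs_mul, abs_of_pos hlog]
          _ = |p' 3 - p 3| := by rw [h3]; ring_nf
          _ ≤ |p' 3| + |p 3| := abs_sub _ _
          _ ≤ 2 * C := by linarith
      have hk : |(g.k : ℝ)| ≤ C := by
        have : 2 * π * |(g.k : ℝ)| ≤ 2 * C := by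
          calc 2 * π * |(g.k : ℝ)| = |2 * π * g.k| := by
                rw [abs_mul, abs_of_pos (by positivity : (0 : ℝ) < 2 * π)]
            _ = |p' 2 - (-1 : ℝ) ^ g.m * p 2| := by rw [h2]; ring_nf
            _ ≤ |p' 2| + |(-1 : ℝ) ^ g.m * p 2| := abs_sub _ _
            _ = |p' 2| + |p 2| := by
              rw [abs_mul, abs_zpow]; simp
            _ ≤ 2 * C := by linarith
        have hpi : 1 ≤ π := by linarith [Real.pi_gt_three]
        nlinarith [abs_nonneg (g.k : ℝ)]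
      have hn1 : |e1 g.n| ≤ C + |gr ^ g.m| * C + |gc ^ g.m| * C := by
        calc |e1 g.n| = |p' 0 - gr ^ g.m * p 0| := by rw [h0]; ring_nf
          _ ≤ |p' 0| + |gr ^ g.m * p 0| := abs_sub _ _
          _ = |p' 0| + |gr ^ g.m| * |p 0| := by rw [abs_mul]
          _ ≤ C + |gr ^ g.m| * C := by gcongr
          _ ≤ _ := by
            have : 0 ≤ |gc ^ g.m| * C := by positivity
            linarith
      have hn2 : |e2 g.n| ≤ C + |gr ^ g.m| * C + |gc ^ g.m| * C := by
        calc |e2 g.n| = |p' 1 - gc ^ g.m * p 1| := by rw [h1]; ring_nf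
          _ ≤ |p' 1| + |gc ^ g.m * p 1| := abs_sub _ _
          _ = |p' 1| + |gc ^ g.m| * |p 1| := by rw [abs_mul]
          _ ≤ C + |gc ^ g.m| * C := by gcongr
          _ ≤ _ := by
            have : 0 ≤ |gr ^ g.m| * C := by positivity
            linarith
      rw [Set.mem_iUnion₂]
      refine ⟨g.m, int_mem_Icc hm, (g.n, g.k), ⟨⟨hn1, hn2⟩, int_mem_Icc hk⟩, ?_⟩
      ext1 <;> rfl

/-- The closed four-manifold: the quotient of the model space by the deck group. -/
noncomputable def Mf : Type := MulAction.orbitRel.Quotient Gam E4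

instance : TopologicalSpace Mf := inferInstanceAs (TopologicalSpace (MulAction.orbitRel.Quotient Gam E4))

/-- the projection -/
noncomputable def pr : E4 → Mf := Quotient.mk (MulAction.orbitRel Gam E4)

lemma pr_cov : IsQuotientCoveringMap pr Gam :=
  isQuotientCoveringMap_quotientMk_of_properlyDiscontinuousSMul

instance : T2Space Mf :=
  inferInstanceAs (T2Space (Quotient (MulAction.orbitRel Gam E4)))

noncomputable instance : ChartedSpace E4 Mf := QuotMfd.cs pr_cov

instance : IsManifold (𝓡 4) ∞ Mf := QuotMfd.isManifold pr_cov contDiff_smul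

lemma pr_diffeo : IsLocalDiffeomorph (𝓡 4) (𝓡 4) ∞ pr :=
  QuotMfd.isLocalDiffeomorph pr_cov contDiff_smul

instance : Nonempty Mf := ⟨pr 0⟩

lemma fract_mul {x c : ℝ} (hc : 0 < c) : x + (-⌊x / c⌋ : ℤ) * c ∈ Icc 0 c := by
  have h1 := Int.floor_le (x / c)
  have h2 := Int.lt_floor_add_one (x / c)
  push_cast
  constructor
  · have : ⌊x / c⌋ * c ≤ x := by
      rw [← le_div_iff₀ hc]; exact h1
    linarith
  · have : x < (⌊x / c⌋ + 1) * c := by
      rw [← div_lt_iff₀ hc]; exact h2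
    linarith

/-- every point can be moved to a compact fundamental box -/
lemma exists_box (p : E4) : ∃ g : Gam, ∃ a ∈ Icc (0 : ℝ) 1, ∃ b ∈ Icc (0 : ℝ) 1,
    ∃ c ∈ Icc (0 : ℝ) (2 * π), ∃ t ∈ Icc (0 : ℝ) (Real.log gr),
    g • p = !₂[a + b * gr, a + b * gc, c, t] := by
  have hlog := log_gr_pos
  set g1 : Gam := ⟨0, 0, -⌊p 3 / Real.log gr⌋⟩ with hg1
  set p1 := g1 • p with hp1
  have h5 : gr - gc = √5 := Real.goldenRatio_sub_goldenConj
  have h5' : √5 ≠ 0 := by positivity
  set β := (p1 0 - p1 1) / √5 with hβ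
  set α := p1 0 - β * gr with hα
  set g2 : Gam := ⟨(-⌊α⌋, -⌊β⌋), -⌊p1 2 / (2 * π)⌋, 0⟩ with hg2
  refine ⟨g2 * g1, α - ⌊α⌋, ⟨by linarith [Int.floor_le α], by linarith [Int.lt_floor_add_one α]⟩,
    β - ⌊β⌋, ⟨by linarith [Int.floor_le β], by linarith [Int.lt_floor_add_one β]⟩,
    p1 2 + (-⌊p1 2 / (2 * π)⌋ : ℤ) * (2 * π), fract_mul (by positivity),
    p 3 + (-⌊p 3 / Real.log gr⌋ : ℤ) * Real.log gr, fract_mul hlog, ?_⟩
  rw [mul_smul, ← hp1]
  have hβ2 : β * √5 = p1 0 - p1 1 := by rw [hβ]; field_simp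
  have h13 : p1 3 = p 3 + (-⌊p 3 / Real.log gr⌋ : ℤ) * Real.log gr := by
    rw [hp1, smul_apply_3, hg1]
  apply E4_ext
  · rw [smul_apply_0, hg2, e1_apply]
    simp [-Int.self_sub_floor]
    linear_combination (-1 : ℝ) * hα
  · rw [smul_apply_1, hg2, e2_apply]
    simp [-Int.self_sub_floor]
    rw [← h5] at hβ2
    linear_combination (-1 : ℝ) * hα + hβ2
  · rw [smul_apply_2, hg2]
    simp
    ring
  · rw [smul_apply_3, hg2]
    simp [h13]

instance : CompactSpace Mf := by
  constructor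
  set K : Set (ℝ × ℝ × ℝ × ℝ) := Icc 0 1 ×ˢ Icc 0 1 ×ˢ Icc 0 (2 * π) ×ˢ Icc 0 (Real.log gr) with hK
  set φ : ℝ × ℝ × ℝ × ℝ → E4 := fun x =>
    !₂[x.1 + x.2.1 * gr, x.1 + x.2.1 * gc, x.2.2.1, x.2.2.2] with hφ
  have hφc : Continuous φ := by
    rw [hφ]
    apply Continuous.comp (PiLp.continuous_toLp 2 _)
    refine continuous_pi fun i => ?_
    fin_cases i <;> simp <;> fun_prop
  have hKc : IsCompact K := isCompact_Icc.prod (isCompact_Icc.prod (isCompact_Icc.prod isCompact_Icc))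
  have himg : (univ : Set Mf) = pr '' (φ '' K) := by
    apply Subset.antisymm
    · intro y _
      obtain ⟨p, rfl⟩ := pr_cov.surjective y
      obtain ⟨g, a, ha, b, hb, c, hc, t, ht, hg⟩ := exists_box p
      refine ⟨g • p, ⟨(a, b, c, t), ⟨ha, hb, hc, ht⟩, hg.symm⟩, pr_cov.map_smul g⟩
    · exact subset_univ _
  rw [himg]
  exact (hKc.image hφc).image pr_cov.continuous

end Pool.Agent.Helper454.Engel
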