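import Pool.Agent.Helper454.Pres
import Pool.Agent.Helper454.Mfd

set_option autoImplicit false
set_option linter.unusedSectionVars false
open scoped Manifold ContDiff Topology
open Set Real VectorField

namespace Pool.Agent.Helper454.Engel

/-- angle function along the flow of `W` -/
noncomputable def flowAngle (θ s : ℝ) : ℝ :=
  if cos θ = 0 then θ else θ + (arctan (tan θ * exp (-2 * s)) - arctan (tan θ))

lemma flowAngle_zero (θ : ℝ) : flowAngle θ 0 = θ := by
  unfold flowAngle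
  split_ifs <;> simp

lemma sin_two_arctan (w : ℝ) : sin (2 * arctan w) = 2 * w / (1 + w ^ 2) := by
  rw [sin_two_mul, sin_arctan, cos_arctan]
  have h : 0 < 1 + w ^ 2 := by positivity
  have h2 : √(1 + w ^ 2) * √(1 + w ^ 2) = 1 + w ^ 2 := Real.mul_self_sqrt h.le
  have h3 : √(1 + w ^ 2) ≠ 0 := by positivity
  field_simp
  rw [pow_two (√(1 + w ^ 2)), h2]

lemma flowAngle_deriv (θ s : ℝ) : HasDerivAt (flowAngle θ) (-sin (2 * flowAngle θ s)) s := by
  by_cases h : cos θ = 0
  · have h1 : flowAngle θ = fun _ => θ := by ext s; simp [flowAngle, h]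
    rw [h1]
    have : sin (2 * θ) = 0 := by rw [sin_two_mul, h]; ring
    rw [this, neg_zero]
    exact hasDerivAt_const _ _
  · have h1 : flowAngle θ = fun s => θ + (arctan (tan θ * exp (-2 * s)) - arctan (tan θ)) := by
      ext s; simp [flowAngle, h]
    have hlin : HasDerivAt (fun s : ℝ => -2 * s) (-2) s := by
      simpa using (hasDerivAt_id s).const_mul (-2)
    have hin : HasDerivAt (fun s => tan θ * exp (-2 * s)) (tan θ * (exp (-2 * s) * (-2))) s :=
      (hlin.exp).const_mul _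
    have hd := ((hin.arctan).sub_const (arctan (tan θ))).const_add θ
    rw [h1]
    refine HasDerivAt.congr_deriv hd ?_
    -- sin of twice the angle
    set w := tan θ * exp (-2 * s) with hw
    set δ := θ - arctan (tan θ) with hδ
    have hsinδ : sin δ = 0 := by
      rw [hδ, sin_sub, sin_arctan, cos_arctan, tan_eq_sin_div_cos]
      field_simp
      ring
    have hcos2 : cos (2 * δ) = 1 := by
      rw [cos_two_mul]
      have := sin_sq_add_cos_sq δ
      rw [hsinδ] at this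
      linarith
    have hsin2 : sin (2 * δ) = 0 := by rw [sin_two_mul, hsinδ]; ring
    have h2 : sin (2 * (θ + (arctan w - arctan (tan θ)))) = sin (2 * arctan w) := by
      rw [show 2 * (θ + (arctan w - arctan (tan θ))) = 2 * arctan w + 2 * δ by rw [hδ]; ring,
        sin_add, hcos2, hsin2]
      ring
    rw [h2, sin_two_arctan]
    have h3 : 0 < 1 + w ^ 2 := by positivity
    rw [show tan θ * (exp (-2 * s) * -2) = -2 * w by rw [hw]; ring]
    field_simp

/-- the integral curve of `W` through `p` -/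
noncomputable def curve (p : E4) (s : ℝ) : E4 :=
  p + (flowAngle (p 2) s - p 2) • EuclideanSpace.single 2 (1 : ℝ) +
    s • EuclideanSpace.single 3 (1 : ℝ)

lemma curve_0 (p : E4) (s : ℝ) : curve p s 0 = p 0 := by simp [curve]
lemma curve_1 (p : E4) (s : ℝ) : curve p s 1 = p 1 := by simp [curve]
lemma curve_2 (p : E4) (s : ℝ) : curve p s 2 = flowAngle (p 2) s := by simp [curve]
lemma curve_3 (p : E4) (s : ℝ) : curve p s 3 = p 3 + s := by simp [curve]
lemma curve_zero (p : E4) : curve p 0 = p := by simp [curve, flowAngle_zero]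

lemma curve_deriv (p : E4) (s : ℝ) : HasDerivAt (curve p) (fW (curve p s)) s := by
  have h1 := (((flowAngle_deriv (p 2) s).sub_const (p 2)).smul_const
    (EuclideanSpace.single (2 : Fin 4) (1 : ℝ))).const_add p
  have h2 := (hasDerivAt_id s).smul_const (EuclideanSpace.single (3 : Fin 4) (1 : ℝ))
  have h3 := h1.add h2
  refine HasDerivAt.congr_deriv h3 ?_
  apply E4_ext
  · rw [fW_0]; simp
  · rw [fW_1]; simp
  · rw [fW_2, curve_2]; simp
  · rw [fW_3]; simp

lemma const_on_curve {g : E4 → ℝ} (hg : Differentiable ℝ g)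
    (hW : ∀ p, fderiv ℝ g p (fW p) = 0) (p : E4) (s : ℝ) : g (curve p s) = g p := by
  have h1 : ∀ s, HasDerivAt (fun s => g (curve p s)) 0 s := by
    intro s
    have := (hg (curve p s)).hasFDerivAt.comp_hasDerivAt s (curve_deriv p s)
    rw [hW] at this
    exact this
  have h2 := is_const_of_deriv_eq_zero (fun s => (h1 s).differentiableAt)
    (fun s => (h1 s).deriv) s 0
  simp only [curve_zero] at h2
  exact h2

lemma exists_box0 (p : E4) (hp : p 3 = 0) : ∃ n : ℤ × ℤ, ∃ k : ℤ, ∃ a ∈ Icc (0 : ℝ) 1,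
    ∃ b ∈ Icc (0 : ℝ) 1, ∃ c ∈ Icc (0 : ℝ) (2 * π),
    (⟨n, k, 0⟩ : Gam) • p = !₂[a + b * gr, a + b * gc, c, 0] := by
  have h5 : gr - gc = √5 := Real.goldenRatio_sub_goldenConj
  have h5' : √5 ≠ 0 := by positivity
  set β := (p 0 - p 1) / √5 with hβ
  set α := p 0 - β * gr with hα
  refine ⟨(-⌊α⌋, -⌊β⌋), -⌊p 2 / (2 * π)⌋, α - ⌊α⌋,
    ⟨by linarith [Int.floor_le α], by linarith [Int.lt_floor_add_one α]⟩,
    β - ⌊β⌋, ⟨by linarith [Int.floor_le β], by linarith [Int.lt_floor_add_one β]⟩,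
    p 2 + (-⌊p 2 / (2 * π)⌋ : ℤ) * (2 * π), fract_mul (by positivity), ?_⟩
  have hβ2 : β * √5 = p 0 - p 1 := by rw [hβ]; field_simp
  apply E4_ext
  · rw [smul_apply_0, e1_apply]
    simp [-Int.self_sub_floor]
    linear_combination (-1 : ℝ) * hα
  · rw [smul_apply_1, e2_apply]
    simp [-Int.self_sub_floor]
    rw [← h5] at hβ2
    linear_combination (-1 : ℝ) * hα + hβ2
  · rw [smul_apply_2]
    simp
    ring
  · rw [smul_apply_3]
    simp [hp]

lemma bounded_of_inv {g : E4 → ℝ} (hg : Differentiable ℝ g)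
    (hW : ∀ p, fderiv ℝ g p (fW p) = 0)
    (hinv : ∀ (n : ℤ × ℤ) (k : ℤ) (p : E4), g ((⟨n, k, 0⟩ : Gam) • p) = g p) :
    ∃ C, ∀ p, |g p| ≤ C := by
  set K : Set (ℝ × ℝ × ℝ) := Icc 0 1 ×ˢ Icc 0 1 ×ˢ Icc 0 (2 * π) with hK
  set φ : ℝ × ℝ × ℝ → E4 := fun x =>
    !₂[x.1 + x.2.1 * gr, x.1 + x.2.1 * gc, x.2.2, 0] with hφ
  have hφc : Continuous φ := by
    rw [hφ]
    apply Continuous.comp (PiLp.continuous_toLp 2 _)
    refine continuous_pi fun i => ?_
    fin_cases i <;> simp <;> fun_prop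
  have hKc : IsCompact K := isCompact_Icc.prod (isCompact_Icc.prod isCompact_Icc)
  obtain ⟨C, hC⟩ := (hKc.image hφc).exists_bound_of_continuousOn hg.continuous.continuousOn
  refine ⟨C, fun p => ?_⟩
  rw [← const_on_curve hg hW p (-p 3)]
  obtain ⟨n, k, a, ha, b, hb, c, hc, hbox⟩ := exists_box0 (curve p (-p 3)) (by rw [curve_3]; ring)
  rw [← hinv n k, hbox]
  exact hC _ ⟨(a, b, c), ⟨ha, hb, hc⟩, rfl⟩

/-- the suspension generator -/
def tau : Gam := ⟨0, 0, 1⟩

lemma zero_of_scaling {g : E4 → ℝ} (hg : Differentiable ℝ g)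
    (hW : ∀ p, fderiv ℝ g p (fW p) = 0)
    (hinv : ∀ (n : ℤ × ℤ) (k : ℤ) (p : E4), g ((⟨n, k, 0⟩ : Gam) • p) = g p)
    {r : ℝ} (hr : |r| ≠ 1) (hτ : ∀ p, g (tau • p) = r * g p) : ∀ p, g p = 0 := by
  obtain ⟨C, hC⟩ := bounded_of_inv hg hW hinv
  have hpow : ∀ (j : ℕ) (p : E4), g (tau ^ j • p) = r ^ j * g p := by
    intro j
    induction j with
    | zero => intro p; simp
    | succ j ih => intro p; rw [pow_succ', mul_smul, hτ, ih]; ring
  intro p
  by_contra hne
  rcases lt_or_gt_of_ne hr with h | h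
  · -- contraction
    have h1 : ∀ j : ℕ, |g p| ≤ |r| ^ j * C := by
      intro j
      have h2 := hpow j ((tau ^ j)⁻¹ • p)
      rw [smul_inv_smul] at h2
      rw [h2, abs_mul, abs_pow]
      gcongr
      exact hC _
    have h3 : Filter.Tendsto (fun j : ℕ => |r| ^ j * C) Filter.atTop (𝓝 (0 * C)) :=
      (tendsto_pow_atTop_nhds_zero_of_lt_one (abs_nonneg r) h).mul_const C
    rw [zero_mul] at h3
    have h4 := ge_of_tendsto' h3 h1
    exact hne (abs_nonpos_iff.1 h4)
  · have hgp : 0 < |g p| := abs_pos.2 hne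
    obtain ⟨j, hj⟩ := pow_unbounded_of_one_lt (C / |g p|) h
    have h2 := hC (tau ^ j • p)
    rw [hpow, abs_mul, abs_pow] at h2
    rw [div_lt_iff₀ hgp] at hj
    linarith

end Pool.Agent.Helper454.Engel
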