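import Pool.Agent.Helper454.Alg

set_option autoImplicit false
set_option linter.unusedSectionVars false
open Set Real

namespace Pool.Agent.Helper454.Engel

lemma gr_gc : gr * gc = -1 := Real.goldenRatio_mul_goldenConj
lemma gr_add_gc : gr + gc = 1 := Real.goldenRatio_add_goldenConj
lemma one_lt_gr : 1 < gr := Real.one_lt_goldenRatio

lemma norm_eq (u : ℤ × ℤ) : e1 u * e2 u = ((u.1 ^ 2 + u.1 * u.2 - u.2 ^ 2 : ℤ) : ℝ) := by
  rw [e1_apply, e2_apply]
  push_cast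
  linear_combination ((u.2 : ℝ) ^ 2) * gr_gc + ((u.1 : ℝ) * u.2) * gr_add_gc

lemma small_unit (w : ℤ × ℤ) (h1 : 1 ≤ |e1 w|) (h2 : |e1 w| < gr) (h3 : |e2 w| ≤ 1) :
    w = (1, 0) ∨ w = (-1, 0) := by
  obtain ⟨a, b⟩ := w
  rw [e1_apply] at h1 h2
  rw [e2_apply] at h3
  simp only at h1 h2 h3
  have hg2 : gr < 2 := Real.goldenRatio_lt_two
  have hg1 := one_lt_gr
  have hs := gr_add_gc
  have h2' := abs_lt.1 h2
  have h3' := abs_le.1 h3
  have hgc : gc < 0 := Real.goldenConj_neg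
  have h5 : gr - gc = √5 := Real.goldenRatio_sub_goldenConj
  have h52 : (2 : ℝ) < √5 := by
    rw [Real.lt_sqrt (by norm_num)]; norm_num
  have hb1 : (b : ℝ) * √5 < gr + 1 := by
    rw [← h5]; nlinarith
  have hb2 : -(gr + 1) < (b : ℝ) * √5 := by
    rw [← h5]; nlinarith
  have hblt : b < 2 := by
    by_contra h
    have : (2 : ℝ) ≤ b := by exact_mod_cast (not_lt.1 h)
    nlinarith
  have hbgt : -2 < b := by
    by_contra h
    have : (b : ℝ) ≤ -2 := by exact_mod_cast (not_lt.1 h)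
    nlinarith
  have hb : b = -1 ∨ b = 0 ∨ b = 1 := by omega
  rcases hb with rfl | rfl | rfl
  · exfalso
    push_cast at *
    have ha : a ≤ 0 := by
      by_contra h
      have : (1 : ℝ) ≤ a := by exact_mod_cast (not_le.1 h)
      linarith
    have ha' : (a : ℝ) ≤ 0 := by exact_mod_cast ha
    linarith
  · push_cast at *
    simp only [zero_mul, add_zero] at *
    have ha1 : a < 2 := by
      have : (a : ℝ) < 2 := by linarith
      exact_mod_cast this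
    have ha2 : -2 < a := by
      have : (-2 : ℝ) < a := by linarith
      exact_mod_cast this
    have ha : a = -1 ∨ a = 0 ∨ a = 1 := by omega
    rcases ha with rfl | rfl | rfl
    · right; rfl
    · exfalso; norm_num at h1
    · left; rfl
  · exfalso
    push_cast at *
    have ha : 0 ≤ a := by
      by_contra h
      have : (a : ℝ) ≤ -1 := by
        have : a ≤ -1 := by omega
        exact_mod_cast this
      linarith
    have ha' : (0 : ℝ) ≤ a := by exact_mod_cast ha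
    linarith

lemma unit_class (u : ℤ × ℤ) (h : |e1 u * e2 u| = 1) :
    ∃ k : ℤ, (e1 u = gr ^ k ∧ e2 u = gc ^ k) ∨ (e1 u = -gr ^ k ∧ e2 u = -gc ^ k) := by
  have hne : e1 u ≠ 0 := by
    intro h0; rw [h0] at h; simp at h
  obtain ⟨k, hk1, hk2⟩ := exists_mem_Ico_zpow (abs_pos.2 hne) one_lt_gr
  set w := ((-k) • mulPhi : AddAut (ℤ × ℤ)) u with hw
  have he1 : e1 w = gr ^ (-k) * e1 u := e1_zpow _ _
  have he2 : e2 w = gc ^ (-k) * e2 u := e2_zpow _ _
  have hpos : 0 < gr ^ (-k) := zpow_pos gr_pos _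
  have h1 : 1 ≤ |e1 w| := by
    rw [he1, abs_mul, abs_of_pos hpos]
    calc (1 : ℝ) = gr ^ (-k) * gr ^ k := by rw [← zpow_add₀ gr_ne]; simp
      _ ≤ gr ^ (-k) * |e1 u| := by gcongr
  have h2 : |e1 w| < gr := by
    rw [he1, abs_mul, abs_of_pos hpos]
    calc gr ^ (-k) * |e1 u| < gr ^ (-k) * gr ^ (k + 1) := by gcongr
      _ = gr := by rw [← zpow_add₀ gr_ne]; simp
  have h12 : |e1 w * e2 w| = 1 := by
    rw [he1, he2, show gr ^ (-k) * e1 u * (gc ^ (-k) * e2 u) = (gr * gc) ^ (-k) * (e1 u * e2 u) by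
      rw [mul_zpow]; ring, abs_mul, h, gr_gc, abs_zpow]
    simp
  have h3 : |e2 w| ≤ 1 := by
    rw [abs_mul] at h12
    nlinarith [abs_nonneg (e2 w)]
  refine ⟨k, ?_⟩
  have hu1 : e1 u = gr ^ k * e1 w := by
    rw [he1, ← mul_assoc, ← zpow_add₀ gr_ne]; simp
  have hu2 : e2 u = gc ^ k * e2 w := by
    rw [he2, ← mul_assoc, ← zpow_add₀ gc_ne]; simp
  rcases small_unit w h1 h2 h3 with h | h
  · left
    rw [hu1, hu2, h, e1_apply, e2_apply]
    simp
  · right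
    rw [hu1, hu2, h, e1_apply, e2_apply]
    simp

/-- an injective endomorphism of the deck group with an inverse up to inner automorphisms
multiplies the lattice by a unit -/
theorem hom_unit (χ ψ : Gam →* Gam) (hχ : Function.Injective χ) (hψ : Function.Injective ψ)
    (g0 : Gam) (h : ∀ g, ψ (χ g) = g0 * g * g0⁻¹) :
    ∃ k : ℤ, ∃ ε : ℝ, (ε = 1 ∨ ε = -1) ∧ (χ tau').m = 1 ∧
      (∀ n, (χ (T n)).m = 0 ∧ (χ (T n)).k = 0 ∧ e1 (χ (T n)).n = ε * gr ^ k * e1 n ∧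
        e2 (χ (T n)).n = ε * gc ^ k * e2 n) ∧
      (∀ k, (χ (rho k)).m = 0 ∧ (χ (rho k)).n = 0) := by
  obtain ⟨u, hu1, hu2, hu3⟩ := hom_data χ hχ
  obtain ⟨v, hv1, hv2, hv3⟩ := hom_data ψ hψ
  have hTn : ∀ n, χ (T n) = T (χ (T n)).n := by
    intro n
    ext1
    · rfl
    · exact (hu2 n).2.1
    · exact (hu2 n).1
  have key := h (T (1, 0))
  rw [hTn] at key
  have hn := congrArg Gam.n key
  have hconj : (g0 * T (1, 0) * g0⁻¹).n = (g0.m • mulPhi : AddAut (ℤ × ℤ)) (1, 0) := by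
    simp [T]
  rw [hconj] at hn
  have k1 := congrArg e1 hn
  have k2 := congrArg e2 hn
  rw [(hv2 _).2.2.1, (hu2 _).2.2.1, e1_zpow] at k1
  rw [(hv2 _).2.2.2, (hu2 _).2.2.2, e2_zpow] at k2
  have e10 : e1 (1, 0) = 1 := by rw [e1_apply]; simp
  have e20 : e2 (1, 0) = 1 := by rw [e2_apply]; simp
  rw [e10] at k1
  rw [e20] at k2
  simp only [mul_one] at k1 k2
  have hN : |e1 u * e2 u| * |e1 v * e2 v| = 1 := by
    rw [← abs_mul, show e1 u * e2 u * (e1 v * e2 v) = (e1 v * e1 u) * (e2 v * e2 u) by ring,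
      k1, k2, ← mul_zpow, gr_gc, abs_zpow]
    simp
  have hunit : |e1 u * e2 u| = 1 := by
    rw [norm_eq, norm_eq] at hN
    rw [norm_eq]
    have hN' : |u.1 ^ 2 + u.1 * u.2 - u.2 ^ 2| * |v.1 ^ 2 + v.1 * v.2 - v.2 ^ 2| = 1 := by
      have : ((|u.1 ^ 2 + u.1 * u.2 - u.2 ^ 2| * |v.1 ^ 2 + v.1 * v.2 - v.2 ^ 2| : ℤ) : ℝ) =
        ((1 : ℤ) : ℝ) := by
        rw [Int.cast_mul, Int.cast_abs, Int.cast_abs, hN]; simp
      exact_mod_cast this
    have := Int.eq_one_or_neg_one_of_mul_eq_one hN'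
    have h0 := abs_nonneg (u.1 ^ 2 + u.1 * u.2 - u.2 ^ 2)
    have h1 : |u.1 ^ 2 + u.1 * u.2 - u.2 ^ 2| = 1 := by omega
    rw [← Int.cast_abs, h1]; simp
  obtain ⟨k, hk⟩ := unit_class u hunit
  rcases hk with ⟨ha, hb⟩ | ⟨ha, hb⟩
  · refine ⟨k, 1, Or.inl rfl, hu1, fun n => ⟨(hu2 n).1, (hu2 n).2.1, ?_, ?_⟩, hu3⟩
    · rw [(hu2 n).2.2.1, ha]; ring
    · rw [(hu2 n).2.2.2, hb]; ring
  · refine ⟨k, -1, Or.inr rfl, hu1, fun n => ⟨(hu2 n).1, (hu2 n).2.1, ?_, ?_⟩, hu3⟩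
    · rw [(hu2 n).2.2.1, ha]; ring
    · rw [(hu2 n).2.2.2, hb]; ring

end Pool.Agent.Helper454.Engel
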