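import Pool.Agent.Helper454.Dist
import Pool.Agent.Helper454.Bdd
import Pool.Agent.Helper454.Unit

set_option autoImplicit false
set_option linter.unusedSectionVars false
open scoped Manifold ContDiff Topology
open Set Real VectorField

namespace Pool.Agent.Helper454.Engel

lemma gam_cancel {g h : Gam} {p : E4} (hgh : g • p = h • p) : g = h :=
  IsCancelSMul.right_cancel g h p hgh

lemma exists_hom {f : Mf → Mf} {F : E4 → E4} (hFc : Continuous F)
    (hF : ∀ p, pr (F p) = f (pr p)) : ∃ χ : Gam →* Gam, ∀ g p, F (g • p) = χ g • F p := by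
  choose c hc using fun g => QuotMfd.lift_equivariant pr_cov hFc hF g
  refine ⟨MonoidHom.mk' c (fun g h => ?_), hc⟩
  apply gam_cancel (p := F 0)
  rw [← hc, mul_smul, hc, hc, mul_smul]

lemma hom_inj {F : E4 → E4} (hFi : Function.Injective F) {χ : Gam →* Gam}
    (hχ : ∀ g p, F (g • p) = χ g • F p) : Function.Injective χ := by
  rw [injective_iff_map_eq_one]
  intro g hg
  have h1 := hχ g 0
  rw [hg, one_smul] at h1
  have h2 := hFi h1
  apply gam_cancel (p := 0)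
  rw [h2, one_smul]

lemma isPres_of_lift (f : Diffeomorph (𝓡 4) (𝓡 4) Mf Mf ∞)
    (hf : ∀ x : Mf, ∀ v : TangentSpace (𝓡 4) x, v ∈ Ds x →
      mfderiv (𝓡 4) (𝓡 4) (⇑f) x v ∈ Ds (f x))
    {F : E4 → E4} (hFc : Continuous F) (hF : ∀ p, pr (F p) = f (pr p)) : IsPres F := by
  have hsm := QuotMfd.lift_smooth pr_diffeo f.contMDiff hFc hF
  have hfd : ∀ p v, dpr (F p) (fderiv ℝ F p v) =
      mfderiv (𝓡 4) (𝓡 4) (⇑f) (pr p) (dpr p v) :=
    fun p v => QuotMfd.lift_fderiv pr_diffeo f.contMDiff hFc hF p v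
  have key : ∀ p v, v ∈ Submodule.span ℝ {fW p, fL p} →
      ∃ c1 c2 : ℝ, fderiv ℝ F p v = c1 • fW (F p) + c2 • fL (F p) := by
    intro p v hv
    have h1 : dpr p v ∈ Ds (pr p) := by
      rw [Ds_apply]
      exact Submodule.mem_map_of_mem hv
    have h2 := hf _ _ h1
    rw [← hfd, ← hF, Ds_apply] at h2
    obtain ⟨w, hw, hwe⟩ := h2
    have h3 : w = fderiv ℝ F p v := (dpr_bij (F p)).1 hwe
    rw [h3] at hw
    obtain ⟨c1, c2, hc⟩ := Submodule.mem_span_pair.1 hw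
    exact ⟨c1, c2, hc.symm⟩
  refine ⟨hsm, ?_, ?_, ?_⟩
  · intro p v hv
    have h1 := hfd p v
    rw [hv, map_zero] at h1
    have h2 : Function.Injective (mfderiv (𝓡 4) (𝓡 4) (⇑f) (pr p)) :=
      (f.mfderivToContinuousLinearEquiv (by simp) (pr p)).injective
    have h4 : mfderiv (𝓡 4) (𝓡 4) (⇑f) (pr p) (0 : TangentSpace (𝓡 4) (pr p)) = 0 :=
      ContinuousLinearMap.map_zero _
    have h3 : dpr p v = 0 := h2 (h1.symm.trans h4.symm)
    exact (dpr_bij p).1 (by rw [h3, map_zero])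
  · intro p
    exact key p _ (Submodule.subset_span (by simp))
  · intro p
    exact key p _ (Submodule.subset_span (by simp))

theorem lift_data (f : Diffeomorph (𝓡 4) (𝓡 4) Mf Mf ∞) :
    ∃ F : E4 → E4, Continuous F ∧ (∀ p, pr (F p) = f (pr p)) ∧
      ∃ χ : Gam →* Gam, (∀ g p, F (g • p) = χ g • F p) ∧
      ∃ k : ℤ, ∃ ε : ℝ, (ε = 1 ∨ ε = -1) ∧ (χ tau').m = 1 ∧
      (∀ n, (χ (T n)).m = 0 ∧ (χ (T n)).k = 0 ∧ e1 (χ (T n)).n = ε * gr ^ k * e1 n ∧
        e2 (χ (T n)).n = ε * gc ^ k * e2 n) ∧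
      (∀ k, (χ (rho k)).m = 0 ∧ (χ (rho k)).n = 0) := by
  obtain ⟨F, hFc, hF⟩ := QuotMfd.exists_lift pr_cov f f.continuous
  obtain ⟨G, hGc, hG⟩ := QuotMfd.exists_lift pr_cov f.symm f.symm.continuous
  obtain ⟨χ, hχ⟩ := exists_hom hFc hF
  obtain ⟨ψ, hψ⟩ := exists_hom hGc hG
  obtain ⟨g0, hg0⟩ := QuotMfd.lift_unique pr_cov (F := fun p => G (F p)) (F' := fun p => p)
    (hGc.comp hFc) continuous_id (fun p => by rw [hG, hF]; exact f.symm_apply_apply _)
  obtain ⟨g1, hg1⟩ := QuotMfd.lift_unique pr_cov (F := fun p => F (G p)) (F' := fun p => p)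
    (hFc.comp hGc) continuous_id (fun p => by rw [hF, hG]; exact f.apply_symm_apply _)
  have hFi : Function.Injective F := by
    intro p p' h
    have h1 := congrArg G h
    rw [hg0, hg0] at h1
    simpa using congrArg (fun x => g0⁻¹ • x) h1
  have hGi : Function.Injective G := by
    intro p p' h
    have h1 := congrArg F h
    rw [hg1, hg1] at h1
    simpa using congrArg (fun x => g1⁻¹ • x) h1
  refine ⟨F, hFc, hF, χ, hχ, ?_⟩
  apply hom_unit χ ψ (hom_inj hFi hχ) (hom_inj hGi hψ) g0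
  intro g
  rw [eq_mul_inv_iff_mul_eq]
  apply gam_cancel (p := 0)
  rw [mul_smul, ← hg0, ← hψ, ← hχ, hg0, mul_smul]

end Pool.Agent.Helper454.Engel
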