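import Pool.Agent.Helper454.QuotMfd

set_option autoImplicit false
set_option linter.unusedSectionVars false
open scoped Manifold ContDiff Topology
open Set VectorField

namespace Pool.Agent.Helper454.QuotMfd

variable {E : Type} [NormedAddCommGroup E] [NormedSpace ℝ E] [CompleteSpace E]
variable {G : Type} [Group G] [MulAction G E]
variable {M : Type} [TopologicalSpace M] [ChartedSpace E M] [IsManifold 𝓘(ℝ, E) ∞ M]
variable {q : E → M}

/-- derivative of the projection is invertible -/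
lemma mfderiv_invertible (hl : IsLocalDiffeomorph 𝓘(ℝ, E) 𝓘(ℝ, E) ∞ q) (p : E) :
    (mfderiv 𝓘(ℝ, E) 𝓘(ℝ, E) q p).IsInvertible :=
  ⟨hl.mfderivToContinuousLinearEquiv (by simp) p,
    hl.mfderivToContinuousLinearEquiv_coe (by simp) p⟩

lemma mdiffAt (hl : IsLocalDiffeomorph 𝓘(ℝ, E) 𝓘(ℝ, E) ∞ q) (p : E) :
    MDifferentiableAt 𝓘(ℝ, E) 𝓘(ℝ, E) q p :=
  hl.contMDiff.mdifferentiable (by simp) p

lemma mfderiv_smul (hq : IsQuotientCoveringMap q G)
    (hl : IsLocalDiffeomorph 𝓘(ℝ, E) 𝓘(ℝ, E) ∞ q)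
    (hs : ∀ g : G, ContDiff ℝ ∞ (fun p : E => g • p)) (g : G) (p : E) (v : E) :
    mfderiv 𝓘(ℝ, E) 𝓘(ℝ, E) q (g • p) (fderiv ℝ (fun p : E => g • p) p v) =
      mfderiv 𝓘(ℝ, E) 𝓘(ℝ, E) q p v := by
  have h1 : q ∘ (fun p : E => g • p) = q := by
    ext u; exact hq.map_smul g
  have hd : MDifferentiableAt 𝓘(ℝ, E) 𝓘(ℝ, E) (fun p : E => g • p) p :=
    ((hs g).differentiable (by simp) p).mdifferentiableAt
  have h2 := mfderiv_comp p (mdiffAt hl (g • p)) hd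
  rw [h1] at h2
  rw [h2, mfderiv_eq_fderiv]
  rfl

/-- a vector field on the quotient obtained from an invariant vector field -/
noncomputable def push (q : E → M) (s : M → E) (X : E → E) (y : M) : TangentSpace 𝓘(ℝ, E) y :=
  (show E from mfderiv 𝓘(ℝ, E) 𝓘(ℝ, E) q (s y) (X (s y)))

/-- invariance of a vector field under the group -/
def Inv (G : Type) [Group G] [MulAction G E] (X : E → E) : Prop :=
  ∀ (g : G) (p : E), X (g • p) = fderiv ℝ (fun p : E => g • p) p (X p)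

lemma push_apply (hq : IsQuotientCoveringMap q G)
    (hl : IsLocalDiffeomorph 𝓘(ℝ, E) 𝓘(ℝ, E) ∞ q)
    (hs : ∀ g : G, ContDiff ℝ ∞ (fun p : E => g • p))
    {s : M → E} (hsec : ∀ y, q (s y) = y) {X : E → E} (hX : Inv G X) (p : E) :
    push q s X (q p) = mfderiv 𝓘(ℝ, E) 𝓘(ℝ, E) q p (X p) := by
  obtain ⟨g, hg⟩ := hq.apply_eq_iff_mem_orbit.mp (hsec (q p))
  have hg' : s (q p) = g • p := hg.symm
  unfold push
  have := mfderiv_smul hq hl hs g p (X p)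
  rw [← hX g p, ← hg'] at this
  exact this

lemma mpullback_push (hq : IsQuotientCoveringMap q G)
    (hl : IsLocalDiffeomorph 𝓘(ℝ, E) 𝓘(ℝ, E) ∞ q)
    (hs : ∀ g : G, ContDiff ℝ ∞ (fun p : E => g • p))
    {s : M → E} (hsec : ∀ y, q (s y) = y) {X : E → E} (hX : Inv G X) :
    mpullback 𝓘(ℝ, E) 𝓘(ℝ, E) q (push q s X) = X := by
  ext p
  rw [mpullback_apply, push_apply hq hl hs hsec hX]
  exact (mfderiv_invertible hl p).inverse_apply_self _

lemma push_smooth (hq : IsQuotientCoveringMap q G)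
    (hl : IsLocalDiffeomorph 𝓘(ℝ, E) 𝓘(ℝ, E) ∞ q)
    (hs : ∀ g : G, ContDiff ℝ ∞ (fun p : E => g • p))
    {s : M → E} (hsec : ∀ y, q (s y) = y) {X : E → E} (hX : Inv G X) (hXs : ContDiff ℝ ∞ X) :
    ContMDiff 𝓘(ℝ, E) 𝓘(ℝ, E).tangent ∞
      (fun y => (⟨y, push q s X y⟩ : TangentBundle 𝓘(ℝ, E) M)) := by
  intro y
  obtain ⟨p, rfl⟩ := hq.surjective y
  set ℓ := (hl p).localInverse with hℓ
  have hX' : ContMDiffAt 𝓘(ℝ, E) 𝓘(ℝ, E).tangent ∞
      (fun u => (⟨u, X u⟩ : TangentBundle 𝓘(ℝ, E) E)) (ℓ (q p)) :=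
    (contMDiff_vectorSpace_iff_contDiff.2 hXs).contMDiffAt
  have hℓs : ContMDiffAt 𝓘(ℝ, E) 𝓘(ℝ, E) ∞ ℓ (q p) := (hl p).localInverse_contMDiffAt
  have hℓi : (mfderiv 𝓘(ℝ, E) 𝓘(ℝ, E) ℓ (q p)).IsInvertible :=
    ⟨(hl p).localInverse_isLocalDiffeomorphAt.mfderivToContinuousLinearEquiv (by simp),
      (hl p).localInverse_isLocalDiffeomorphAt.mfderivToContinuousLinearEquiv_coe (by simp)⟩
  have hmain := ContMDiffAt.mpullback_vectorField_preimage hX' hℓs hℓi (by simp)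
  refine hmain.congr_of_eventuallyEq ?_
  have hsrc : ℓ.source ∈ 𝓝 (q p) :=
    (hl p).localInverse_open_source.mem_nhds (hl p).localInverse_mem_source
  filter_upwards [hsrc] with y hy
  obtain ⟨u, hu, rfl⟩ : ∃ u ∈ ℓ.target, q u = y :=
    ⟨ℓ y, ℓ.map_source hy, (hl p).localInverse_right_inv hy⟩
  congr 1
  change push q s X (q u) = (mfderiv 𝓘(ℝ, E) 𝓘(ℝ, E) ℓ (q u)).inverse (X (ℓ (q u)))
  rw [push_apply hq hl hs hsec hX]
  have hℓu : ℓ (q u) = u := (hl p).localInverse_left_inv hu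
  have hℓmd : MDifferentiableAt 𝓘(ℝ, E) 𝓘(ℝ, E) ℓ (q u) :=
    ℓ.mdifferentiableAt (by simp) hy
  have hinvu : (mfderiv 𝓘(ℝ, E) 𝓘(ℝ, E) ℓ (q u)).IsInvertible := by
    have := ℓ.isLocalDiffeomorphAt _ _ _ hy
    exact ⟨this.mfderivToContinuousLinearEquiv (by simp),
      this.mfderivToContinuousLinearEquiv_coe (by simp)⟩
  symm
  refine (hinvu.inverse_apply_eq).2 ?_
  have hcomp : ℓ ∘ q =ᶠ[𝓝 u] id := by
    have : ℓ.target ∈ 𝓝 u := ℓ.open_target.mem_nhds hu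
    filter_upwards [this] with w hw
    exact (hl p).localInverse_left_inv hw
  have hchain := mfderiv_comp u hℓmd (mdiffAt hl u)
  rw [hcomp.mfderiv_eq, mfderiv_id] at hchain
  have := congrArg (fun L : E →L[ℝ] E => L (X u)) hchain
  rw [hℓu]
  exact this

lemma two_le_infty : (2 : ℕ∞ω) ≤ ∞ := ENat.LEInfty.out

lemma mlieBracket_push_apply (hq : IsQuotientCoveringMap q G)
    (hl : IsLocalDiffeomorph 𝓘(ℝ, E) 𝓘(ℝ, E) ∞ q)
    (hs : ∀ g : G, ContDiff ℝ ∞ (fun p : E => g • p))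
    {s : M → E} (hsec : ∀ y, q (s y) = y) {X Y : E → E} (hX : Inv G X) (hY : Inv G Y)
    (hXs : ContDiff ℝ ∞ X) (hYs : ContDiff ℝ ∞ Y) (p : E) :
    mlieBracket 𝓘(ℝ, E) (push q s X) (push q s Y) (q p) =
      mfderiv 𝓘(ℝ, E) 𝓘(ℝ, E) q p (show E from lieBracket ℝ X Y p) := by
  have hman : IsManifold 𝓘(ℝ, E) (minSmoothness ℝ 2) M :=
    IsManifold.of_le (n := ∞) (by rw [minSmoothness_of_isRCLikeNormedField]; exact two_le_infty)
  have h1 := (push_smooth hq hl hs hsec hX hXs).mdifferentiable (by simp) (q p)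
  have h2 := (push_smooth hq hl hs hsec hY hYs).mdifferentiable (by simp) (q p)
  have h3 := mpullback_mlieBracket (I := 𝓘(ℝ, E)) (x₀ := p) h1 h2 (hl.contMDiff p)
    (by rw [minSmoothness_of_isRCLikeNormedField]; exact two_le_infty)
  rw [mpullback_push hq hl hs hsec hX, mpullback_push hq hl hs hsec hY] at h3
  have h4 : mlieBracket 𝓘(ℝ, E) (show (x : E) → TangentSpace 𝓘(ℝ, E) x from X)
      (show (x : E) → TangentSpace 𝓘(ℝ, E) x from Y) p = (show E from lieBracket ℝ X Y p) := by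
    rw [← mlieBracketWithin_univ, mlieBracketWithin_eq_lieBracketWithin, lieBracketWithin_univ]
  rw [mpullback_apply] at h3
  have h5 := ((mfderiv_invertible hl p).inverse_apply_eq).1 h3
  rw [h5]
  congr 1

lemma inv_lieBracket (hq : IsQuotientCoveringMap q G)
    (hl : IsLocalDiffeomorph 𝓘(ℝ, E) 𝓘(ℝ, E) ∞ q)
    (hs : ∀ g : G, ContDiff ℝ ∞ (fun p : E => g • p))
    {s : M → E} (hsec : ∀ y, q (s y) = y) {X Y : E → E} (hX : Inv G X) (hY : Inv G Y)
    (hXs : ContDiff ℝ ∞ X) (hYs : ContDiff ℝ ∞ Y) : Inv G (lieBracket ℝ X Y) := by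
  intro g p
  have h1 := mlieBracket_push_apply hq hl hs hsec hX hY hXs hYs p
  have h2 := mlieBracket_push_apply hq hl hs hsec hX hY hXs hYs (g • p)
  have h3 := mfderiv_smul hq hl hs g p (lieBracket ℝ X Y p)
  apply (mfderiv_invertible hl (g • p)).injective
  rw [h3, ← h2, ← h1, hq.map_smul g]

lemma mlieBracket_push (hq : IsQuotientCoveringMap q G)
    (hl : IsLocalDiffeomorph 𝓘(ℝ, E) 𝓘(ℝ, E) ∞ q)
    (hs : ∀ g : G, ContDiff ℝ ∞ (fun p : E => g • p))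
    {s : M → E} (hsec : ∀ y, q (s y) = y) {X Y : E → E} (hX : Inv G X) (hY : Inv G Y)
    (hXs : ContDiff ℝ ∞ X) (hYs : ContDiff ℝ ∞ Y) :
    mlieBracket 𝓘(ℝ, E) (push q s X) (push q s Y) = push q s (lieBracket ℝ X Y) := by
  ext y
  obtain ⟨p, rfl⟩ := hq.surjective y
  rw [mlieBracket_push_apply hq hl hs hsec hX hY hXs hYs p,
    push_apply hq hl hs hsec (inv_lieBracket hq hl hs hsec hX hY hXs hYs)]

end Pool.Agent.Helper454.QuotMfd
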