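import Pool.Agent.Helper454.Equiv

set_option autoImplicit false
set_option linter.unusedSectionVars false
open scoped Manifold ContDiff Topology
open Set Real VectorField

namespace Pool.Agent.Helper454.Engel

/-- section of the projection used by the charts -/
noncomputable def sc : Mf → E4 := QuotMfd.sec pr_cov

lemma sc_spec (y : Mf) : pr (sc y) = y := QuotMfd.sec_spec pr_cov y

/-- derivative of the projection -/
noncomputable def dpr (p : E4) : E4 →L[ℝ] E4 := mfderiv (𝓡 4) (𝓡 4) pr p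

lemma dpr_inv (p : E4) : (dpr p).IsInvertible := QuotMfd.mfderiv_invertible pr_diffeo p

lemma dpr_bij (p : E4) : Function.Bijective (dpr p) :=
  ⟨(dpr_inv p).injective, fun y => ⟨(dpr p).inverse y, (dpr_inv p).self_apply_inverse y⟩⟩

/-- push forward of an invariant field -/
noncomputable def pf (X : E4 → E4) : (y : Mf) → TangentSpace (𝓡 4) y := QuotMfd.push pr sc X

lemma pf_apply {X : E4 → E4} (hX : QuotMfd.Inv Gam X) (p : E4) : pf X (pr p) = dpr p (X p) :=
  QuotMfd.push_apply pr_cov pr_diffeo contDiff_smul sc_spec hX p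

lemma pf_smooth {X : E4 → E4} (hX : QuotMfd.Inv Gam X) (hXs : ContDiff ℝ ∞ X) :
    ContMDiff (𝓡 4) (𝓡 4).tangent ∞ (fun y => (pf X y : TangentBundle (𝓡 4) Mf)) :=
  QuotMfd.push_smooth pr_cov pr_diffeo contDiff_smul sc_spec hX hXs

lemma pf_bracket {X Y : E4 → E4} (hX : QuotMfd.Inv Gam X) (hY : QuotMfd.Inv Gam Y)
    (hXs : ContDiff ℝ ∞ X) (hYs : ContDiff ℝ ∞ Y) :
    mlieBracket (𝓡 4) (pf X) (pf Y) = pf (lieBracket ℝ X Y) :=
  QuotMfd.mlieBracket_push pr_cov pr_diffeo contDiff_smul sc_spec hX hY hXs hYs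

lemma inv_bracket {X Y : E4 → E4} (hX : QuotMfd.Inv Gam X) (hY : QuotMfd.Inv Gam Y)
    (hXs : ContDiff ℝ ∞ X) (hYs : ContDiff ℝ ∞ Y) : QuotMfd.Inv Gam (lieBracket ℝ X Y) :=
  QuotMfd.inv_lieBracket pr_cov pr_diffeo contDiff_smul sc_spec hX hY hXs hYs

/-- The Engel distribution on the quotient. -/
noncomputable def Ds (y : Mf) : Submodule ℝ (TangentSpace (𝓡 4) y) :=
  Submodule.span ℝ {pf fW y, pf fYc y, pf fYs y}

lemma Ds_aux (p : E4) : Submodule.span ℝ {dpr p (fW p), dpr p (fYc p), dpr p (fYs p)} =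
    (Submodule.span ℝ {fW p, fL p}).map (dpr p : E4 →ₗ[ℝ] E4) := by
  apply le_antisymm
  · rw [Submodule.span_le]
    rintro v (rfl | rfl | rfl)
    · exact Submodule.mem_map_of_mem (Submodule.subset_span (by simp))
    · exact Submodule.mem_map_of_mem (Submodule.smul_mem _ _ (Submodule.subset_span (by simp)))
    · exact Submodule.mem_map_of_mem (Submodule.smul_mem _ _ (Submodule.subset_span (by simp)))
  · rw [Submodule.map_span, Submodule.span_le]
    rintro v ⟨w, (rfl | rfl), rfl⟩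
    · exact Submodule.subset_span (by simp)
    · rcases cc_or_ss p with h | h
      · have h1 : dpr p (fYc p) ∈ Submodule.span ℝ {dpr p (fW p), dpr p (fYc p), dpr p (fYs p)} :=
          Submodule.subset_span (by simp)
        have h2 := Submodule.smul_mem _ (cc p)⁻¹ h1
        have h3 : (cc p)⁻¹ • dpr p (fYc p) = dpr p (fL p) := by
          rw [fYc, map_smul, smul_smul, inv_mul_cancel₀ h, one_smul]
        rw [h3] at h2
        exact h2
      · have h1 : dpr p (fYs p) ∈ Submodule.span ℝ {dpr p (fW p), dpr p (fYc p), dpr p (fYs p)} :=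
          Submodule.subset_span (by simp)
        have h2 := Submodule.smul_mem _ (ss p)⁻¹ h1
        have h3 : (ss p)⁻¹ • dpr p (fYs p) = dpr p (fL p) := by
          rw [fYs, map_smul, smul_smul, inv_mul_cancel₀ h, one_smul]
        rw [h3] at h2
        exact h2

lemma Ds_apply (p : E4) :
    Ds (pr p) = (Submodule.span ℝ {fW p, fL p}).map (dpr p : E4 →ₗ[ℝ] E4) := by
  rw [Ds, pf_apply inv_W, pf_apply inv_Yc, pf_apply inv_Ys]
  exact Ds_aux p

lemma span_smul {c : ℝ} (hc : c ≠ 0) (u v : E4) :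
    Submodule.span ℝ {u, c • v} = Submodule.span ℝ {u, v} := by
  rw [Submodule.span_insert, Submodule.span_insert u, Submodule.span_singleton_smul_eq]
  exact IsUnit.mk0 c hc

lemma engel_aux {c : E4 → ℝ} (hc : ContDiff ℝ ∞ c)
    (hinv : QuotMfd.Inv Gam (fun q => c q • fL q)) {p : E4} (h0 : c p ≠ 0) :
    ∃ X Y : (y : Mf) → TangentSpace (𝓡 4) y,
      ContMDiff (𝓡 4) (𝓡 4).tangent ∞ (fun y => (X y : TangentBundle (𝓡 4) Mf)) ∧
      ContMDiff (𝓡 4) (𝓡 4).tangent ∞ (fun y => (Y y : TangentBundle (𝓡 4) Mf)) ∧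
      (∀ᶠ y in nhds (pr p), Ds y = Submodule.span ℝ {X y, Y y}) ∧
      LinearIndependent ℝ ![X (pr p), Y (pr p), VectorField.mlieBracket (𝓡 4) X Y (pr p)] ∧
      Submodule.span ℝ {X (pr p), Y (pr p), VectorField.mlieBracket (𝓡 4) X Y (pr p),
        VectorField.mlieBracket (𝓡 4) X (VectorField.mlieBracket (𝓡 4) X Y) (pr p),
        VectorField.mlieBracket (𝓡 4) Y (VectorField.mlieBracket (𝓡 4) X Y) (pr p)} = ⊤ := by
  have hYs : ContDiff ℝ ∞ (fun q => c q • fL q) := hc.smul contDiff_fL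
  have hB := inv_bracket inv_W hinv contDiff_fW hYs
  have hBs := smooth_bracket hc
  refine ⟨pf fW, pf (fun q => c q • fL q), pf_smooth inv_W contDiff_fW, pf_smooth hinv hYs,
    ?_, ?_, ?_⟩
  · rw [← pr_cov.isCoveringMap.isLocalHomeomorph.map_nhds_eq p, Filter.eventually_map]
    have : ∀ᶠ q in 𝓝 p, c q ≠ 0 := hc.continuous.continuousAt.eventually_ne h0
    filter_upwards [this] with q hq
    rw [Ds_apply, pf_apply inv_W, pf_apply hinv, ← span_smul hq, Submodule.map_span]
    congr 1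
    rw [Set.image_pair]
    rfl
  · rw [pf_bracket inv_W hinv contDiff_fW hYs, pf_apply inv_W, pf_apply hinv, pf_apply hB]
    have h1 := (engel_indep hc h0).map' (dpr p : E4 →ₗ[ℝ] E4)
      (LinearMap.ker_eq_bot.2 (dpr_bij p).1)
    have h2 : LinearIndependent ℝ ![dpr p (fW p), dpr p (c p • fL p),
        dpr p (lieBracket ℝ fW (fun q => c q • fL q) p)] := by
      have e : (![dpr p (fW p), dpr p (c p • fL p),
          dpr p (lieBracket ℝ fW (fun q => c q • fL q) p)] : Fin 3 → E4) =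
          ⇑(dpr p : E4 →ₗ[ℝ] E4) ∘ ![fW p, c p • fL p, lieBracket ℝ fW (fun q => c q • fL q) p] := by
        funext i
        fin_cases i <;> rfl
      rw [e]
      exact h1
    exact h2
  · rw [pf_bracket inv_W hinv contDiff_fW hYs, pf_bracket inv_W hB contDiff_fW hBs,
      pf_bracket hinv hB hYs hBs, pf_apply inv_W, pf_apply hinv, pf_apply hB,
      pf_apply (inv_bracket inv_W hB contDiff_fW hBs), pf_apply (inv_bracket hinv hB hYs hBs)]
    have h1 := congrArg (Submodule.map (dpr p : E4 →ₗ[ℝ] E4)) (engel_span hc h0)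
    rw [Submodule.map_span, Submodule.map_top,
      LinearMap.range_eq_top.2 (dpr_bij p).2] at h1
    simp only [Set.image_insert_eq, Set.image_singleton] at h1
    exact h1

theorem engel_part (y : Mf) : ∃ X Y : (y : Mf) → TangentSpace (𝓡 4) y,
      ContMDiff (𝓡 4) (𝓡 4).tangent ∞ (fun y => (X y : TangentBundle (𝓡 4) Mf)) ∧
      ContMDiff (𝓡 4) (𝓡 4).tangent ∞ (fun y => (Y y : TangentBundle (𝓡 4) Mf)) ∧
      (∀ᶠ z in nhds y, Ds z = Submodule.span ℝ {X z, Y z}) ∧
      LinearIndependent ℝ ![X y, Y y, VectorField.mlieBracket (𝓡 4) X Y y] ∧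
      Submodule.span ℝ {X y, Y y, VectorField.mlieBracket (𝓡 4) X Y y,
        VectorField.mlieBracket (𝓡 4) X (VectorField.mlieBracket (𝓡 4) X Y) y,
        VectorField.mlieBracket (𝓡 4) Y (VectorField.mlieBracket (𝓡 4) X Y) y} = ⊤ := by
  obtain ⟨p, rfl⟩ := pr_cov.surjective y
  rcases cc_or_ss p with h | h
  · exact engel_aux contDiff_cc inv_Yc h
  · exact engel_aux contDiff_ss inv_Ys h

end Pool.Agent.Helper454.Engel
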