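import Pool.Agent.Helper454.Forms

set_option autoImplicit false
set_option linter.unusedSectionVars false
open scoped Manifold ContDiff Topology
open Set Real VectorField

namespace Pool.Agent.Helper454.Engel

lemma V_ne (p : E4) : V1 p ≠ 0 ∨ V2 p ≠ 0 := by
  by_contra h
  push Not at h
  have := V_dual p
  rw [h.1, h.2] at this
  simp at this

lemma fd (F : E4 → E4) (hF : ContDiff ℝ ∞ F) (p : E4) : DifferentiableAt ℝ F p :=
  hF.differentiable (by simp) p

lemma bracket_smul {c : E4 → ℝ} (hc : ContDiff ℝ ∞ c) (p : E4) :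
    lieBracket ℝ fW (fun q => c q • fL q) p = c p • fZ p + (fderiv ℝ c p (fW p)) • fL p := by
  have h := lieBracket_smul_right (V := fW) (W := fL) (x := p) (hc.differentiable (by simp) p)
    (fd _ contDiff_fL p)
  have h2 : (fun q => c q • fL q) = fun q => c q • fL q := rfl
  rw [bracket_W_L] at h
  rw [← add_comm]
  exact h

lemma smooth_bracket {c : E4 → ℝ} (hc : ContDiff ℝ ∞ c) :
    ContDiff ℝ ∞ (lieBracket ℝ fW (fun q => c q • fL q)) := by
  have hY : ContDiff ℝ ∞ (fun q => c q • fL q) := hc.smul contDiff_fL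
  exact contDiff_fW.lieBracket_vectorField hY (by simp)

lemma al_bracket {c : E4 → ℝ} (hc : ContDiff ℝ ∞ c) (p : E4) :
    al p (lieBracket ℝ fW (fun q => c q • fL q) p) = 0 := by
  rw [bracket_smul hc]
  simp [al_Z, al_L]

lemma diff_al (p : E4) : DifferentiableAt ℝ al p := (hasFDerivAt_al p).differentiableAt

lemma al_bracket2 {c : E4 → ℝ} (hc : ContDiff ℝ ∞ c) (p : E4) :
    al p (lieBracket ℝ (fun q => c q • fL q) (lieBracket ℝ fW (fun q => c q • fL q)) p) =
      - (c p ^ 2 * dal p (fL p) (fZ p)) := by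
  have hY : ContDiff ℝ ∞ (fun q => c q • fL q) := hc.smul contDiff_fL
  rw [form_bracket (diff_al p) (fd _ hY p) (fd _ (smooth_bracket hc) p)
    (fun u => by simp [al_L]) (fun u => al_bracket hc u)]
  rw [bracket_smul hc]
  simp only [map_add, map_smul, add_apply, smul_apply,
    smul_eq_mul, dal]
  ring

lemma engel_indep {c : E4 → ℝ} (hc : ContDiff ℝ ∞ c) {p : E4} (h0 : c p ≠ 0) :
    LinearIndependent ℝ ![fW p, c p • fL p, lieBracket ℝ fW (fun q => c q • fL q) p] := by
  rw [Fintype.linearIndependent_iff]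
  intro g hg
  rw [Fin.sum_univ_three] at hg
  simp only [Matrix.cons_val_zero, Matrix.cons_val_one, Matrix.cons_val_two,
    Matrix.head_cons, Matrix.tail_cons] at hg
  rw [bracket_smul hc] at hg
  set c' := fderiv ℝ c p (fW p) with hc'
  have e0 := congrArg (fun v : E4 => v 0) hg
  have e1 := congrArg (fun v : E4 => v 1) hg
  have e2 := congrArg (fun v : E4 => v 2) hg
  have e3 := congrArg (fun v : E4 => v 3) hg
  simp only [PiLp.add_apply, PiLp.smul_apply, smul_eq_mul, fW_0, fL_0, fZ_0, fW_1, fL_1, fZ_1,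
    fW_2, fL_2, fZ_2, fW_3, fL_3, fZ_3, PiLp.zero_apply] at e0 e1 e2 e3
  set a := aP (cos (p 2)) with ha
  set b := bP (cos (p 2)) with hb
  set a' := aQ (cos (p 2)) with ha'
  set b' := bQ (cos (p 2)) with hb'
  have hR := R_pos (cos (p 2))
  rw [← ha, ← hb, ← ha', ← hb'] at hR
  have g0 : g 0 = 0 := by linarith
  rw [g0] at e0 e1 e2
  have hA : (g 1 * c p + g 2 * c') * a + g 2 * c p * a' = 0 := by
    rcases V_ne p with h | h
    · apply mul_right_cancel₀ h
      linarith
    · apply mul_right_cancel₀ h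
      linarith
  have hB : (g 1 * c p + g 2 * c') * b + g 2 * c p * b' = 0 := by linarith
  have hg2 : g 2 * c p = 0 := by
    have : (g 2 * c p) * (b * a' - a * b') = 0 := by linear_combination b * hA - a * hB
    rcases mul_eq_zero.1 this with h | h
    · exact h
    · linarith
  have g2 : g 2 = 0 := by
    rcases mul_eq_zero.1 hg2 with h | h
    · exact h
    · exact absurd h h0
  rw [g2] at hA hB
  have hg1 : g 1 * c p = 0 := by
    have : (g 1 * c p) * (b * a' - a * b') = 0 := by
      linear_combination (-b') * hA + a' * hB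
    rcases mul_eq_zero.1 this with h | h
    · exact h
    · linarith
  have g1 : g 1 = 0 := by
    rcases mul_eq_zero.1 hg1 with h | h
    · exact h
    · exact absurd h h0
  intro i
  fin_cases i
  · exact g0
  · exact g1
  · exact g2

lemma engel_span {c : E4 → ℝ} (hc : ContDiff ℝ ∞ c) {p : E4} (h0 : c p ≠ 0) :
    Submodule.span ℝ {fW p, c p • fL p, lieBracket ℝ fW (fun q => c q • fL q) p,
      lieBracket ℝ fW (lieBracket ℝ fW (fun q => c q • fL q)) p,
      lieBracket ℝ (fun q => c q • fL q) (lieBracket ℝ fW (fun q => c q • fL q)) p} = ⊤ := by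
  rw [eq_top_iff]
  intro v _
  set S := Submodule.span ℝ {fW p, c p • fL p, lieBracket ℝ fW (fun q => c q • fL q) p,
      lieBracket ℝ fW (lieBracket ℝ fW (fun q => c q • fL q)) p,
      lieBracket ℝ (fun q => c q • fL q) (lieBracket ℝ fW (fun q => c q • fL q)) p} with hS
  set N := lieBracket ℝ (fun q => c q • fL q) (lieBracket ℝ fW (fun q => c q • fL q)) p with hN
  have hW : fW p ∈ S := Submodule.subset_span (by simp)
  have hcL : c p • fL p ∈ S := Submodule.subset_span (by simp)
  have hB : lieBracket ℝ fW (fun q => c q • fL q) p ∈ S := Submodule.subset_span (by simp)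
  have hNS : N ∈ S := Submodule.subset_span (by rw [hN]; simp)
  have hL : fL p ∈ S := by
    have := S.smul_mem (c p)⁻¹ hcL
    rwa [smul_smul, inv_mul_cancel₀ h0, one_smul] at this
  have hZ : fZ p ∈ S := by
    rw [bracket_smul hc] at hB
    have h1 := S.sub_mem hB (S.smul_mem (fderiv ℝ c p (fW p)) hL)
    rw [add_sub_cancel_right] at h1
    have := S.smul_mem (c p)⁻¹ h1
    rwa [smul_smul, inv_mul_cancel₀ h0, one_smul] at this
  have hn : al p N ≠ 0 := by
    rw [hN, al_bracket2 hc]
    have h1 := dal_L_Z_ne p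
    have h2 : 0 < c p ^ 2 := by positivity
    have : c p ^ 2 * dal p (fL p) (fZ p) < 0 := mul_neg_of_pos_of_neg h2 h1
    intro h; linarith
  obtain ⟨x, y, hxy⟩ := decomp p (v - (al p v / al p N) • N) (by
    simp only [map_sub, map_smul, smul_eq_mul]
    field_simp
    ring)
  have : v = (al p v / al p N) • N + (v - (al p v / al p N) • N) := by abel
  rw [this, hxy]
  exact S.add_mem (S.smul_mem _ hNS) (S.add_mem (S.add_mem (S.smul_mem _ hW) (S.smul_mem _ hL))
    (S.smul_mem _ hZ))

end Pool.Agent.Helper454.Engel
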