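import Pool.Agent.Helper454.EngelE
import Pool.Agent.Helper454.Mfd

set_option autoImplicit false
set_option linter.unusedSectionVars false
open scoped Manifold ContDiff Topology
open Set Real VectorField

namespace Pool.Agent.Helper454.Engel

lemma neg_one_zpow_cases (m : ℤ) : (-1 : ℝ) ^ m = 1 ∨ (-1 : ℝ) ^ m = -1 := by
  rcases Int.even_or_odd m with h | h
  · left; exact h.neg_one_zpow
  · right; exact h.neg_one_zpow

lemma neg_one_zpow_sq (m : ℤ) : (-1 : ℝ) ^ m * (-1 : ℝ) ^ m = 1 := by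
  rcases neg_one_zpow_cases m with h | h <;> rw [h] <;> norm_num

lemma cos_act (m k : ℤ) (θ : ℝ) : cos ((-1 : ℝ) ^ m * θ + 2 * π * k) = cos θ := by
  rw [show (-1 : ℝ) ^ m * θ + 2 * π * k = (-1 : ℝ) ^ m * θ + k * (2 * π) by ring,
    cos_add_int_mul_two_pi]
  rcases neg_one_zpow_cases m with h | h <;> rw [h] <;> simp

lemma sin_act (m k : ℤ) (θ : ℝ) : sin ((-1 : ℝ) ^ m * θ + 2 * π * k) = (-1 : ℝ) ^ m * sin θ := by
  rw [show (-1 : ℝ) ^ m * θ + 2 * π * k = (-1 : ℝ) ^ m * θ + k * (2 * π) by ring,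
    sin_add_int_mul_two_pi]
  rcases neg_one_zpow_cases m with h | h <;> rw [h] <;> simp

lemma exp_log_mul (m : ℤ) : exp (m * Real.log gr) = gr ^ m := by
  rw [mul_comm, Real.exp_mul, Real.exp_log gr_pos, Real.rpow_intCast]

lemma gc_zpow (m : ℤ) : gc ^ m = (-1 : ℝ) ^ m * (gr ^ m)⁻¹ := by
  have h : gc = -1 * gr⁻¹ := by
    have h1 : gr * gc = -1 := Real.goldenRatio_mul_goldenConj
    have h2 : gr * gr⁻¹ = 1 := mul_inv_cancel₀ gr_ne
    apply mul_left_cancel₀ gr_ne
    linear_combination h1 + h2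
  rw [h, mul_zpow, inv_zpow]

lemma V1_act (g : Gam) (p : E4) : V1 (g • p) = (-1 : ℝ) ^ g.m * gr ^ g.m * V1 p := by
  rw [V1, V1, smul_apply_2, smul_apply_3, sin_act, exp_add, exp_log_mul]; ring

lemma V2_act (g : Gam) (p : E4) : V2 (g • p) = (-1 : ℝ) ^ g.m * gc ^ g.m * V2 p := by
  rw [V2, V2, smul_apply_2, smul_apply_3, cos_act, neg_add, exp_add, exp_neg (g.m * Real.log gr),
    exp_log_mul, gc_zpow]
  have := neg_one_zpow_sq g.m
  linear_combination (-(cos (p 2) * exp (-p 3) * (gr ^ g.m)⁻¹)) * this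

lemma W_equiv (g : Gam) (p : E4) : fW (g • p) = lin g (fW p) := by
  apply E4_ext
  · rw [lin_0, fW_0, fW_0]; ring
  · rw [lin_1, fW_1, fW_1]; ring
  · rw [lin_2, fW_2, fW_2, sin_two_mul, sin_two_mul, smul_apply_2, sin_act, cos_act]; ring
  · rw [lin_3, fW_3, fW_3]

lemma L_equiv (g : Gam) (p : E4) : fL (g • p) = (-1 : ℝ) ^ g.m • lin g (fL p) := by
  apply E4_ext
  · rw [PiLp.smul_apply, lin_0, fL_0, fL_0, V1_act, smul_apply_2, cos_act, smul_eq_mul]; ring
  · rw [PiLp.smul_apply, lin_1, fL_1, fL_1, V2_act, smul_apply_2, cos_act, smul_eq_mul]; ring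
  · rw [PiLp.smul_apply, lin_2, fL_2, fL_2, smul_apply_2, cos_act, smul_eq_mul]
    have := neg_one_zpow_sq g.m
    linear_combination (-bP (cos (p 2))) * this
  · rw [PiLp.smul_apply, lin_3, fL_3, fL_3, smul_eq_mul]; ring

/-- trigonometric cut-off, cosine version -/
noncomputable def cc (p : E4) : ℝ := cos (π * p 3 / Real.log gr)
/-- trigonometric cut-off, sine version -/
noncomputable def ss (p : E4) : ℝ := sin (π * p 3 / Real.log gr)

lemma cc_act (g : Gam) (p : E4) : cc (g • p) = (-1 : ℝ) ^ g.m * cc p := by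
  rw [cc, cc, smul_apply_3]
  have hl := log_gr_pos.ne'
  rw [show π * (p 3 + g.m * Real.log gr) / Real.log gr = π * p 3 / Real.log gr + g.m * π by
    field_simp]
  rw [cos_add_int_mul_pi]

lemma ss_act (g : Gam) (p : E4) : ss (g • p) = (-1 : ℝ) ^ g.m * ss p := by
  rw [ss, ss, smul_apply_3]
  have hl := log_gr_pos.ne'
  rw [show π * (p 3 + g.m * Real.log gr) / Real.log gr = π * p 3 / Real.log gr + g.m * π by
    field_simp]
  rw [sin_add_int_mul_pi]

lemma contDiff_cc : ContDiff ℝ ∞ cc :=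
  Real.contDiff_cos.comp ((contDiff_const.mul (contDiff_coord 3)).div_const _)

lemma contDiff_ss : ContDiff ℝ ∞ ss :=
  Real.contDiff_sin.comp ((contDiff_const.mul (contDiff_coord 3)).div_const _)

lemma cc_or_ss (p : E4) : cc p ≠ 0 ∨ ss p ≠ 0 := by
  by_contra h
  push Not at h
  have := sin_sq_add_cos_sq (π * p 3 / Real.log gr)
  rw [cc, ss] at h
  rw [h.1, h.2] at this
  simp at this

/-- the two global sections of the line field -/
noncomputable def fYc (q : E4) : E4 := cc q • fL q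
/-- the two global sections of the line field -/
noncomputable def fYs (q : E4) : E4 := ss q • fL q

lemma inv_W : QuotMfd.Inv Gam fW := fun g p => by rw [fderiv_smul_eq, W_equiv]

lemma inv_Yc : QuotMfd.Inv Gam fYc := fun g p => by
  rw [fderiv_smul_eq, fYc, fYc, L_equiv, cc_act, map_smul, smul_smul]
  congr 1
  have := neg_one_zpow_sq g.m
  linear_combination (cc p) * this

lemma inv_Ys : QuotMfd.Inv Gam fYs := fun g p => by
  rw [fderiv_smul_eq, fYs, fYs, L_equiv, ss_act, map_smul, smul_smul]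
  congr 1
  have := neg_one_zpow_sq g.m
  linear_combination (ss p) * this

end Pool.Agent.Helper454.Engel
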