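import Pool.Agent.Helper454.Gam

set_option autoImplicit false
set_option linter.unusedSectionVars false
open scoped Manifold ContDiff Topology
open Set Real VectorField

namespace Pool.Agent.Helper454.Engel

/-- coordinate projection -/
noncomputable abbrev prj (i : Fin 4) : E4 →L[ℝ] ℝ := EuclideanSpace.proj i

lemma hasFDerivAt_coord (i : Fin 4) (p : E4) : HasFDerivAt (fun q : E4 => q i) (prj i) p :=
  (prj i).hasFDerivAt

/-- vector fields whose coefficients depend on the angle and exponentially on the last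
coordinate -/
noncomputable def vf (u0 u1 u2 u3 : ℝ → ℝ) (q : E4) : E4 :=
  !₂[u0 (q 2) * exp (q 3), u1 (q 2) * exp (-q 3), u2 (q 2), u3 (q 2)]

section
variable (u0 u1 u2 u3 : ℝ → ℝ) (q : E4)
@[simp] lemma vf_0 : vf u0 u1 u2 u3 q 0 = u0 (q 2) * exp (q 3) := by simp [vf]
@[simp] lemma vf_1 : vf u0 u1 u2 u3 q 1 = u1 (q 2) * exp (-q 3) := by simp [vf]
@[simp] lemma vf_2 : vf u0 u1 u2 u3 q 2 = u2 (q 2) := by simp [vf]
@[simp] lemma vf_3 : vf u0 u1 u2 u3 q 3 = u3 (q 2) := by simp [vf]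
end

lemma contDiff_coord (i : Fin 4) : ContDiff ℝ ∞ (fun q : E4 => q i) := (prj i).contDiff

lemma contDiff_vf {u0 u1 u2 u3 : ℝ → ℝ} (h0 : ContDiff ℝ ∞ u0) (h1 : ContDiff ℝ ∞ u1)
    (h2 : ContDiff ℝ ∞ u2) (h3 : ContDiff ℝ ∞ u3) : ContDiff ℝ ∞ (vf u0 u1 u2 u3) := by
  rw [contDiff_euclidean]
  intro i
  have c2 := contDiff_coord 2
  have c3 := contDiff_coord 3
  fin_cases i
  · simp only [Fin.zero_eta, vf_0]
    exact (h0.comp c2).mul (Real.contDiff_exp.comp c3)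
  · simp only [Fin.mk_one, vf_1]
    exact (h1.comp c2).mul (Real.contDiff_exp.comp c3.neg)
  · simp only [Fin.reduceFinMk, vf_2]
    exact h2.comp c2
  · simp only [Fin.reduceFinMk, vf_3]
    exact h3.comp c2

lemma fderiv_comp_coord {F : E4 → E4} {p : E4} (hF : DifferentiableAt ℝ F p) (v : E4) (i : Fin 4) :
    (fderiv ℝ F p v) i = fderiv ℝ (fun q => F q i) p v := by
  have h := ((prj i).hasFDerivAt.comp p hF.hasFDerivAt).fderiv
  have h2 : (⇑(prj i) ∘ F) = fun q => F q i := by ext q; rfl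
  rw [h2] at h
  rw [h]; rfl

lemma fderiv_vf {u0 u1 u2 u3 : ℝ → ℝ} {p : E4} {d0 d1 d2 d3 : ℝ}
    (h0 : HasDerivAt u0 d0 (p 2)) (h1 : HasDerivAt u1 d1 (p 2))
    (h2 : HasDerivAt u2 d2 (p 2)) (h3 : HasDerivAt u3 d3 (p 2)) :
    HasFDerivAt (vf u0 u1 u2 u3) (fderiv ℝ (vf u0 u1 u2 u3) p) p ∧
    ∀ v : E4, fderiv ℝ (vf u0 u1 u2 u3) p v =
      !₂[exp (p 3) * (d0 * v 2 + u0 (p 2) * v 3), exp (-p 3) * (d1 * v 2 - u1 (p 2) * v 3),
        d2 * v 2, d3 * v 2] := by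
  have c2 := hasFDerivAt_coord 2 p
  have c3 := hasFDerivAt_coord 3 p
  have k0 := (h0.comp_hasFDerivAt p c2).mul (c3.exp)
  have k1 := (h1.comp_hasFDerivAt p c2).mul (c3.neg.exp)
  have k2 := (h2.comp_hasFDerivAt p c2)
  have k3 := (h3.comp_hasFDerivAt p c2)
  have hd : DifferentiableAt ℝ (vf u0 u1 u2 u3) p := by
    rw [differentiableAt_euclidean]
    intro i
    fin_cases i
    · simp only [Fin.zero_eta, vf_0]
      exact k0.differentiableAt
    · simp only [Fin.mk_one, vf_1]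
      exact k1.differentiableAt
    · simp only [Fin.reduceFinMk, vf_2]
      exact k2.differentiableAt
    · simp only [Fin.reduceFinMk, vf_3]
      exact k3.differentiableAt
  refine ⟨hd.hasFDerivAt, fun v => ?_⟩
  apply E4_ext
  · rw [fderiv_comp_coord hd]
    simp only [vf_0]
    rw [HasFDerivAt.fderiv (show HasFDerivAt (fun q : E4 => u0 (q 2) * exp (q 3)) _ p from k0)]
    simp
    ring
  · rw [fderiv_comp_coord hd]
    simp only [vf_1]
    rw [HasFDerivAt.fderiv (show HasFDerivAt (fun q : E4 => u1 (q 2) * exp (-q 3)) _ p from k1)]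
    simp
    ring
  · rw [fderiv_comp_coord hd]
    simp only [vf_2]
    rw [HasFDerivAt.fderiv (show HasFDerivAt (fun q : E4 => u2 (q 2)) _ p from k2)]
    simp
  · rw [fderiv_comp_coord hd]
    simp only [vf_3]
    rw [HasFDerivAt.fderiv (show HasFDerivAt (fun q : E4 => u3 (q 2)) _ p from k3)]
    simp

lemma lieBracket_vf {u0 u1 u2 u3 w0 w1 w2 w3 : ℝ → ℝ} {p : E4}
    {d0 d1 d2 d3 f0 f1 f2 f3 : ℝ}
    (h0 : HasDerivAt u0 d0 (p 2)) (h1 : HasDerivAt u1 d1 (p 2))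
    (h2 : HasDerivAt u2 d2 (p 2)) (h3 : HasDerivAt u3 d3 (p 2))
    (k0 : HasDerivAt w0 f0 (p 2)) (k1 : HasDerivAt w1 f1 (p 2))
    (k2 : HasDerivAt w2 f2 (p 2)) (k3 : HasDerivAt w3 f3 (p 2)) :
    lieBracket ℝ (vf u0 u1 u2 u3) (vf w0 w1 w2 w3) p =
      !₂[exp (p 3) * (f0 * u2 (p 2) + w0 (p 2) * u3 (p 2) - (d0 * w2 (p 2) + u0 (p 2) * w3 (p 2))),
        exp (-p 3) * (f1 * u2 (p 2) - w1 (p 2) * u3 (p 2) - (d1 * w2 (p 2) - u1 (p 2) * w3 (p 2))),
        f2 * u2 (p 2) - d2 * w2 (p 2), f3 * u2 (p 2) - d3 * w2 (p 2)] := by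
  rw [lieBracket_eq]
  simp only
  rw [(fderiv_vf h0 h1 h2 h3).2, (fderiv_vf k0 k1 k2 k3).2]
  apply E4_ext
  · simp; ring
  · simp; ring
  · simp
  · simp

/-- the polynomial `a` -/
noncomputable def aP (s : ℝ) : ℝ := 1 - 2 * s
/-- the polynomial `b` -/
noncomputable def bP (s : ℝ) : ℝ := (1 - 16 * s ^ 2) * (3 - 4 * s)
/-- derivative of `b` -/
noncomputable def dbP (s : ℝ) : ℝ := -4 - 96 * s + 192 * s ^ 2
/-- coefficient `a₂` of the bracket -/
noncomputable def aQ (s : ℝ) : ℝ := 2 * s * (1 - s ^ 2) * (-2) + (1 - 2 * s ^ 2) * aP s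
/-- coefficient `b₂` of the bracket -/
noncomputable def bQ (s : ℝ) : ℝ := 2 * s * (1 - s ^ 2) * dbP s - 2 * (1 - 2 * s ^ 2) * bP s

lemma R_pos (s : ℝ) : 0 < bP s * aQ s - aP s * bQ s := by
  have : bP s * aQ s - aP s * bQ s =
      (16 * s ^ 3 - 12 * s ^ 2) ^ 2 + 8 * (2 * s ^ 2 - s) ^ 2 + (46 * s ^ 2 - 34 * s + 9) := by
    simp only [aP, bP, aQ, bQ, dbP]; ring
  rw [this]
  have h1 : 0 < 46 * s ^ 2 - 34 * s + 9 := by nlinarith [sq_nonneg (46 * s - 17)]
  positivity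

/-- The field `W`. -/
noncomputable def fW : E4 → E4 := vf (fun _ => 0) (fun _ => 0) (fun θ => -sin (2 * θ)) (fun _ => 1)
/-- The field `L`. -/
noncomputable def fL : E4 → E4 :=
  vf (fun θ => aP (cos θ) * (-sin θ)) (fun θ => aP (cos θ) * cos θ) (fun θ => bP (cos θ))
    (fun _ => 0)
/-- The bracket `Z = [W, L]`. -/
noncomputable def fZ : E4 → E4 :=
  vf (fun θ => aQ (cos θ) * (-sin θ)) (fun θ => aQ (cos θ) * cos θ) (fun θ => bQ (cos θ))
    (fun _ => 0)

lemma hasDerivAt_aPcos (θ : ℝ) : HasDerivAt (fun θ => aP (cos θ)) (2 * sin θ) θ := by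
  have := ((hasDerivAt_cos θ).const_mul 2).const_sub 1
  have h2 : -(2 * -sin θ) = 2 * sin θ := by ring
  rw [h2] at this
  exact this

lemma hasDerivAt_bPcos (θ : ℝ) : HasDerivAt (fun θ => bP (cos θ)) (-dbP (cos θ) * sin θ) θ := by
  have h := hasDerivAt_cos θ
  have h1 := ((h.pow 2).const_mul 16).const_sub 1
  have h2 := (h.const_mul 4).const_sub 3
  have := h1.mul h2
  refine HasDerivAt.congr_deriv this ?_
  simp [dbP]
  ring

lemma hasDerivAt_two_mul (θ : ℝ) : HasDerivAt (fun θ : ℝ => 2 * θ) 2 θ := by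
  simpa using (hasDerivAt_id θ).const_mul 2

lemma hasDerivAt_nsin2 (θ : ℝ) : HasDerivAt (fun θ => -sin (2 * θ)) (-(cos (2 * θ) * 2)) θ :=
  ((hasDerivAt_sin (2 * θ)).comp θ (hasDerivAt_two_mul θ)).neg

lemma hasDerivAt_L0 (θ : ℝ) : HasDerivAt (fun θ => aP (cos θ) * (-sin θ))
    (2 * sin θ * (-sin θ) + aP (cos θ) * (-cos θ)) θ :=
  (hasDerivAt_aPcos θ).mul (hasDerivAt_sin θ).neg

lemma hasDerivAt_L1 (θ : ℝ) : HasDerivAt (fun θ => aP (cos θ) * cos θ)
    (2 * sin θ * cos θ + aP (cos θ) * (-sin θ)) θ :=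
  (hasDerivAt_aPcos θ).mul (hasDerivAt_cos θ)

lemma bracket_W_L (p : E4) : lieBracket ℝ fW fL p = fZ p := by
  have z : ∀ c : ℝ, HasDerivAt (fun _ : ℝ => c) 0 (p 2) := fun c => hasDerivAt_const _ _
  rw [fW, fL, lieBracket_vf (z 0) (z 0) (hasDerivAt_nsin2 _) (z 1) (hasDerivAt_L0 _)
    (hasDerivAt_L1 _) (hasDerivAt_bPcos _) (z 0)]
  have hs2 : sin (p 2) ^ 2 = 1 - cos (p 2) ^ 2 := by
    have := sin_sq_add_cos_sq (p 2); linarith
  apply E4_ext
  · simp only [fZ, vf_0, sin_two_mul, aQ]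
    simp
    generalize sin (p 2) = σ at *
    generalize cos (p 2) = c at *
    linear_combination (4 * σ * c * exp (p 3)) * hs2
  · simp only [fZ, vf_1, sin_two_mul, aQ]
    simp
    generalize sin (p 2) = σ at *
    generalize cos (p 2) = c at *
    linear_combination ((-4 * c ^ 2 + 2 * aP c * c) * exp (-p 3)) * hs2
  · simp only [fZ, vf_2, sin_two_mul, cos_two_mul, bQ]
    simp
    generalize sin (p 2) = σ at *
    generalize cos (p 2) = c at *
    linear_combination (2 * c * dbP c) * hs2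
  · simp [fZ]

/-- first component of the direction field `V` -/
noncomputable def V1 (q : E4) : ℝ := -sin (q 2) * exp (q 3)
/-- second component of the direction field `V` -/
noncomputable def V2 (q : E4) : ℝ := cos (q 2) * exp (-q 3)

/-- derivative of `V1` -/
noncomputable def dV1 (p v : E4) : ℝ := exp (p 3) * (-cos (p 2) * v 2 - sin (p 2) * v 3)
/-- derivative of `V2` -/
noncomputable def dV2 (p v : E4) : ℝ := exp (-p 3) * (-sin (p 2) * v 2 - cos (p 2) * v 3)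

/-- derivative of `V1` as a linear map -/
noncomputable def dV1L (p : E4) : E4 →L[ℝ] ℝ :=
  (exp (p 3) * (-cos (p 2))) • prj 2 + (exp (p 3) * (-sin (p 2))) • prj 3
/-- derivative of `V2` as a linear map -/
noncomputable def dV2L (p : E4) : E4 →L[ℝ] ℝ :=
  (exp (-p 3) * (-sin (p 2))) • prj 2 + (exp (-p 3) * (-cos (p 2))) • prj 3

lemma dV1L_apply (p v : E4) : dV1L p v = dV1 p v := by simp [dV1L, dV1]; ring
lemma dV2L_apply (p v : E4) : dV2L p v = dV2 p v := by simp [dV2L, dV2]; ring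

lemma hasFDerivAt_V1 (p : E4) : HasFDerivAt V1 (dV1L p) p := by
  have c2 := hasFDerivAt_coord 2 p
  have c3 := hasFDerivAt_coord 3 p
  have k0 := ((hasDerivAt_sin (p 2)).neg.comp_hasFDerivAt p c2).mul (c3.exp)
  refine HasFDerivAt.congr_fderiv (f := V1) k0 ?_
  ext v
  simp [dV1L]
  ring

lemma hasFDerivAt_V2 (p : E4) : HasFDerivAt V2 (dV2L p) p := by
  have c2 := hasFDerivAt_coord 2 p
  have c3 := hasFDerivAt_coord 3 p
  have k0 := ((hasDerivAt_cos (p 2)).comp_hasFDerivAt p c2).mul (c3.neg.exp)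
  refine HasFDerivAt.congr_fderiv (f := V2) k0 ?_
  ext v
  simp [dV2L]
  ring

/-- the one-form annihilating `E = [D, D]` -/
noncomputable def al (p : E4) : E4 →L[ℝ] ℝ := V1 p • prj 1 - V2 p • prj 0

lemma al_apply (p v : E4) : al p v = V1 p * v 1 - V2 p * v 0 := by simp [al]

lemma hasFDerivAt_al (p : E4) :
    HasFDerivAt al ((dV1L p).smulRight (prj 1) - (dV2L p).smulRight (prj 0)) p :=
  ((hasFDerivAt_V1 p).smul_const (prj 1)).sub ((hasFDerivAt_V2 p).smul_const (prj 0))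

lemma fderiv_al (p v w : E4) : fderiv ℝ al p v w = dV1 p v * w 1 - dV2 p v * w 0 := by
  rw [(hasFDerivAt_al p).fderiv]
  simp [dV1L_apply, dV2L_apply]

/-- exterior derivative of `al` -/
noncomputable def dal (p v w : E4) : ℝ := fderiv ℝ al p v w - fderiv ℝ al p w v

lemma dal_eq (p v w : E4) : dal p v w =
    dV1 p v * w 1 - dV2 p v * w 0 - (dV1 p w * v 1 - dV2 p w * v 0) := by
  rw [dal, fderiv_al, fderiv_al]

end Pool.Agent.Helper454.Engel
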