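import Pool.Agent.Helper454.Fields

set_option autoImplicit false
set_option linter.unusedSectionVars false
open scoped Manifold ContDiff Topology
open Set Real VectorField

namespace Pool.Agent.Helper454.Engel

section general
variable {E : Type} [NormedAddCommGroup E] [NormedSpace ℝ E]

/-- bracket identity for a one-form vanishing on two fields -/
lemma form_bracket {θ : E → E →L[ℝ] ℝ} {X Y : E → E} {p : E}
    (hθ : DifferentiableAt ℝ θ p) (hX : DifferentiableAt ℝ X p) (hY : DifferentiableAt ℝ Y p)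
    (h1 : ∀ u, θ u (X u) = 0) (h2 : ∀ u, θ u (Y u) = 0) :
    θ p (lieBracket ℝ X Y p) = fderiv ℝ θ p (Y p) (X p) - fderiv ℝ θ p (X p) (Y p) := by
  have k1 := (hθ.hasFDerivAt.clm_apply hX.hasFDerivAt)
  have k2 := (hθ.hasFDerivAt.clm_apply hY.hasFDerivAt)
  have e1 : (fun u => θ u (X u)) = fun _ => (0 : ℝ) := by ext u; exact h1 u
  have e2 : (fun u => θ u (Y u)) = fun _ => (0 : ℝ) := by ext u; exact h2 u
  rw [e1] at k1
  rw [e2] at k2
  have z1 := k1.unique (hasFDerivAt_const (0 : ℝ) p)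
  have z2 := k2.unique (hasFDerivAt_const (0 : ℝ) p)
  have w1 := congrArg (fun L : E →L[ℝ] ℝ => L (Y p)) z1
  have w2 := congrArg (fun L : E →L[ℝ] ℝ => L (X p)) z2
  simp at w1 w2
  rw [lieBracket_eq]
  simp only [map_sub]
  linarith

/-- exterior derivative of a pullback -/
lemma pullback_form {al : E → E →L[ℝ] ℝ} {F : E → E} {p : E}
    (hal : DifferentiableAt ℝ al (F p)) (hF : ContDiff ℝ ∞ F) :
    DifferentiableAt ℝ (fun u => (al (F u)).comp (fderiv ℝ F u)) p ∧
    ∀ v w : E, fderiv ℝ (fun u => (al (F u)).comp (fderiv ℝ F u)) p v w -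
        fderiv ℝ (fun u => (al (F u)).comp (fderiv ℝ F u)) p w v =
      fderiv ℝ al (F p) (fderiv ℝ F p v) (fderiv ℝ F p w) -
        fderiv ℝ al (F p) (fderiv ℝ F p w) (fderiv ℝ F p v) := by
  have hFd : HasFDerivAt F (fderiv ℝ F p) p := (hF.differentiable (by simp) p).hasFDerivAt
  have hF2 : DifferentiableAt ℝ (fderiv ℝ F) p :=
    (hF.fderiv_right (m := ∞) (by simp)).differentiable (by simp) p
  have k1 := (hal.hasFDerivAt.comp p hFd)
  have k2 := k1.clm_comp hF2.hasFDerivAt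
  have k2' : HasFDerivAt (fun u => (al (F u)).comp (fderiv ℝ F u)) _ p := k2
  refine ⟨k2'.differentiableAt, fun v w => ?_⟩
  rw [k2'.fderiv]
  have hsymm : fderiv ℝ (fderiv ℝ F) p v w = fderiv ℝ (fderiv ℝ F) p w v := by
    have := (hF.contDiffAt (x := p)).isSymmSndFDerivAt
      (by rw [minSmoothness_of_isRCLikeNormedField]; exact ENat.LEInfty.out)
    exact this.eq v w
  simp
  rw [hsymm]
  ring

end general

/-! values of the fields -/
lemma fW_0 (p : E4) : fW p 0 = 0 := by simp [fW]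
lemma fW_1 (p : E4) : fW p 1 = 0 := by simp [fW]
lemma fW_2 (p : E4) : fW p 2 = -sin (2 * p 2) := by simp [fW]
lemma fW_3 (p : E4) : fW p 3 = 1 := by simp [fW]
lemma fL_0 (p : E4) : fL p 0 = aP (cos (p 2)) * V1 p := by simp [fL, V1]; ring
lemma fL_1 (p : E4) : fL p 1 = aP (cos (p 2)) * V2 p := by simp [fL, V2]; ring
lemma fL_2 (p : E4) : fL p 2 = bP (cos (p 2)) := by simp [fL]
lemma fL_3 (p : E4) : fL p 3 = 0 := by simp [fL]
lemma fZ_0 (p : E4) : fZ p 0 = aQ (cos (p 2)) * V1 p := by simp [fZ, V1]; ring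
lemma fZ_1 (p : E4) : fZ p 1 = aQ (cos (p 2)) * V2 p := by simp [fZ, V2]; ring
lemma fZ_2 (p : E4) : fZ p 2 = bQ (cos (p 2)) := by simp [fZ]
lemma fZ_3 (p : E4) : fZ p 3 = 0 := by simp [fZ]

lemma al_W (p : E4) : al p (fW p) = 0 := by rw [al_apply, fW_0, fW_1]; ring
lemma al_L (p : E4) : al p (fL p) = 0 := by rw [al_apply, fL_0, fL_1]; ring
lemma al_Z (p : E4) : al p (fZ p) = 0 := by rw [al_apply, fZ_0, fZ_1]; ring

lemma contDiff_aP : ContDiff ℝ ∞ aP := by unfold aP; fun_prop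
lemma contDiff_bP : ContDiff ℝ ∞ bP := by unfold bP; fun_prop
lemma contDiff_aQ : ContDiff ℝ ∞ aQ := by unfold aQ aP; fun_prop
lemma contDiff_bQ : ContDiff ℝ ∞ bQ := by unfold bQ dbP bP; fun_prop

lemma contDiff_fW : ContDiff ℝ ∞ fW := by
  apply contDiff_vf contDiff_const contDiff_const _ contDiff_const
  exact (Real.contDiff_sin.comp (contDiff_const.mul contDiff_id)).neg

lemma contDiff_fL : ContDiff ℝ ∞ fL := by
  have h1 := contDiff_aP.comp (Real.contDiff_cos (n := ∞))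
  have h2 := contDiff_bP.comp (Real.contDiff_cos (n := ∞))
  exact contDiff_vf (h1.mul Real.contDiff_sin.neg) (h1.mul Real.contDiff_cos) h2 contDiff_const

lemma contDiff_fZ : ContDiff ℝ ∞ fZ := by
  have h1 := contDiff_aQ.comp (Real.contDiff_cos (n := ∞))
  have h2 := contDiff_bQ.comp (Real.contDiff_cos (n := ∞))
  exact contDiff_vf (h1.mul Real.contDiff_sin.neg) (h1.mul Real.contDiff_cos) h2 contDiff_const

lemma sin_sq' (x : ℝ) : sin x ^ 2 = 1 - cos x ^ 2 := by
  have := sin_sq_add_cos_sq x; linarith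

lemma exp_mul_exp_neg (t : ℝ) : exp t * exp (-t) = 1 := by rw [← exp_add]; simp

lemma V1_dW (p : E4) : dV1 p (fW p) = (1 - 2 * cos (p 2) ^ 2) * V1 p := by
  rw [dV1, fW_2, fW_3, V1, sin_two_mul]
  have := sin_sq' (p 2)
  ring

lemma V2_dW (p : E4) : dV2 p (fW p) = (1 - 2 * cos (p 2) ^ 2) * V2 p := by
  rw [dV2, fW_2, fW_3, V2, sin_two_mul]
  have := sin_sq' (p 2)
  linear_combination (2 * cos (p 2) * exp (-p 3)) * this

lemma dal_W (p v : E4) : dal p (fW p) v = (1 - 2 * cos (p 2) ^ 2) * al p v := by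
  rw [dal_eq, V1_dW, V2_dW, fW_0, fW_1, al_apply]; ring

/-- the wedge of `V` with its derivative -/
lemma V_wedge (p v : E4) : V1 p * dV2 p v - V2 p * dV1 p v = v 2 + sin (2 * p 2) * v 3 := by
  rw [V1, V2, dV1, dV2, sin_two_mul]
  have h1 := sin_sq' (p 2)
  have h2 := exp_mul_exp_neg (p 3)
  linear_combination (exp (p 3) * exp (-p 3) * v 2) * h1 + (v 2 + 2 * sin (p 2) * cos (p 2) * v 3) * h2

lemma dal_L_Z (p : E4) : dal p (fL p) (fZ p) =
    -(bP (cos (p 2)) * aQ (cos (p 2)) - aP (cos (p 2)) * bQ (cos (p 2))) := by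
  have h1 := V_wedge p (fL p)
  have h2 := V_wedge p (fZ p)
  rw [fL_2, fL_3] at h1
  rw [fZ_2, fZ_3] at h2
  rw [dal_eq, fL_0, fL_1, fZ_0, fZ_1]
  linear_combination (-aQ (cos (p 2))) * h1 + aP (cos (p 2)) * h2

lemma dal_L_Z_ne (p : E4) : dal p (fL p) (fZ p) < 0 := by
  rw [dal_L_Z]
  have := R_pos (cos (p 2))
  linarith

lemma V_dual (p : E4) :
    (-sin (p 2) * exp (-p 3)) * V1 p + (cos (p 2) * exp (p 3)) * V2 p = 1 := by
  rw [V1, V2]
  have h1 := sin_sq' (p 2)
  have h2 := exp_mul_exp_neg (p 3)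
  linear_combination (exp (p 3) * exp (-p 3)) * h1 + h2

lemma solve2 (a b a' b' h g : ℝ) (hD : a * b' - b * a' ≠ 0) :
    ∃ x y : ℝ, a * x + a' * y = h ∧ b * x + b' * y = g := by
  refine ⟨(h * b' - g * a') * (a * b' - b * a')⁻¹, (a * g - b * h) * (a * b' - b * a')⁻¹, ?_, ?_⟩
  · have := mul_inv_cancel₀ hD
    linear_combination h * this
  · have := mul_inv_cancel₀ hD
    linear_combination g * this

lemma decomp (p v : E4) (h : al p v = 0) :
    ∃ x y : ℝ, v = v 3 • fW p + x • fL p + y • fZ p := by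
  set a := aP (cos (p 2)) with ha
  set b := bP (cos (p 2)) with hb
  set a' := aQ (cos (p 2)) with ha'
  set b' := bQ (cos (p 2)) with hb'
  have hR := R_pos (cos (p 2))
  rw [← ha, ← hb, ← ha', ← hb'] at hR
  have hD : a * b' - b * a' ≠ 0 := by
    intro h0; linarith
  set c1 := -sin (p 2) * exp (-p 3) with hc1
  set c2 := cos (p 2) * exp (p 3) with hc2
  have hdual : c1 * V1 p + c2 * V2 p = 1 := V_dual p
  set hh := c1 * v 0 + c2 * v 1 with hhh
  set g := v 2 + sin (2 * p 2) * v 3 with hg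
  rw [al_apply] at h
  have hv0 : v 0 = hh * V1 p := by
    rw [hhh]; linear_combination (-(v 0)) * hdual - c2 * h
  have hv1 : v 1 = hh * V2 p := by
    rw [hhh]; linear_combination (-(v 1)) * hdual + c1 * h
  obtain ⟨x, y, hax, hbx⟩ := solve2 a b a' b' hh g hD
  refine ⟨x, y, ?_⟩
  apply E4_ext
  · simp only [PiLp.add_apply, PiLp.smul_apply, smul_eq_mul, fW_0, fL_0, fZ_0]
    rw [← ha, ← ha']
    linear_combination hv0 - V1 p * hax
  · simp only [PiLp.add_apply, PiLp.smul_apply, smul_eq_mul, fW_1, fL_1, fZ_1]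
    rw [← ha, ← ha']
    linear_combination hv1 - V2 p * hax
  · simp only [PiLp.add_apply, PiLp.smul_apply, smul_eq_mul, fW_2, fL_2, fZ_2]
    rw [← hb, ← hb']
    linear_combination hg - hbx
  · simp only [PiLp.add_apply, PiLp.smul_apply, smul_eq_mul, fW_3, fL_3, fZ_3]
    ring

end Pool.Agent.Helper454.Engel
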