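import Mathlib

set_option autoImplicit false
set_option linter.unusedSectionVars false
open scoped Manifold ContDiff Topology
open Set Real

namespace Pool.Agent.Helper454.Engel

/-- the four dimensional model space -/
abbrev E4 := EuclideanSpace ℝ (Fin 4)

/-- golden ratio -/
noncomputable abbrev gr : ℝ := Real.goldenRatio
/-- conjugate golden ratio -/
noncomputable abbrev gc : ℝ := Real.goldenConj

/-- multiplication by the golden ratio on `ℤ[φ]`, with the pair `(a,b)` standing for `a + bφ` -/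
def mulPhi : AddAut (ℤ × ℤ) where
  toFun n := (n.2, n.1 + n.2)
  invFun n := (n.2 - n.1, n.1)
  left_inv n := by ext <;> simp
  right_inv n := by ext <;> simp
  map_add' n m := by ext <;> simp; ring

@[simp] lemma mulPhi_apply (n : ℤ × ℤ) : mulPhi n = (n.2, n.1 + n.2) := rfl

/-- first real embedding -/
noncomputable def e1 : (ℤ × ℤ) →+ ℝ where
  toFun n := n.1 + n.2 * gr
  map_zero' := by simp
  map_add' n m := by push_cast [Prod.fst_add, Prod.snd_add]; ring

/-- second real embedding -/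
noncomputable def e2 : (ℤ × ℤ) →+ ℝ where
  toFun n := n.1 + n.2 * gc
  map_zero' := by simp
  map_add' n m := by push_cast [Prod.fst_add, Prod.snd_add]; ring

lemma e1_apply (n : ℤ × ℤ) : e1 n = n.1 + n.2 * gr := rfl
lemma e2_apply (n : ℤ × ℤ) : e2 n = n.1 + n.2 * gc := rfl

lemma e1_mulPhi (n : ℤ × ℤ) : e1 (mulPhi n) = gr * e1 n := by
  have h := Real.goldenRatio_sq
  simp only [e1_apply, mulPhi_apply]
  push_cast
  linear_combination (-(n.2 : ℝ)) * h

lemma e2_mulPhi (n : ℤ × ℤ) : e2 (mulPhi n) = gc * e2 n := by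
  have h := Real.goldenConj_sq
  simp only [e2_apply, mulPhi_apply]
  push_cast
  linear_combination (-(n.2 : ℝ)) * h

lemma gr_pos : 0 < gr := Real.goldenRatio_pos
lemma gr_ne : gr ≠ 0 := Real.goldenRatio_ne_zero
lemma gc_ne : gc ≠ 0 := Real.goldenConj_ne_zero

lemma e1_zpow (m : ℤ) (n : ℤ × ℤ) : e1 ((m • mulPhi : AddAut (ℤ × ℤ)) n) = gr ^ m * e1 n := by
  induction m using Int.induction_on generalizing n with
  | zero => simp
  | succ k ih =>
    rw [add_zsmul, one_zsmul, AddAut.add_apply, ih, e1_mulPhi, zpow_add_one₀ gr_ne]; ring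
  | pred k ih =>
    rw [zpow_sub_one₀ gr_ne, sub_zsmul, one_zsmul, AddAut.add_apply, ih]
    have h := e1_mulPhi ((-mulPhi : AddAut (ℤ × ℤ)) n)
    rw [AddAut.apply_neg_self] at h
    rw [h, mul_assoc, inv_mul_cancel_left₀ gr_ne]

lemma e2_zpow (m : ℤ) (n : ℤ × ℤ) : e2 ((m • mulPhi : AddAut (ℤ × ℤ)) n) = gc ^ m * e2 n := by
  induction m using Int.induction_on generalizing n with
  | zero => simp
  | succ k ih =>
    rw [add_zsmul, one_zsmul, AddAut.add_apply, ih, e2_mulPhi, zpow_add_one₀ gc_ne]; ring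
  | pred k ih =>
    rw [zpow_sub_one₀ gc_ne, sub_zsmul, one_zsmul, AddAut.add_apply, ih]
    have h := e2_mulPhi ((-mulPhi : AddAut (ℤ × ℤ)) n)
    rw [AddAut.apply_neg_self] at h
    rw [h, mul_assoc, inv_mul_cancel_left₀ gc_ne]

lemma e1_injective : Function.Injective e1 := by
  rw [injective_iff_map_eq_zero]
  intro n hn
  have hirr := Real.goldenRatio_irrational
  rw [e1_apply] at hn
  by_cases h2 : n.2 = 0
  · have : (n.1 : ℝ) = 0 := by simpa [h2] using hn
    ext
    · simpa using this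
    · simpa using h2
  · exfalso
    have h2' : (n.2 : ℝ) ≠ 0 := by exact_mod_cast h2
    apply hirr
    refine ⟨-(n.1 : ℚ) / n.2, ?_⟩
    push_cast
    rw [div_eq_iff h2']
    linarith

/-- the sign automorphism -/
def Gam.sgn (m : ℤ) (k : ℤ) : ℤ := ((-1 : ℤˣ) ^ m : ℤˣ) * k

/-- The deck group `ℤ[φ] × ℤ ⋊ ℤ`. -/
@[ext] structure Gam where
  /-- lattice translation -/
  n : ℤ × ℤ
  /-- angular translation -/
  k : ℤ
  /-- suspension coordinate -/
  m : ℤ

namespace Gam

instance : Mul Gam := ⟨fun g h =>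
  ⟨g.n + (g.m • mulPhi : AddAut (ℤ × ℤ)) h.n, g.k + sgn g.m h.k, g.m + h.m⟩⟩
instance : One Gam := ⟨⟨0, 0, 0⟩⟩
instance : Inv Gam := ⟨fun g =>
  ⟨-((-g.m) • mulPhi : AddAut (ℤ × ℤ)) g.n, -sgn (-g.m) g.k, -g.m⟩⟩

@[simp] lemma mul_n (g h : Gam) : (g * h).n = g.n + (g.m • mulPhi : AddAut (ℤ × ℤ)) h.n := rfl
@[simp] lemma mul_k (g h : Gam) : (g * h).k = g.k + sgn g.m h.k := rfl
@[simp] lemma mul_m (g h : Gam) : (g * h).m = g.m + h.m := rfl
@[simp] lemma one_n : (1 : Gam).n = 0 := rfl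
@[simp] lemma one_k : (1 : Gam).k = 0 := rfl
@[simp] lemma one_m : (1 : Gam).m = 0 := rfl
@[simp] lemma inv_n (g : Gam) : (g⁻¹).n = -((-g.m) • mulPhi : AddAut (ℤ × ℤ)) g.n := rfl
@[simp] lemma inv_k (g : Gam) : (g⁻¹).k = -sgn (-g.m) g.k := rfl
@[simp] lemma inv_m (g : Gam) : (g⁻¹).m = -g.m := rfl

lemma sgn_add (m m' k : ℤ) : sgn (m + m') k = sgn m (sgn m' k) := by
  simp [sgn, zpow_add, mul_assoc]

lemma sgn_map_add (m k k' : ℤ) : sgn m (k + k') = sgn m k + sgn m k' := by
  simp [sgn, mul_add]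

@[simp] lemma sgn_zero_left (k : ℤ) : sgn 0 k = k := by simp [sgn]
@[simp] lemma sgn_zero_right (m : ℤ) : sgn m 0 = 0 := by simp [sgn]
@[simp] lemma sgn_one_left (k : ℤ) : sgn 1 k = -k := by simp [sgn]

instance : Group Gam := Group.ofLeftAxioms
  (by
    intro g h l
    ext1
    · simp [add_zsmul, AddAut.add_apply, map_add, add_assoc]
    · simp [sgn_add, sgn_map_add, add_assoc]
    · simp [add_assoc])
  (by
    intro g
    ext1 <;> simp)
  (by
    intro g
    ext1
    · simp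
    · simp
    · simp)

end Gam

/-- the action on the model space, as a function -/
noncomputable def act (g : Gam) (p : E4) : E4 :=
  !₂[gr ^ g.m * p 0 + e1 g.n, gc ^ g.m * p 1 + e2 g.n,
    (-1 : ℝ) ^ g.m * p 2 + 2 * π * g.k, p 3 + g.m * Real.log gr]

@[simp] lemma act_0 (g : Gam) (p : E4) : act g p 0 = gr ^ g.m * p 0 + e1 g.n := by simp [act]
@[simp] lemma act_1 (g : Gam) (p : E4) : act g p 1 = gc ^ g.m * p 1 + e2 g.n := by simp [act]
@[simp] lemma act_2 (g : Gam) (p : E4) : act g p 2 = (-1 : ℝ) ^ g.m * p 2 + 2 * π * g.k := by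
  simp [act]
@[simp] lemma act_3 (g : Gam) (p : E4) : act g p 3 = p 3 + g.m * Real.log gr := by simp [act]

lemma E4_ext {p q : E4} (h0 : p 0 = q 0) (h1 : p 1 = q 1) (h2 : p 2 = q 2) (h3 : p 3 = q 3) :
    p = q := by
  ext i
  fin_cases i
  · exact h0
  · exact h1
  · exact h2
  · exact h3

lemma units_zpow_cast (m : ℤ) : ((((-1 : ℤˣ) ^ m : ℤˣ) : ℤ) : ℝ) = (-1 : ℝ) ^ m := by
  rcases Int.even_or_odd' m with ⟨j, rfl | rfl⟩
  · rw [zpow_mul, zpow_mul]; norm_num
  · rw [zpow_add, zpow_mul, zpow_add₀ (by norm_num), zpow_mul]; norm_num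

lemma sgn_cast (m k : ℤ) : ((Gam.sgn m k : ℤ) : ℝ) = (-1 : ℝ) ^ m * k := by
  rw [Gam.sgn]
  push_cast
  rw [← units_zpow_cast]

noncomputable instance : MulAction Gam E4 where
  smul := act
  one_smul p := by
    apply E4_ext
    · change act 1 p 0 = _; simp
    · change act 1 p 1 = _; simp
    · change act 1 p 2 = _; simp
    · change act 1 p 3 = _; simp
  mul_smul g h p := by
    have hg := gr_ne
    have hc := gc_ne
    apply E4_ext
    · change act (g * h) p 0 = act g (act h p) 0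
      simp [e1_zpow, zpow_add₀ hg]; ring
    · change act (g * h) p 1 = act g (act h p) 1
      simp [e2_zpow, zpow_add₀ hc]; ring
    · change act (g * h) p 2 = act g (act h p) 2
      simp [sgn_cast, zpow_add₀ (show (-1 : ℝ) ≠ 0 by norm_num)]; ring
    · change act (g * h) p 3 = act g (act h p) 3
      simp; ring

lemma smul_def (g : Gam) (p : E4) : g • p = act g p := rfl

end Pool.Agent.Helper454.Engel
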