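import Pool.Agent.Helper454.Assem

set_option autoImplicit false
set_option linter.unusedSectionVars false
open scoped Manifold ContDiff Topology
open Set Real VectorField

namespace Pool.Agent.Helper454.Engel

lemma abs_gc_ne : |gc| ≠ 1 := by
  have h : gr * gc = -1 := gr_gc
  intro h1
  have h2 : |gr * gc| = 1 := by rw [h]; simp
  rw [abs_mul, h1, mul_one, abs_of_pos gr_pos] at h2
  have := one_lt_gr
  linarith

lemma abs_gr_ne : |gr| ≠ 1 := by
  rw [abs_of_pos gr_pos]
  exact one_lt_gr.ne'

theorem normal_lift (f : Diffeomorph (𝓡 4) (𝓡 4) Mf Mf ∞)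
    (hf : ∀ x : Mf, ∀ v : TangentSpace (𝓡 4) x, v ∈ Ds x →
      mfderiv (𝓡 4) (𝓡 4) (⇑f) x v ∈ Ds (f x)) :
    ∃ F : E4 → E4, (∀ p, pr (F p) = f (pr p)) ∧ IsPres F ∧
      ∃ ε : ℝ, (ε = 1 ∨ ε = -1) ∧ (∀ p, F p 0 = ε * p 0) ∧ (∀ p, F p 1 = ε * p 1) := by
  obtain ⟨F, hFc, hF, χ, hχ, k, ε, hε, hm, hT, hR⟩ := lift_data f
  have hP := isPres_of_lift f hf hFc hF
  set n0 := (χ tau').n with hn0
  set c := mulPhi n0 with hc
  have hcc : n0 + c = mulPhi c := by
    rw [hc]
    ext
    · simp [mulPhi_apply]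
    · simp [mulPhi_apply]
  have hFd : Differentiable ℝ F := hP.smooth.differentiable (by simp)
  have hcoord : ∀ (i : Fin 4) (p v : E4), fderiv ℝ (fun q => F q i) p v = fderiv ℝ F p v i :=
    fun i p v => (fderiv_comp_coord (hFd p) v i).symm
  have hFi : ∀ i : Fin 4, Differentiable ℝ (fun q => F q i) := fun i p =>
    ((prj i).hasFDerivAt.comp p (hFd p).hasFDerivAt).differentiableAt
  have hci : ∀ i : Fin 4, Differentiable ℝ (fun q : E4 => q i) := fun i p =>
    (hasFDerivAt_coord i p).differentiableAt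
  -- the two functions
  have main0 : ∀ p, F p 0 + e1 c - ε * gr ^ k * p 0 = 0 := by
    refine zero_of_scaling (g := fun p => F p 0 + e1 c - ε * gr ^ k * p 0) (r := gr)
      (((hFi 0).add_const _).sub ((hci 0).const_mul _)) ?_ ?_ abs_gr_ne ?_
    · intro p
      have h1 : HasFDerivAt (fun q => F q 0 + e1 c - ε * gr ^ k * q 0)
        (fderiv ℝ (fun q => F q 0) p - (ε * gr ^ k) • prj 0) p :=
        (((hFi 0) p).hasFDerivAt.add_const _).sub ((hasFDerivAt_coord 0 p).const_mul _)
      rw [h1.fderiv]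
      obtain ⟨c', hc'⟩ := hP.W_to_W p
      simp only [sub_apply, smul_apply, smul_eq_mul]
      rw [hcoord, hc']
      simp [fW_0]
    · intro n j p
      simp only
      rw [T_rho, mul_smul, hχ, hχ, smul_apply_0, smul_apply_0, smul_apply_0, smul_apply_0,
        (hT n).1, (hT n).2.2.1, (hR j).1, (hR j).2]
      simp [T, rho]
      ring
    · intro p
      simp only
      have ht : tau = tau' := rfl
      rw [ht, hχ, smul_apply_0, smul_apply_0, hm]
      have h1 : e1 (χ tau').n = gr * e1 c - e1 c := by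
        rw [← e1_mulPhi, ← hcc, map_add]; ring
      rw [h1]
      simp [tau']
      ring
  have main1 : ∀ p, F p 1 + e2 c - ε * gc ^ k * p 1 = 0 := by
    refine zero_of_scaling (g := fun p => F p 1 + e2 c - ε * gc ^ k * p 1) (r := gc)
      (((hFi 1).add_const _).sub ((hci 1).const_mul _)) ?_ ?_ abs_gc_ne ?_
    · intro p
      have h1 : HasFDerivAt (fun q => F q 1 + e2 c - ε * gc ^ k * q 1)
        (fderiv ℝ (fun q => F q 1) p - (ε * gc ^ k) • prj 1) p :=
        (((hFi 1) p).hasFDerivAt.add_const _).sub ((hasFDerivAt_coord 1 p).const_mul _)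
      rw [h1.fderiv]
      obtain ⟨c', hc'⟩ := hP.W_to_W p
      simp only [sub_apply, smul_apply, smul_eq_mul]
      rw [hcoord, hc']
      simp [fW_1]
    · intro n j p
      simp only
      rw [T_rho, mul_smul, hχ, hχ, smul_apply_1, smul_apply_1, smul_apply_1, smul_apply_1,
        (hT n).1, (hT n).2.2.2, (hR j).1, (hR j).2]
      simp [T, rho]
      ring
    · intro p
      simp only
      have ht : tau = tau' := rfl
      rw [ht, hχ, smul_apply_1, smul_apply_1, hm]
      have h1 : e2 (χ tau').n = gc * e2 c - e2 c := by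
        rw [← e2_mulPhi, ← hcc, map_add]; ring
      rw [h1]
      simp [tau']
      ring
  set g : Gam := ⟨0, 0, -k⟩ * T c with hg
  have hF2 : ∀ p, pr (g • F p) = f (pr p) := fun p => by
    rw [pr_cov.map_smul, hF]
  have hF2c : Continuous fun p => g • F p := (continuous_const_smul g).comp hFc
  refine ⟨fun p => g • F p, hF2, isPres_of_lift f hf hF2c hF2, ε, hε, fun p => ?_, fun p => ?_⟩
  · have h1 := main0 p
    simp only
    rw [hg, mul_smul, smul_apply_0, smul_apply_0]
    simp only [T, zpow_zero, one_mul, map_zero, add_zero]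
    have h2 : F p 0 + e1 c = ε * gr ^ k * p 0 := by linarith
    have h3 : gr ^ (-k) * gr ^ k = 1 := by rw [← zpow_add₀ gr_ne]; simp
    rw [h2]
    linear_combination (ε * p 0) * h3
  · have h1 := main1 p
    simp only
    rw [hg, mul_smul, smul_apply_1, smul_apply_1]
    simp only [T, zpow_zero, one_mul, map_zero, add_zero]
    have h2 : F p 1 + e2 c = ε * gc ^ k * p 1 := by linarith
    have h3 : gc ^ (-k) * gc ^ k = 1 := by rw [← zpow_add₀ gc_ne]; simp
    rw [h2]
    linear_combination (ε * p 1) * h3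

end Pool.Agent.Helper454.Engel
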