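import Pool.Agent.Helper454.EngelE

set_option autoImplicit false
set_option linter.unusedSectionVars false
open scoped Manifold ContDiff Topology
open Set Real VectorField

namespace Pool.Agent.Helper454.Engel

lemma indep3 (p : E4) (x y z : ℝ) (h : x • fW p + y • fL p + z • fZ p = 0) :
    x = 0 ∧ y = 0 ∧ z = 0 := by
  have e0 := congrArg (fun v : E4 => v 0) h
  have e1 := congrArg (fun v : E4 => v 1) h
  have e2 := congrArg (fun v : E4 => v 2) h
  have e3 := congrArg (fun v : E4 => v 3) h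
  simp only [PiLp.add_apply, PiLp.smul_apply, smul_eq_mul, fW_0, fL_0, fZ_0, fW_1, fL_1, fZ_1,
    fW_2, fL_2, fZ_2, fW_3, fL_3, fZ_3, PiLp.zero_apply] at e0 e1 e2 e3
  set a := aP (cos (p 2)) with ha
  set b := bP (cos (p 2)) with hb
  set a' := aQ (cos (p 2)) with ha'
  set b' := bQ (cos (p 2)) with hb'
  have hR := R_pos (cos (p 2))
  rw [← ha, ← hb, ← ha', ← hb'] at hR
  have x0 : x = 0 := by linarith
  rw [x0] at e0 e1 e2
  have hA : y * a + z * a' = 0 := by
    rcases V_ne p with h | h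
    · apply mul_right_cancel₀ h
      linarith
    · apply mul_right_cancel₀ h
      linarith
  have hB : y * b + z * b' = 0 := by linarith
  refine ⟨x0, ?_, ?_⟩
  · have : y * (b * a' - a * b') = 0 := by
      linear_combination (-b') * hA + a' * hB
    rcases mul_eq_zero.1 this with h | h
    · exact h
    · linarith
  · have : z * (b * a' - a * b') = 0 := by linear_combination b * hA - a * hB
    rcases mul_eq_zero.1 this with h | h
    · exact h
    · linarith

lemma dal_swap (p v w : E4) : dal p v w = - dal p w v := by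
  simp only [dal]; ring

lemma dal_self (p v : E4) : dal p v v = 0 := by
  simp only [dal]; ring

lemma dal_add_left (p v v' w : E4) : dal p (v + v') w = dal p v w + dal p v' w := by
  simp only [dal, map_add, add_apply]; ring

lemma dal_smul_left (p v w : E4) (c : ℝ) : dal p (c • v) w = c * dal p v w := by
  simp only [dal, map_smul, smul_apply, smul_eq_mul]; ring

lemma dal_add_right (p v w w' : E4) : dal p v (w + w') = dal p v w + dal p v w' := by
  simp only [dal, map_add, add_apply]; ring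

lemma dal_smul_right (p v w : E4) (c : ℝ) : dal p v (c • w) = c * dal p v w := by
  simp only [dal, map_smul, smul_apply, smul_eq_mul]; ring

/-- hypotheses on a lift -/
structure IsPres (F : E4 → E4) : Prop where
  smooth : ContDiff ℝ ∞ F
  inj : ∀ p v, fderiv ℝ F p v = 0 → v = 0
  presW : ∀ p, ∃ c1 c2 : ℝ, fderiv ℝ F p (fW p) = c1 • fW (F p) + c2 • fL (F p)
  presL : ∀ p, ∃ d1 d2 : ℝ, fderiv ℝ F p (fL p) = d1 • fW (F p) + d2 • fL (F p)

/-- the pulled back form -/
noncomputable def pal (F : E4 → E4) (u : E4) : E4 →L[ℝ] ℝ := (al (F u)).comp (fderiv ℝ F u)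

lemma pal_apply (F : E4 → E4) (u v : E4) : pal F u v = al (F u) (fderiv ℝ F u v) := rfl

variable {F : E4 → E4}

lemma IsPres.pal_W (h : IsPres F) (p : E4) : pal F p (fW p) = 0 := by
  obtain ⟨c1, c2, hc⟩ := h.presW p
  rw [pal_apply, hc]
  simp [al_W, al_L]

lemma IsPres.pal_L (h : IsPres F) (p : E4) : pal F p (fL p) = 0 := by
  obtain ⟨c1, c2, hc⟩ := h.presL p
  rw [pal_apply, hc]
  simp [al_W, al_L]

lemma IsPres.pal_diff (h : IsPres F) (p : E4) : DifferentiableAt ℝ (pal F) p :=
  (pullback_form (diff_al (F p)) h.smooth).1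

lemma IsPres.pal_d (h : IsPres F) (p v w : E4) :
    fderiv ℝ (pal F) p v w - fderiv ℝ (pal F) p w v =
      dal (F p) (fderiv ℝ F p v) (fderiv ℝ F p w) :=
  (pullback_form (diff_al (F p)) h.smooth).2 v w

lemma IsPres.pal_Z (h : IsPres F) (p : E4) : pal F p (fZ p) = 0 := by
  have h1 := form_bracket (h.pal_diff p) (fd _ contDiff_fW p) (fd _ contDiff_fL p)
    h.pal_W h.pal_L
  rw [bracket_W_L, h.pal_d] at h1
  rw [h1]
  obtain ⟨c1, c2, hc⟩ := h.presW p
  obtain ⟨d1, d2, hd⟩ := h.presL p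
  rw [hc, hd]
  have k : dal (F p) (fW (F p)) (fL (F p)) = 0 := by rw [dal_W, al_L]; ring
  have k' : dal (F p) (fL (F p)) (fW (F p)) = 0 := by rw [dal_swap, k]; ring
  simp only [dal_add_left, dal_add_right, dal_smul_left, dal_smul_right, dal_self, k, k']
  ring

lemma IsPres.pal_ker (h : IsPres F) (p v : E4) (hv : al p v = 0) : pal F p v = 0 := by
  obtain ⟨x, y, hxy⟩ := decomp p v hv
  rw [hxy]
  simp only [map_add, map_smul, h.pal_W, h.pal_L, h.pal_Z]
  simp

lemma IsPres.W_to_W (h : IsPres F) (p : E4) : ∃ c : ℝ, fderiv ℝ F p (fW p) = c • fW (F p) := by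
  obtain ⟨c1, c2, hc⟩ := h.presW p
  obtain ⟨d1, d2, hd⟩ := h.presL p
  by_cases hc2 : c2 = 0
  · exact ⟨c1, by rw [hc, hc2]; simp⟩
  exfalso
  have h1 := form_bracket (h.pal_diff p) (fd _ contDiff_fW p) (fd _ contDiff_fZ p)
    h.pal_W h.pal_Z
  have h2 := form_bracket (diff_al p) (fd _ contDiff_fW p) (fd _ contDiff_fZ p)
    al_W al_Z
  have h3 : al p (lieBracket ℝ fW fZ p) = 0 := by
    rw [h2]
    change dal p (fZ p) (fW p) = 0
    rw [dal_swap, dal_W, al_Z]; ring
  rw [h.pal_ker _ _ h3, h.pal_d] at h1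
  have h4 : al (F p) (fderiv ℝ F p (fZ p)) = 0 := h.pal_Z p
  obtain ⟨x, y, hxy⟩ := decomp _ _ h4
  set z0 := (fderiv ℝ F p (fZ p)) 3 with hz0
  rw [hxy, hc] at h1
  have k : dal (F p) (fW (F p)) (fL (F p)) = 0 := by rw [dal_W, al_L]; ring
  have k' : dal (F p) (fL (F p)) (fW (F p)) = 0 := by rw [dal_swap, k]; ring
  have k2 : dal (F p) (fZ (F p)) (fW (F p)) = 0 := by rw [dal_swap, dal_W, al_Z]; ring
  have k3 : dal (F p) (fZ (F p)) (fL (F p)) = - dal (F p) (fL (F p)) (fZ (F p)) := dal_swap _ _ _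
  simp only [dal_add_left, dal_add_right, dal_smul_left, dal_smul_right, dal_self, k, k', k2,
    k3] at h1
  have hne := dal_L_Z_ne (F p)
  have hy : y = 0 := by
    have h5 : c2 * y * dal (F p) (fL (F p)) (fZ (F p)) = 0 := by linear_combination h1
    rcases mul_eq_zero.1 h5 with h6 | h6
    · rcases mul_eq_zero.1 h6 with h7 | h7
      · exact absurd h7 hc2
      · exact h7
    · exact absurd h6 hne.ne
  rw [hy] at hxy
  -- a nontrivial combination in the kernel
  have hu : fderiv ℝ F p ((d1 * x - d2 * z0) • fW p + (c2 * z0 - c1 * x) • fL p +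
      (c1 * d2 - c2 * d1) • fZ p) = 0 := by
    simp only [map_add, map_smul, hc, hd, hxy]
    module
  obtain ⟨-, -, h6⟩ := indep3 p _ _ _ (h.inj p _ hu)
  have hu2 : fderiv ℝ F p (d2 • fW p + (-c2) • fL p + (0 : ℝ) • fZ p) = 0 := by
    simp only [map_add, map_smul, hc, hd]
    have : d2 • (c1 • fW (F p) + c2 • fL (F p)) + (-c2) • (d1 • fW (F p) + d2 • fL (F p)) +
      (0 : ℝ) • fderiv ℝ F p (fZ p) = (c1 * d2 - c2 * d1) • fW (F p) := by module
    rw [this, h6, zero_smul]
  obtain ⟨-, h7, -⟩ := indep3 p _ _ _ (h.inj p _ hu2)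
  exact hc2 (by linarith)

end Pool.Agent.Helper454.Engel
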