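import Mathlib

set_option autoImplicit false
set_option linter.unusedSectionVars false
set_option linter.unusedSimpArgs false
open scoped Manifold ContDiff Topology
open Set

namespace Pool.Agent.Helper454.QuotMfd

variable {E : Type} [NormedAddCommGroup E] [NormedSpace ℝ E]
variable {G : Type} [Group G] [MulAction G E]
variable {M : Type} [TopologicalSpace M] {q : E → M}

/-- local description of local inverses -/
lemma localInverse_eq_smul (hq : IsQuotientCoveringMap q G) (x v : E)
    (hv : q v ∈ (hq.isCoveringMap.isLocalHomeomorph.localInverseAt x).source) :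
    ∃ g : G, ∀ᶠ u in 𝓝 v, hq.isCoveringMap.isLocalHomeomorph.localInverseAt x (q u) = g • u := by
  set hl := hq.isCoveringMap.isLocalHomeomorph
  set w := hl.localInverseAt x (q v) with hw
  have hqw : q w = q v := hl.apply_localInverseAt_of_mem hv
  obtain ⟨g, hg⟩ := hq.apply_eq_iff_mem_orbit.mp hqw
  have hcs := hq.toContinuousConstSMul
  refine ⟨g, ?_⟩
  have hwt : w ∈ (hl.localInverseAt x).target := (hl.localInverseAt x).map_source hv
  have h1 : ∀ᶠ u in 𝓝 v, g • u ∈ (hl.localInverseAt x).target := by
    have hc : Continuous fun u : E => g • u := continuous_const_smul g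
    have : g • v ∈ (hl.localInverseAt x).target := by
      have : g • v = w := hg
      rw [this]; exact hwt
    exact hc.continuousAt.preimage_mem_nhds ((hl.localInverseAt x).open_target.mem_nhds this)
  have h2 : ∀ᶠ u in 𝓝 v, q u ∈ (hl.localInverseAt x).source :=
    hq.continuous.continuousAt.preimage_mem_nhds
      ((hl.localInverseAt x).open_source.mem_nhds hv)
  filter_upwards [h1, h2] with u hu1 hu2
  apply hl.injOn_localInverseAt_target (x := x)
  · exact (hl.localInverseAt x).map_source hu2
  · exact hu1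
  · rw [hl.apply_localInverseAt_of_mem hu2]
    exact (hq.map_smul g).symm

/-- the quotient charted space -/
@[reducible] noncomputable def cs (hq : IsQuotientCoveringMap q G) : ChartedSpace E M :=
  hq.isCoveringMap.isLocalHomeomorph.chartedSpace hq.surjective

/-- the global set-theoretic section used by the charts -/
noncomputable def sec (hq : IsQuotientCoveringMap q G) : M → E :=
  hq.surjective.hasRightInverse.choose

lemma sec_spec (hq : IsQuotientCoveringMap q G) (y : M) : q (sec hq y) = y :=
  hq.surjective.hasRightInverse.choose_spec y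

lemma chartAt_eq (hq : IsQuotientCoveringMap q G) (y : M) :
    letI := cs hq
    chartAt E y = hq.isCoveringMap.isLocalHomeomorph.localInverseAt (sec hq y) := by
  let _ := cs hq
  have : chartAt E y = (hq.isCoveringMap.isLocalHomeomorph.localInverseAt (sec hq y)).trans
    (chartAt E (sec hq y)) := rfl
  rw [this, chartAt_self_eq, OpenPartialHomeomorph.trans_refl]

lemma extChartAt_coe (hq : IsQuotientCoveringMap q G) (y : M) :
    letI := cs hq
    ⇑(extChartAt 𝓘(ℝ, E) y) = hq.isCoveringMap.isLocalHomeomorph.localInverseAt (sec hq y) := by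
  let _ := cs hq
  simp [extChartAt, chartAt_eq]

lemma extChartAt_symm_coe (hq : IsQuotientCoveringMap q G) (y : M) :
    letI := cs hq
    ⇑(extChartAt 𝓘(ℝ, E) y).symm = q := by
  let _ := cs hq
  simp only [extChartAt, chartAt_eq]
  simp

lemma extChartAt_self (hq : IsQuotientCoveringMap q G) (y : M) :
    letI := cs hq
    extChartAt 𝓘(ℝ, E) y y = sec hq y := by
  let _ := cs hq
  rw [extChartAt_coe]
  have h := hq.isCoveringMap.isLocalHomeomorph.localInverseAt_apply_self (x := sec hq y)
  rwa [sec_spec hq] at h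

lemma isManifold (hq : IsQuotientCoveringMap q G)
    (hs : ∀ g : G, ContDiff ℝ ∞ (fun p : E => g • p)) :
    letI := cs hq
    IsManifold 𝓘(ℝ, E) ∞ M := by
  let _ := cs hq
  apply isManifold_of_contDiffOn
  rintro e e' ⟨y, rfl⟩ ⟨y', rfl⟩
  set hl := hq.isCoveringMap.isLocalHomeomorph with hldef
  set g0 := hq.surjective.hasRightInverse.choose
  intro v hv
  simp only [modelWithCornersSelf_coe, modelWithCornersSelf_coe_symm, preimage_id_eq, id_eq,
    range_id, inter_univ, OpenPartialHomeomorph.coe_trans, Function.comp_def, chartAt_self_eq,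
    OpenPartialHomeomorph.trans_refl, IsLocalHomeomorph.localInverseAt_symm] at hv ⊢
  rw [OpenPartialHomeomorph.trans_source] at hv
  have hv2 : q v ∈ (hl.localInverseAt (g0 y')).source := by
    have := hv.2
    rwa [mem_preimage, hl.localInverseAt_symm] at this
  obtain ⟨g, hg⟩ := localInverse_eq_smul hq (g0 y') v hv2
  have h1 : ContDiffAt ℝ ∞ (fun u => hl.localInverseAt (g0 y') (q u)) v :=
    (hs g).contDiffAt.congr_of_eventuallyEq hg
  exact h1.contDiffWithinAt

lemma contMDiff_proj (hq : IsQuotientCoveringMap q G)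
    (hs : ∀ g : G, ContDiff ℝ ∞ (fun p : E => g • p)) :
    letI := cs hq
    ContMDiff 𝓘(ℝ, E) 𝓘(ℝ, E) ∞ q := by
  let _ := cs hq
  intro v
  rw [contMDiffAt_iff]
  refine ⟨hq.continuous.continuousAt, ?_⟩
  set hl := hq.isCoveringMap.isLocalHomeomorph with hldef
  have hv2 : q v ∈ (hl.localInverseAt (sec hq (q v))).source := by
    have := hl.apply_self_mem_localInverseAt_source (x := sec hq (q v))
    rwa [sec_spec hq] at this
  obtain ⟨g, hg⟩ := localInverse_eq_smul hq (sec hq (q v)) v hv2
  have h1 : ContDiffAt ℝ ∞ (fun u => hl.localInverseAt (sec hq (q v)) (q u)) v :=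
    (hs g).contDiffAt.congr_of_eventuallyEq hg
  have h2 : (extChartAt 𝓘(ℝ, E) (q v) ∘ q ∘ (extChartAt 𝓘(ℝ, E) v).symm) =
      fun u => hl.localInverseAt (sec hq (q v)) (q u) := by
    ext u
    rw [extChartAt_coe]
    simp [chartAt_self_eq, hldef]
  rw [h2]
  exact h1.contDiffWithinAt

lemma contMDiffOn_localInverse (hq : IsQuotientCoveringMap q G)
    (hs : ∀ g : G, ContDiff ℝ ∞ (fun p : E => g • p)) (x : E) :
    letI := cs hq
    ContMDiffOn 𝓘(ℝ, E) 𝓘(ℝ, E) ∞ (hq.isCoveringMap.isLocalHomeomorph.localInverseAt x)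
      (hq.isCoveringMap.isLocalHomeomorph.localInverseAt x).source := by
  let _ := cs hq
  intro y hy
  apply ContMDiffAt.contMDiffWithinAt
  rw [contMDiffAt_iff]
  set hl := hq.isCoveringMap.isLocalHomeomorph with hldef
  refine ⟨(hl.localInverseAt x).continuousAt hy, ?_⟩
  have hv2 : q (sec hq y) ∈ (hl.localInverseAt x).source := by
    rwa [sec_spec hq]
  obtain ⟨g, hg⟩ := localInverse_eq_smul hq x (sec hq y) hv2
  have h1 : ContDiffAt ℝ ∞ (fun u => hl.localInverseAt x (q u)) (sec hq y) :=
    (hs g).contDiffAt.congr_of_eventuallyEq hg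
  have h2 : (extChartAt 𝓘(ℝ, E) (hl.localInverseAt x y) ∘ (hl.localInverseAt x) ∘
      (extChartAt 𝓘(ℝ, E) y).symm) =
      fun u => hl.localInverseAt x (q u) := by
    ext u
    rw [extChartAt_symm_coe]
    simp [chartAt_self_eq]
  rw [h2, extChartAt_self]
  exact h1.contDiffWithinAt

lemma isLocalDiffeomorph (hq : IsQuotientCoveringMap q G)
    (hs : ∀ g : G, ContDiff ℝ ∞ (fun p : E => g • p)) :
    letI := cs hq
    IsLocalDiffeomorph 𝓘(ℝ, E) 𝓘(ℝ, E) ∞ q := by
  let _ := cs hq
  intro x
  set hl := hq.isCoveringMap.isLocalHomeomorph with hldef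
  refine ⟨⟨(hl.localInverseAt x).symm.toPartialEquiv, (hl.localInverseAt x).open_target,
    (hl.localInverseAt x).open_source, ?_, ?_⟩, ?_, ?_⟩
  · have := (contMDiff_proj hq hs).contMDiffOn (s := (hl.localInverseAt x).target)
    convert this using 1
    · exact hl.localInverseAt_symm x
    · rfl
  · exact contMDiffOn_localInverse hq hs x
  · exact hl.self_mem_localInverseAt_target
  · intro u _
    exact (congrFun (hl.localInverseAt_symm x) u).symm

end Pool.Agent.Helper454.QuotMfd
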