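import Pool.Agent.Helper454.Fields

set_option autoImplicit false
set_option linter.unusedSectionVars false
open Set Real

namespace Pool.Agent.Helper454.Engel

/-- the monotone invariant -/
noncomputable def gI (s : ℝ) : ℝ :=
  4 * log (bP s) - 4 * log (aP s) - 6 * log s - 3 * log (1 - s ^ 2)

lemma hasDerivAt_aP (s : ℝ) : HasDerivAt aP (-2) s := by
  have h := ((hasDerivAt_id s).const_mul 2).const_sub 1
  refine HasDerivAt.congr_deriv (f := aP) h ?_
  norm_num

lemma hasDerivAt_bP (s : ℝ) : HasDerivAt bP (dbP s) s := by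
  have h := hasDerivAt_id s
  have h1 := ((h.pow 2).const_mul 16).const_sub 1
  have h2 := (h.const_mul 4).const_sub 3
  have h3 := h1.mul h2
  refine HasDerivAt.congr_deriv (f := bP) h3 ?_
  simp [dbP]
  ring

lemma hasDerivAt_gI {s : ℝ} (ha : aP s ≠ 0) (hb : bP s ≠ 0) (hs : s ≠ 0) (h1 : 1 - s ^ 2 ≠ 0) :
    HasDerivAt gI (-2 * (bP s * aQ s - aP s * bQ s) / (aP s * bP s * s * (1 - s ^ 2))) s := by
  have k1 := ((hasDerivAt_bP s).log hb).const_mul 4
  have k2 := ((hasDerivAt_aP s).log ha).const_mul 4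
  have k3 := (hasDerivAt_log hs).const_mul 6
  have k4 := ((((hasDerivAt_id s).pow 2).const_sub 1).log h1).const_mul 3
  have k := ((k1.sub k2).sub k3).sub k4
  refine HasDerivAt.congr_deriv (f := gI) k ?_
  simp only [aQ, bQ]
  generalize aP s = a at *
  generalize bP s = b at *
  generalize dbP s = d at *
  simp only [Pi.pow_apply, id, Nat.cast_ofNat]
  field_simp
  ring

lemma bP_factor (s : ℝ) : bP s = (1 - 4 * s) * (1 + 4 * s) * (3 - 4 * s) := by
  rw [bP]; ring

lemma sgn_between {s s' x : ℝ} (h1 : s ^ 2 < 1) (h2 : s' ^ 2 < 1) (ha : 0 < aP s * aP s')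
    (hb : 0 < bP s * bP s') (hss : 0 < s * s') (hx1 : s ≤ x) (hx2 : x ≤ s') :
    aP x ≠ 0 ∧ bP x ≠ 0 ∧ x ≠ 0 ∧ 1 - x ^ 2 ≠ 0 := by
  have hs1 : -1 < s ∧ s < 1 := abs_lt.1 (by rwa [sq_lt_one_iff_abs_lt_one] at h1)
  have hs2 : -1 < s' ∧ s' < 1 := abs_lt.1 (by rwa [sq_lt_one_iff_abs_lt_one] at h2)
  have hx : x ^ 2 < 1 := by
    rw [sq_lt_one_iff_abs_lt_one, abs_lt]
    constructor <;> linarith
  have ha2 : (0 < aP s ∧ 0 < aP s') ∨ (aP s < 0 ∧ aP s' < 0) := mul_pos_iff.1 ha
  have hb2 : (0 < bP s ∧ 0 < bP s') ∨ (bP s < 0 ∧ bP s' < 0) := mul_pos_iff.1 hb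
  have hs3 : (0 < s ∧ 0 < s') ∨ (s < 0 ∧ s' < 0) := mul_pos_iff.1 hss
  simp only [aP] at *
  rw [bP_factor] at hb2 hb ⊢
  rw [bP_factor] at hb2
  refine ⟨?_, ?_, ?_, by linarith⟩
  · rcases ha2 with ⟨h3, h4⟩ | ⟨h3, h4⟩
    · have : 0 < 1 - 2 * x := by linarith
      exact this.ne'
    · have : 1 - 2 * x < 0 := by linarith
      exact this.ne
  · intro h0
    rcases mul_eq_zero.1 h0 with h0 | h0
    · rcases mul_eq_zero.1 h0 with h0 | h0
      · have hx0 : x = 1 / 4 := by linarith
        have hs0 : 0 < s := by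
          rcases hs3 with h | h
          · exact h.1
          · linarith [h.2]
        have q1 : 0 ≤ (1 - 4 * s) * (1 + 4 * s) * (3 - 4 * s) := by
          apply mul_nonneg (mul_nonneg _ _) <;> linarith
        have q2 : 0 < (1 - 4 * s') * (1 + 4 * s') * (3 - 4 * s') := by
          rcases hb2 with h | h
          · exact h.2
          · linarith [h.1]
        have q3 : s' ≤ 1 / 2 := by
          rcases ha2 with h | h
          · linarith [h.2]
          · linarith [h.1]
        have q4 : (1 - 4 * s') * (1 + 4 * s') * (3 - 4 * s') ≤ 0 := by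
          apply mul_nonpos_of_nonpos_of_nonneg (mul_nonpos_of_nonpos_of_nonneg _ _) <;> linarith
        linarith
      · have hx0 : x = -1 / 4 := by linarith
        have hs0 : s' < 0 := by
          rcases hs3 with h | h
          · linarith [h.1]
          · exact h.2
        have q1 : 0 ≤ (1 - 4 * s') * (1 + 4 * s') * (3 - 4 * s') := by
          apply mul_nonneg (mul_nonneg _ _) <;> linarith
        have q2 : (1 - 4 * s) * (1 + 4 * s) * (3 - 4 * s) ≤ 0 := by
          apply mul_nonpos_of_nonpos_of_nonneg (mul_nonpos_of_nonneg_of_nonpos _ _) <;> linarith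
        rcases hb2 with h | h
        · linarith [h.1]
        · linarith [h.2]
    · have hx0 : x = 3 / 4 := by linarith
      have q1 : 0 ≤ (1 - 4 * s') * (1 + 4 * s') * (3 - 4 * s') := by
        apply mul_nonneg_of_nonpos_of_nonpos
        · apply mul_nonpos_of_nonpos_of_nonneg <;> linarith
        · linarith
      have q3 : 1 / 2 ≤ s := by
        rcases ha2 with h | h
        · linarith [h.2]
        · linarith [h.1]
      have q2 : (1 - 4 * s) * (1 + 4 * s) * (3 - 4 * s) ≤ 0 := by
        apply mul_nonpos_of_nonpos_of_nonneg (mul_nonpos_of_nonpos_of_nonneg _ _) <;> linarith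
      rcases hb2 with h | h
      · linarith [h.1]
      · linarith [h.2]
  · rcases hs3 with ⟨h3, h4⟩ | ⟨h3, h4⟩
    · linarith
    · linarith

lemma gI_inj_lt {s s' : ℝ} (h1 : s ^ 2 < 1) (h2 : s' ^ 2 < 1) (ha : 0 < aP s * aP s')
    (hb : 0 < bP s * bP s') (hss : 0 < s * s') (hlt : s < s') (hg : gI s = gI s') : False := by
  have hsb := fun x (hx1 : s ≤ x) (hx2 : x ≤ s') => sgn_between h1 h2 ha hb hss hx1 hx2
  have hd : ∀ x, s ≤ x → x ≤ s' → HasDerivAt gI
      (-2 * (bP x * aQ x - aP x * bQ x) / (aP x * bP x * x * (1 - x ^ 2))) x := by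
    intro x hx1 hx2
    obtain ⟨k1, k2, k3, k4⟩ := hsb x hx1 hx2
    exact hasDerivAt_gI k1 k2 k3 k4
  obtain ⟨x, hx, hx0⟩ := exists_hasDerivAt_eq_zero hlt
    (fun x hx => (hd x hx.1 hx.2).continuousAt.continuousWithinAt) hg
    (fun x hx => hd x hx.1.le hx.2.le)
  obtain ⟨k1, k2, k3, k4⟩ := hsb x hx.1.le hx.2.le
  have hR := R_pos x
  rw [div_eq_zero_iff] at hx0
  rcases hx0 with h | h
  · linarith
  · exact (mul_ne_zero (mul_ne_zero (mul_ne_zero k1 k2) k3) k4) h

lemma gI_inj {s s' : ℝ} (h1 : s ^ 2 < 1) (h2 : s' ^ 2 < 1) (ha : 0 < aP s * aP s')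
    (hb : 0 < bP s * bP s') (hss : 0 < s * s') (hg : gI s = gI s') : s = s' := by
  rcases lt_trichotomy s s' with h | h | h
  · exact (gI_inj_lt h1 h2 ha hb hss h hg).elim
  · exact h
  · exact (gI_inj_lt h2 h1 (by linarith) (by linarith) (by linarith) h hg.symm).elim

lemma one_of_mul_one {x y : ℝ} (hx : 0 < x) (hy : 0 < y) (h : x * y = 1) (h2 : x = y) :
    x = 1 ∧ y = 1 := by
  subst h2
  have : x = 1 := by nlinarith
  exact ⟨this, this⟩

theorem real_rigid {s σ s' σ' l r c : ℝ} (hl : 0 < l) (hr : 0 < r) (hc : 0 < c)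
    (h1 : s ^ 2 + σ ^ 2 = 1) (h2 : s' ^ 2 + σ' ^ 2 = 1) (hs : s' = l * r * s)
    (hσ : σ' * r = l * σ) (ha : c * aP s' * l = aP s) (hb : c * bP s' = l ^ 2 * bP s) :
    l = 1 ∧ r = 1 := by
  -- when the cosines agree and both coordinates are nonzero
  have hlr : 0 < l * r := mul_pos hl hr
  have key1 : s' = s → s ≠ 0 → l * r = 1 := by
    intro h h0
    rw [h] at hs
    apply mul_right_cancel₀ h0
    linarith
  have key2 : s' = s → σ ≠ 0 → l = r := by
    intro h h0
    have h3 : σ' ^ 2 = σ ^ 2 := by rw [h] at h2; linarith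
    have h4 : (l ^ 2 - r ^ 2) * σ ^ 2 = 0 := by
      have : (σ' * r) ^ 2 = (l * σ) ^ 2 := by rw [hσ]
      rw [mul_pow, h3] at this
      linarith
    have h5 : l ^ 2 - r ^ 2 = 0 := by
      rcases mul_eq_zero.1 h4 with h | h
      · exact h
      · exact absurd h (pow_ne_zero 2 h0)
    have h6 : (l - r) * (l + r) = 0 := by linarith
    rcases mul_eq_zero.1 h6 with h | h
    · linarith
    · linarith
  by_cases s0 : s = 0
  · have hs' : s' = s := by rw [hs, s0]; ring
    have hσ0 : σ ≠ 0 := by
      intro h; rw [h, s0] at h1; norm_num at h1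
    have e := key2 hs' hσ0
    rw [hs', s0] at ha hb
    simp only [aP, bP] at ha hb
    norm_num at ha hb
    have hc2 : c = l ^ 2 := by linarith
    rw [hc2] at ha
    have : l = 1 := by
      have h3 : (l - 1) * (l ^ 2 + l + 1) = 0 := by linarith
      rcases mul_eq_zero.1 h3 with h | h
      · linarith
      · nlinarith
    exact ⟨this, by rw [← e, this]⟩
  by_cases σ0 : σ = 0
  · have hσ' : σ' = 0 := by
      rw [σ0, mul_zero] at hσ
      rcases mul_eq_zero.1 hσ with h | h
      · exact h
      · exact absurd h hr.ne'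
    have e1 : s ^ 2 = 1 := by rw [σ0] at h1; linarith
    have e2 : s' ^ 2 = 1 := by rw [hσ'] at h2; linarith
    have e3 : l * r = 1 := by
      rw [hs, mul_pow, e1] at e2
      nlinarith
    have hs' : s' = s := by rw [hs, e3]; ring
    rw [hs'] at ha hb
    have hane : aP s ≠ 0 := by
      intro h
      simp only [aP] at h
      have : s = 1 / 2 := by linarith
      rw [this] at e1
      norm_num at e1
    have hbne : bP s ≠ 0 := by
      have : (s - 1) * (s + 1) = 0 := by linarith
      rcases mul_eq_zero.1 this with h | h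
      · have : s = 1 := by linarith
        rw [this]; simp only [bP]; norm_num
      · have : s = -1 := by linarith
        rw [this]; simp only [bP]; norm_num
    have hc2 : c = l ^ 2 := by
      apply mul_right_cancel₀ hbne
      linarith
    have hcl : c * l = 1 := by
      apply mul_right_cancel₀ hane
      linarith
    rw [hc2] at hcl
    have hl1 : l = 1 := by
      have h3 : (l - 1) * (l ^ 2 + l + 1) = 0 := by linarith
      rcases mul_eq_zero.1 h3 with h | h
      · linarith
      · nlinarith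
    refine ⟨hl1, ?_⟩
    rw [hl1] at e3
    linarith
  -- it suffices to show that the cosines agree
  suffices hfin : s' = s by
    exact one_of_mul_one hl hr (key1 hfin s0) (key2 hfin σ0)
  have hσ'0 : σ' ≠ 0 := by
    intro h
    rw [h, zero_mul] at hσ
    exact (mul_ne_zero hl.ne' σ0) hσ.symm
  have hs'0 : s' ≠ 0 := by
    rw [hs]; exact mul_ne_zero hlr.ne' s0
  have hσ2 : 0 < σ ^ 2 := by positivity
  have hσ'2 : 0 < σ' ^ 2 := by positivity
  have hs1 : s ^ 2 < 1 := by linarith
  have hs'1 : s' ^ 2 < 1 := by linarith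
  have hss : 0 < s * s' := by
    rw [hs]
    have : 0 < s ^ 2 := by positivity
    have := mul_pos hlr this
    linarith
  by_cases ha0 : aP s = 0
  · rw [ha0] at ha
    have ha' : aP s' = 0 := by
      rcases mul_eq_zero.1 ha with h | h
      · rcases mul_eq_zero.1 h with h | h
        · exact absurd h hc.ne'
        · exact h
      · exact absurd h hl.ne'
    simp only [aP] at ha0 ha'
    linarith
  have ha'0 : aP s' ≠ 0 := by
    intro h
    rw [h] at ha
    simp at ha
    exact ha0 ha.symm
  have haa : 0 < aP s * aP s' := by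
    rw [← ha]
    have h3 : 0 < aP s' ^ 2 := by positivity
    have h4 := mul_pos (mul_pos hc hl) h3
    linarith
  by_cases hb0 : bP s = 0
  · have hb' : bP s' = 0 := by
      rw [hb0, mul_zero] at hb
      rcases mul_eq_zero.1 hb with h | h
      · exact absurd h hc.ne'
      · exact h
    simp only [aP] at haa
    rw [bP_factor] at hb0 hb'
    have r1 : s = 1 / 4 ∨ s = -1 / 4 ∨ s = 3 / 4 := by
      rcases mul_eq_zero.1 hb0 with h | h
      · rcases mul_eq_zero.1 h with h | h
        · left; linarith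
        · right; left; linarith
      · right; right; linarith
    have r2 : s' = 1 / 4 ∨ s' = -1 / 4 ∨ s' = 3 / 4 := by
      rcases mul_eq_zero.1 hb' with h | h
      · rcases mul_eq_zero.1 h with h | h
        · left; linarith
        · right; left; linarith
      · right; right; linarith
    clear hb0 hb' ha hb hs hσ key1 key2 ha0 ha'0 h1 h2 hs1 hs'1
    rcases r1 with r1 | r1 | r1 <;> rcases r2 with r2 | r2 | r2 <;> rw [r1, r2] at haa hss <;>
      first | (rw [r1, r2]; done) | (exfalso; norm_num at haa; done) |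
        (exfalso; norm_num at hss)
  have hb'0 : bP s' ≠ 0 := by
    intro h
    rw [h, mul_zero] at hb
    exact (mul_ne_zero (pow_ne_zero 2 hl.ne') hb0) hb.symm
  have hbb : 0 < bP s * bP s' := by
    have h3 : 0 < bP s' ^ 2 := by positivity
    have h4 : 0 < l ^ 2 := by positivity
    have h5 : l ^ 2 * (bP s * bP s') = c * bP s' ^ 2 := by
      rw [← mul_assoc, ← hb]; ring
    have h6 : 0 < l ^ 2 * (bP s * bP s') := by rw [h5]; positivity
    exact (mul_pos_iff_of_pos_left h4).1 h6
  symm
  apply gI_inj hs1 hs'1 haa hbb hss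
  -- equality of the invariants
  have L1 : log (bP s') = 2 * log l + log (bP s) - log c := by
    have : log (c * bP s') = log (l ^ 2 * bP s) := by rw [hb]
    rw [log_mul hc.ne' hb'0, log_mul (by positivity) hb0, log_pow] at this
    push_cast at this
    linarith
  have L2 : log (aP s') = log (aP s) - log c - log l := by
    have : log (c * aP s' * l) = log (aP s) := by rw [ha]
    rw [log_mul (mul_ne_zero hc.ne' ha'0) hl.ne', log_mul hc.ne' ha'0] at this
    linarith
  have L3 : log s' = log l + log r + log s := by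
    rw [hs, log_mul hlr.ne' s0, log_mul hl.ne' hr.ne']
  have L4 : log (1 - s' ^ 2) = 2 * log l + log (1 - s ^ 2) - 2 * log r := by
    have e1 : 1 - s' ^ 2 = σ' ^ 2 := by linarith
    have e2 : 1 - s ^ 2 = σ ^ 2 := by linarith
    rw [e1, e2]
    have : log (σ' * r) = log (l * σ) := by rw [hσ]
    rw [log_mul hσ'0 hr.ne', log_mul hl.ne' σ0] at this
    rw [log_pow, log_pow]
    push_cast
    linarith
  rw [gI, gI, L1, L2, L3, L4]
  ring

end Pool.Agent.Helper454.Engel
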