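import Pool.Agent.Helper454.Pres
import Pool.Agent.Helper454.RealLem
import Pool.Agent.Helper454.Act

set_option autoImplicit false
set_option linter.unusedSectionVars false
open scoped Manifold ContDiff Topology
open Set Real VectorField

namespace Pool.Agent.Helper454.Engel

variable {F : E4 → E4} {ε : ℝ}

/-- the scaling factor of the lift on the direction field -/
noncomputable def lamF (F : E4 → E4) (p : E4) : ℝ :=
  (-sin (p 2) * exp (-p 3)) * V1 (F p) + (cos (p 2) * exp (p 3)) * V2 (F p)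

lemma fderiv_coord0 (h : IsPres F) (h0 : ∀ p, F p 0 = ε * p 0) (p v : E4) :
    (fderiv ℝ F p v) 0 = ε * v 0 := by
  rw [fderiv_comp_coord (fd F h.smooth p)]
  have h1 : (fun q => F q 0) = fun q : E4 => ε * q 0 := by ext q; exact h0 q
  rw [h1]
  have h2 : HasFDerivAt (fun q : E4 => ε * q 0) (ε • prj 0) p :=
    (hasFDerivAt_coord 0 p).const_mul ε
  rw [h2.fderiv]
  simp

lemma fderiv_coord1 (h : IsPres F) (h1 : ∀ p, F p 1 = ε * p 1) (p v : E4) :
    (fderiv ℝ F p v) 1 = ε * v 1 := by
  rw [fderiv_comp_coord (fd F h.smooth p)]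
  have h3 : (fun q => F q 1) = fun q : E4 => ε * q 1 := by ext q; exact h1 q
  rw [h3]
  have h2 : HasFDerivAt (fun q : E4 => ε * q 1) (ε • prj 1) p :=
    (hasFDerivAt_coord 1 p).const_mul ε
  rw [h2.fderiv]
  simp

lemma A_eq (h : IsPres F) (hε : ε ≠ 0) (h0 : ∀ p, F p 0 = ε * p 0) (h1 : ∀ p, F p 1 = ε * p 1)
    (p : E4) : V1 (F p) * V2 p = V2 (F p) * V1 p := by
  set H : E4 := !₂[V1 p, V2 p, 0, 0] with hH
  have e0 : H 0 = V1 p := by simp [hH]
  have e1 : H 1 = V2 p := by simp [hH]
  have k0 : al p H = 0 := by rw [al_apply, e0, e1]; ring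
  have k1 := h.pal_ker p H k0
  rw [pal_apply, al_apply, fderiv_coord0 h h0, fderiv_coord1 h h1, e0, e1] at k1
  have k2 : ε * (V1 (F p) * V2 p - V2 (F p) * V1 p) = 0 := by linarith
  rcases mul_eq_zero.1 k2 with k3 | k3
  · exact absurd k3 hε
  · linarith

lemma V1_F (h : IsPres F) (hε : ε ≠ 0) (h0 : ∀ p, F p 0 = ε * p 0) (h1 : ∀ p, F p 1 = ε * p 1)
    (p : E4) : V1 (F p) = lamF F p * V1 p := by
  have hA := A_eq h hε h0 h1 p
  have hD := V_dual p
  rw [lamF]
  linear_combination (-V1 (F p)) * hD + (cos (p 2) * exp (p 3)) * hA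

lemma V2_F (h : IsPres F) (hε : ε ≠ 0) (h0 : ∀ p, F p 0 = ε * p 0) (h1 : ∀ p, F p 1 = ε * p 1)
    (p : E4) : V2 (F p) = lamF F p * V2 p := by
  have hA := A_eq h hε h0 h1 p
  have hD := V_dual p
  rw [lamF]
  linear_combination (-V2 (F p)) * hD - (-sin (p 2) * exp (-p 3)) * hA

lemma lamF_ne (h : IsPres F) (hε : ε ≠ 0) (h0 : ∀ p, F p 0 = ε * p 0)
    (h1 : ∀ p, F p 1 = ε * p 1) (p : E4) : lamF F p ≠ 0 := by
  intro hl
  have k1 := V1_F h hε h0 h1 p
  have k2 := V2_F h hε h0 h1 p
  rw [hl, zero_mul] at k1 k2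
  rcases V_ne (F p) with h | h
  · exact h k1
  · exact h k2

lemma cont_V1 : Continuous V1 :=
  continuous_iff_continuousAt.2 fun p => (hasFDerivAt_V1 p).continuousAt

lemma cont_V2 : Continuous V2 :=
  continuous_iff_continuousAt.2 fun p => (hasFDerivAt_V2 p).continuousAt

lemma cont_coord (i : Fin 4) : Continuous fun q : E4 => q i := (contDiff_coord i).continuous

lemma cont_lamF (h : IsPres F) : Continuous (lamF F) := by
  have hF := h.smooth.continuous
  have h1 := cont_V1.comp hF
  have h2 := cont_V2.comp hF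
  have h3 := cont_coord 2
  have h4 := cont_coord 3
  unfold lamF
  exact (((Real.continuous_sin.comp h3).neg.mul (Real.continuous_exp.comp h4.neg)).mul h1).add
    (((Real.continuous_cos.comp h3).mul (Real.continuous_exp.comp h4)).mul h2)

lemma sq_one_cases {x : ℝ} (h : x ^ 2 = 1) : x = 1 ∨ x = -1 := by
  have h2 : (x - 1) * (x + 1) = 0 := by linarith
  rcases mul_eq_zero.1 h2 with h | h
  · left; linarith
  · right; linarith

lemma pos_of_ne {g : E4 → ℝ} (hg : Continuous g) (hne : ∀ p, g p ≠ 0) {p0 : E4}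
    (h0 : 0 < g p0) (p : E4) : 0 < g p := by
  by_contra h
  have h1 : g p < 0 := lt_of_le_of_ne (not_lt.1 h) (hne p)
  obtain ⟨q, hq⟩ := mem_range_of_exists_le_of_exists_ge hg ⟨p, h1.le⟩ ⟨p0, h0.le⟩
  exact hne q hq

lemma coeffs (h : IsPres F) (hε : ε ≠ 0) (h0 : ∀ p, F p 0 = ε * p 0)
    (h1 : ∀ p, F p 1 = ε * p 1) (p : E4) :
    ∃ d : ℝ, d * aP (cos (F p 2)) * lamF F p = ε * aP (cos (p 2)) ∧
      d * bP (cos (F p 2)) = lamF F p ^ 2 * bP (cos (p 2)) := by
  obtain ⟨d1, d2, hd⟩ := h.presL p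
  have k1 := V1_F h hε h0 h1 p
  have k2 := V2_F h hε h0 h1 p
  have hl := lamF_ne h hε h0 h1 p
  refine ⟨d2, ?_, ?_⟩
  · have c0 := congrArg (fun v : E4 => v 0) hd
    have c1 := congrArg (fun v : E4 => v 1) hd
    simp only [PiLp.add_apply, PiLp.smul_apply, smul_eq_mul, fW_0, fL_0, fW_1, fL_1] at c0 c1
    rw [fderiv_coord0 h h0, fL_0, k1] at c0
    rw [fderiv_coord1 h h1, fL_1, k2] at c1
    rcases V_ne p with hv | hv
    · apply mul_right_cancel₀ hv
      linarith
    · apply mul_right_cancel₀ hv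
      linarith
  · -- differentiate the proportionality relation
    have hFd : HasFDerivAt F (fderiv ℝ F p) p := (fd F h.smooth p).hasFDerivAt
    have q1 : HasFDerivAt (fun u => V1 (F u)) ((dV1L (F p)).comp (fderiv ℝ F p)) p :=
      (hasFDerivAt_V1 (F p)).comp p hFd
    have q2 : HasFDerivAt (fun u => V2 (F u)) ((dV2L (F p)).comp (fderiv ℝ F p)) p :=
      (hasFDerivAt_V2 (F p)).comp p hFd
    have q3 := ((q1.mul (hasFDerivAt_V2 p)).sub (q2.mul (hasFDerivAt_V1 p)))
    have q4 : ((fun u => V1 (F u)) * V2 - (fun u => V2 (F u)) * V1) = fun _ : E4 => (0 : ℝ) := by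
      ext u
      have hA := A_eq h hε h0 h1 u
      simp only [Pi.sub_apply, Pi.mul_apply]
      linarith
    rw [q4] at q3
    have q5 := q3.unique (hasFDerivAt_const (0 : ℝ) p)
    have q6 := congrArg (fun L : E4 →L[ℝ] ℝ => L (fL p)) q5
    simp only [sub_apply, add_apply, smul_apply, smul_eq_mul, zero_apply,
      ContinuousLinearMap.comp_apply, dV1L_apply, dV2L_apply] at q6
    have w1 := V_wedge p (fL p)
    have w2 := V_wedge (F p) (fderiv ℝ F p (fL p))
    rw [fL_2, fL_3] at w1
    have f2 := congrArg (fun v : E4 => v 2) hd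
    have f3 := congrArg (fun v : E4 => v 3) hd
    simp only [PiLp.add_apply, PiLp.smul_apply, smul_eq_mul, fW_2, fL_2, fW_3, fL_3] at f2 f3
    rw [f2, f3] at w2
    set l := lamF F p with hlam
    rw [k1, k2] at q6 w2
    have q7 : l * (l * (V1 p * dV2 p (fL p) - V2 p * dV1 p (fL p))) =
        l * (V1 p) * dV2 (F p) (fderiv ℝ F p (fL p)) -
        l * (V2 p) * dV1 (F p) (fderiv ℝ F p (fL p)) := by
      linear_combination l * q6
    rw [w1, w2] at q7
    linear_combination (-1 : ℝ) * q7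

lemma lam_r (h : IsPres F) (hε : ε ≠ 0) (h0 : ∀ p, F p 0 = ε * p 0)
    (h1 : ∀ p, F p 1 = ε * p 1) (p : E4) :
    cos (F p 2) = lamF F p * exp (F p 3 - p 3) * cos (p 2) ∧
      sin (F p 2) * exp (F p 3 - p 3) = lamF F p * sin (p 2) := by
  have k1 := V1_F h hε h0 h1 p
  have k2 := V2_F h hε h0 h1 p
  set l := lamF F p with hlam
  rw [V1, V1] at k1
  rw [V2, V2] at k2
  have e1 := exp_mul_exp_neg (p 3)
  have e2 := exp_mul_exp_neg (F p 3)
  rw [sub_eq_add_neg, exp_add]
  constructor
  · linear_combination exp (F p 3) * k2 - cos (F p 2) * e2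
  · linear_combination (-exp (-p 3)) * k1 + (l * sin (p 2)) * e1

lemma at_zero (h : IsPres F) (hε : ε = 1 ∨ ε = -1) (h0 : ∀ p, F p 0 = ε * p 0)
    (h1 : ∀ p, F p 1 = ε * p 1) : 0 < ε * lamF F 0 := by
  have hε0 : ε ≠ 0 := by rcases hε with h | h <;> rw [h] <;> norm_num
  obtain ⟨d, hd1, hd2⟩ := coeffs h hε0 h0 h1 0
  obtain ⟨g1, g2⟩ := lam_r h hε0 h0 h1 0
  have hl := lamF_ne h hε0 h0 h1 0
  set l := lamF F 0 with hlam
  have z2 : (0 : E4) 2 = 0 := rfl
  rw [z2, cos_zero] at hd1 hd2 g1
  rw [z2, sin_zero, mul_zero] at g2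
  have hr := exp_pos (F 0 3 - (0 : E4) 3)
  set r := exp (F 0 3 - (0 : E4) 3) with hrr
  have hs : sin (F 0 2) = 0 := by
    rcases mul_eq_zero.1 g2 with h | h
    · exact h
    · exact absurd h hr.ne'
  have hc : cos (F 0 2) ^ 2 = 1 := by
    have := sin_sq_add_cos_sq (F 0 2)
    rw [hs] at this
    linarith
  have hc2 : cos (F 0 2) = 1 ∨ cos (F 0 2) = -1 := sq_one_cases hc
  have hl2 : 0 < l ^ 2 := by positivity
  rcases hc2 with hc2 | hc2
  · rw [hc2] at hd1 hd2 g1
    simp only [aP, bP] at hd1 hd2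
    norm_num at hd1 hd2
    have hd : d = l ^ 2 := by linarith
    have hlpos : 0 < l := by
      by_contra hn
      have : l * r ≤ 0 := mul_nonpos_of_nonpos_of_nonneg (not_lt.1 hn) hr.le
      linarith
    have : 0 < d * l := by rw [hd]; positivity
    have hεp : 0 < ε := by linarith
    exact mul_pos hεp hlpos
  · rw [hc2] at hd1 hd2 g1
    simp only [aP, bP] at hd1 hd2
    norm_num at hd1 hd2
    have hd : d < 0 := by linarith
    have hlneg : l < 0 := by
      by_contra hn
      have : 0 ≤ l * r := mul_nonneg (not_lt.1 hn) hr.le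
      linarith
    have : 0 < d * l := mul_pos_of_neg_of_neg hd hlneg
    have hεn : ε < 0 := by linarith
    exact mul_pos_of_neg_of_neg hεn hlneg

theorem rigid_E (h : IsPres F) (hε : ε = 1 ∨ ε = -1) (h0 : ∀ p, F p 0 = ε * p 0)
    (h1 : ∀ p, F p 1 = ε * p 1) (p : E4) : ∃ j : ℤ, F p = (⟨0, j, 0⟩ : Gam) • p := by
  have hε0 : ε ≠ 0 := by rcases hε with h | h <;> rw [h] <;> norm_num
  have hz := at_zero h hε h0 h1
  have hlam : ∀ q, 0 < ε * lamF F q := pos_of_ne (continuous_const.mul (cont_lamF h))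
    (fun q => mul_ne_zero hε0 (lamF_ne h hε0 h0 h1 q)) hz
  have hFc := h.smooth.continuous
  rcases hε with hε | hε
  · -- the orientation preserving case
    have hl : ∀ q, 0 < lamF F q := fun q => by
      have := hlam q
      rwa [hε, one_mul] at this
    have hcos1 : Continuous fun q : E4 => cos (q 2) := Real.continuous_cos.comp (cont_coord 2)
    have hcos2 : Continuous fun q : E4 => cos (F q 2) :=
      Real.continuous_cos.comp ((cont_coord 2).comp hFc)
    have haPc : Continuous aP := contDiff_aP.continuous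
    have hbPc : Continuous bP := contDiff_bP.continuous
    have hlc := cont_lamF h
    set hh : E4 → ℝ := fun q => lamF F q * aP (cos (q 2)) * aP (cos (F q 2)) +
      bP (cos (q 2)) * bP (cos (F q 2)) with hhh
    have hhc : Continuous hh := ((hlc.mul (haPc.comp hcos1)).mul (haPc.comp hcos2)).add
      ((hbPc.comp hcos1).mul (hbPc.comp hcos2))
    have hab : ∀ s : ℝ, 0 < aP s ^ 2 ∨ 0 < bP s ^ 2 := by
      intro s
      by_cases ha : aP s = 0
      · right
        have : s = 1 / 2 := by simp only [aP] at ha; linarith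
        rw [this]; simp only [bP]; norm_num
      · left; positivity
    have hdh : ∀ q, ∀ d : ℝ, d * aP (cos (F q 2)) * lamF F q = ε * aP (cos (q 2)) →
        d * bP (cos (F q 2)) = lamF F q ^ 2 * bP (cos (q 2)) → 0 < d * hh q := by
      intro q d e1 e2
      have e3 : d * hh q = aP (cos (q 2)) ^ 2 + lamF F q ^ 2 * bP (cos (q 2)) ^ 2 := by
        rw [hhh]
        simp only
        rw [hε] at e1
        linear_combination aP (cos (q 2)) * e1 + bP (cos (q 2)) * e2
      rw [e3]
      have hlq := hl q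
      have hlq2 : 0 < lamF F q ^ 2 := by positivity
      rcases hab (cos (q 2)) with k | k
      · have : 0 ≤ lamF F q ^ 2 * bP (cos (q 2)) ^ 2 := by positivity
        linarith
      · have h2 : 0 < lamF F q ^ 2 * bP (cos (q 2)) ^ 2 := mul_pos hlq2 k
        have h3 : 0 ≤ aP (cos (q 2)) ^ 2 := by positivity
        linarith
    have hhne : ∀ q, hh q ≠ 0 := by
      intro q h00
      obtain ⟨d, hd1, hd2⟩ := coeffs h hε0 h0 h1 q
      have := hdh q d hd1 hd2
      rw [h00] at this
      simp at this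
    have hh0 : 0 < hh 0 := by
      obtain ⟨g1, g2⟩ := lam_r h hε0 h0 h1 0
      have z2 : (0 : E4) 2 = 0 := rfl
      rw [z2, cos_zero] at g1
      rw [z2, sin_zero, mul_zero] at g2
      have hr := exp_pos (F 0 3 - (0 : E4) 3)
      have hs : sin (F 0 2) = 0 := by
        rcases mul_eq_zero.1 g2 with h | h
        · exact h
        · exact absurd h hr.ne'
      have hcp : 0 < cos (F 0 2) := by
        rw [g1]
        have := hl 0
        positivity
      have hc : cos (F 0 2) = 1 := by
        have h3 := sin_sq_add_cos_sq (F 0 2)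
        rw [hs] at h3
        have h4 : cos (F 0 2) ^ 2 = 1 := by linarith
        rcases sq_one_cases h4 with h | h
        · exact h
        · linarith
      rw [hhh]
      simp only
      rw [z2, cos_zero, hc]
      simp only [aP, bP]
      have := hl 0
      norm_num
      linarith
    have hhpos := pos_of_ne hhc hhne hh0
    obtain ⟨d, hd1, hd2⟩ := coeffs h hε0 h0 h1 p
    have hdpos : 0 < d := by
      have k1 := hdh p d hd1 hd2
      exact (mul_pos_iff_of_pos_right (hhpos p)).1 k1
    obtain ⟨g1, g2⟩ := lam_r h hε0 h0 h1 p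
    obtain ⟨l1, r1⟩ := real_rigid (s := cos (p 2)) (σ := sin (p 2)) (s' := cos (F p 2))
      (σ' := sin (F p 2)) (l := lamF F p) (r := exp (F p 3 - p 3)) (c := d)
      (hl p) (exp_pos _) hdpos
      (cos_sq_add_sin_sq _) (cos_sq_add_sin_sq _) g1 g2 (by rw [hd1, hε]; ring) hd2
    rw [l1, r1] at g1 g2
    have ht : F p 3 = p 3 := by
      have := (exp_eq_one_iff _).1 r1
      linarith
    have hc : cos (F p 2) = cos (p 2) := by rw [g1]; ring
    have hs : sin (F p 2) = sin (p 2) := by linarith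
    have hang := Real.Angle.cos_sin_inj hc hs
    rw [Real.Angle.angle_eq_iff_two_pi_dvd_sub] at hang
    obtain ⟨j, hj⟩ := hang
    refine ⟨j, ?_⟩
    apply E4_ext
    · rw [smul_apply_0, h0, hε]; simp
    · rw [smul_apply_1, h1, hε]; simp
    · rw [smul_apply_2]
      simp
      linarith
    · rw [smul_apply_3, ht]; simp
  · -- the orientation reversing case is impossible
    exfalso
    set q : E4 := EuclideanSpace.single 2 (π / 3) with hq
    have hq2 : q 2 = π / 3 := by simp [hq]
    have hl : lamF F q < 0 := by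
      have := hlam q
      rw [hε] at this
      linarith
    obtain ⟨d, hd1, hd2⟩ := coeffs h hε0 h0 h1 q
    obtain ⟨g1, g2⟩ := lam_r h hε0 h0 h1 q
    rw [hq2, cos_pi_div_three] at hd1 hd2 g1
    have ha : aP (1 / 2) = 0 := by simp only [aP]; norm_num
    have hb : bP (1 / 2) = -3 := by simp only [bP]; norm_num
    rw [ha, mul_zero] at hd1
    rw [hb] at hd2
    have hd : d ≠ 0 := by
      intro hd0
      rw [hd0, zero_mul] at hd2
      have hl' := hl.ne
      have : 0 < lamF F q ^ 2 := by positivity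
      linarith
    have ha' : aP (cos (F q 2)) = 0 := by
      rcases mul_eq_zero.1 hd1 with h | h
      · rcases mul_eq_zero.1 h with h | h
        · exact absurd h hd
        · exact h
      · exact absurd h hl.ne
    simp only [aP] at ha'
    have hr := exp_pos (F q 3 - q 3)
    have hneg : lamF F q * exp (F q 3 - q 3) < 0 := mul_neg_of_neg_of_pos hl hr
    linarith

end Pool.Agent.Helper454.Engel
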